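import Mathlib

set_option autoImplicit false

/-!
# Every CM field: nondegenerate types of finite transitive groups with a central involution

`X` is a finite set, `H` a transitive group of permutations of `X`, and `c` an involution in `H`
without fixed points which commutes with `H`. A type is an odd function `ε` with the values `1`
and `-1`; it is nondegenerate if its translates span all odd functions (here: if no odd function
is orthogonal to all translates).
-/

namespace Pool.Agent.ECF

open Finset
open scoped BigOperators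

variable {X : Type} [Fintype X]

/-- a transitive group of permutations with a central involution without fixed points -/
structure Cx (H : Subgroup (Equiv.Perm X)) (c : Equiv.Perm X) : Prop where
  mem : c ∈ H
  sq : ∀ x, c (c x) = x
  ne : ∀ x, c x ≠ x
  comm : ∀ h ∈ H, ∀ x, c (h x) = h (c x)
  trans : ∀ x y, ∃ h ∈ H, h x = y

/-- types: odd functions with the values `1` and `-1` -/
def Typ (c : Equiv.Perm X) (ε : X → ℤ) : Prop :=
  (∀ x, ε x = 1 ∨ ε x = -1) ∧ ∀ x, ε (c x) = - ε x

/-- the function `f` is odd and orthogonal to all translates of `ε` -/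
def Ann (H : Subgroup (Equiv.Perm X)) (c : Equiv.Perm X) (ε : X → ℤ) (f : X → ℤ) : Prop :=
  (∀ x, f (c x) = - f x) ∧ ∀ h ∈ H, ∑ x, f (h x) * ε x = 0

/-- nondegenerate types -/
def ND (H : Subgroup (Equiv.Perm X)) (c : Equiv.Perm X) (ε : X → ℤ) : Prop :=
  ∀ f : X → ℤ, Ann H c ε f → f = 0

/-- an involution of the types such that one of `ε`, `ι ε` is always nondegenerate: at least half
of the types are nondegenerate -/
def HalfGood (H : Subgroup (Equiv.Perm X)) (c : Equiv.Perm X) : Prop :=
  ∃ ι : (X → ℤ) → (X → ℤ), (∀ ε, Typ c ε → Typ c (ι ε)) ∧ (∀ ε, Typ c ε → ι (ι ε) = ε) ∧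
    ∀ ε, Typ c ε → ND H c ε ∨ ND H c (ι ε)

/-- change the signs at `x₀` and `c x₀` -/
def flip [DecidableEq X] (c : Equiv.Perm X) (x₀ : X) (ε : X → ℤ) : X → ℤ :=
  fun x => if x = x₀ ∨ x = c x₀ then - ε x else ε x

/-- an involution `e` of `H`, different from `c`, whose conjugates are among `e` and `e c` (so
that `1, c, e, e c` is a normal subgroup of `H`) -/
structure Kl (H : Subgroup (Equiv.Perm X)) (c e : Equiv.Perm X) : Prop where
  mem : e ∈ H
  sq : ∀ x, e (e x) = x
  ne_one : e ≠ 1
  ne_c : e ≠ c
  nor : ∀ h ∈ H, h * e * h⁻¹ = e ∨ h * e * h⁻¹ = e * c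

/-- `e` and `e c` have no fixed points -/
def Free (c e : Equiv.Perm X) : Prop := ∀ x, e x ≠ x ∧ e x ≠ c x

/-- the centralizer of `e` in `H` is transitive -/
def CTrans (H : Subgroup (Equiv.Perm X)) (e : Equiv.Perm X) : Prop :=
  ∀ x y, ∃ h ∈ H, h * e = e * h ∧ h x = y

/-- the group `H` is regular and generated by `r` of order `2 ^ n`, with `c` in the subgroup
generated by `r`, and by `t`; the subgroup generated by `r` has index two -/
structure Two (H : Subgroup (Equiv.Perm X)) (c r t : Equiv.Perm X) (n : ℕ) : Prop where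
  memr : r ∈ H
  memt : t ∈ H
  ord : orderOf r = 2 ^ n
  pow : r ^ 2 ^ (n - 1) = c
  two : 2 ≤ n
  nt : ∀ k : ℕ, t ≠ r ^ k
  cov : ∀ h ∈ H, ∃ k : ℕ, h = r ^ k ∨ h = r ^ k * t
  reg : ∀ h ∈ H, ∀ x, h x = x → h = 1
  sqt : t * t = 1 ∨ t * t = c

end Pool.Agent.ECF
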