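import Mathlib
import Pool.Agent.CMTP.Field
import Pool.Agent.ECF.Defs

set_option autoImplicit false

/-!
# Every CM field: the steps
-/

namespace Pool.Agent.ECF

open Finset NumberField
open Pool.Agent.CMT (QBar IsCMType TateByDivisors)
open Pool.Agent.CMTP (NotInduced HG)
open scoped BigOperators

/-! ### Elementary lemmas (BASE: helper89) -/

/-- fixed vectors modulo `p` which lift -/
def T_FIXV : Prop :=
  ∀ (X : Type) [Fintype X] (p : ℕ), p.Prime → ∀ P : Subgroup (Equiv.Perm X), IsPGroup p P →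
    ∀ M : AddSubgroup (X → ℤ), (∀ f ∈ M, ∀ g ∈ P, (fun x => f (g x)) ∈ M) →
      (∀ f : X → ℤ, (fun x => (p : ℤ) * f x) ∈ M → f ∈ M) → M ≠ ⊥ →
      ∃ f ∈ M, (∃ x, ¬ (p : ℤ) ∣ f x) ∧ ∀ g ∈ P, ∀ x, (p : ℤ) ∣ f (g x) - f x

/-- sums of functions invariant under a free involution -/
def T_SUM2 : Prop :=
  ∀ (X : Type) [Fintype X] (c : Equiv.Perm X), (∀ x, c (c x) = x) → (∀ x, c x ≠ x) →
    ∀ (B : Finset X) (g : X → ℤ), (∀ x ∈ B, c x ∈ B) → (∀ x ∈ B, g (c x) = g x) →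
      2 ∣ ∑ x ∈ B, g x

/-- sums of functions invariant under a free Klein four group -/
def T_SUM4 : Prop :=
  ∀ (X : Type) [Fintype X] (c e : Equiv.Perm X), (∀ x, c (c x) = x) → (∀ x, c x ≠ x) →
    (∀ x, e (e x) = x) → (∀ x, e (c x) = c (e x)) → Free c e →
    ∀ (B : Finset X) (g : X → ℤ), (∀ x ∈ B, c x ∈ B ∧ e x ∈ B) →
      (∀ x ∈ B, g (c x) = g x ∧ g (e x) = g x) → 4 ∣ ∑ x ∈ B, g x

/-- the cardinality of the set where the type is `e`-invariant, and the change of one sign -/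
def T_CARDB : Prop :=
  ∀ (X : Type) [Fintype X] [DecidableEq X] (c e : Equiv.Perm X), (∀ x, c (c x) = x) →
    (∀ x, c x ≠ x) → (∀ x, e (e x) = x) → (∀ x, e (c x) = c (e x)) → Free c e →
    ∀ (ε : X → ℤ), Typ c ε → ∀ x₀ : X,
      (univ.filter fun x => ε (e x) = ε x).card % 8 = 4 ∨
      (univ.filter fun x => flip c x₀ ε (e x) = flip c x₀ ε x).card % 8 = 4

/-! ### Two-groups with a normal Klein four group -/

/-- `e` has a fixed point -/
def T_KFIX : Prop :=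
  ∀ (X : Type) [Fintype X] (H : Subgroup (Equiv.Perm X)) (c e : Equiv.Perm X), Cx H c →
    IsPGroup 2 H → Kl H c e → (∃ x, e x = x) → HalfGood H c

/-- `e` is free and its centralizer is transitive -/
def T_KTR : Prop :=
  ∀ (X : Type) [Fintype X] (H : Subgroup (Equiv.Perm X)) (c e : Equiv.Perm X), Cx H c →
    IsPGroup 2 H → Kl H c e → Free c e → CTrans H e →
    (8 ∣ Fintype.card X ∨ ∃ t ∈ H, t * e * t⁻¹ = e * c) → HalfGood H c

/-- `e` is free and not central, at least 16 points -/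
def T_K16 : Prop :=
  ∀ (X : Type) [Fintype X] (H : Subgroup (Equiv.Perm X)) (c e : Equiv.Perm X), Cx H c →
    IsPGroup 2 H → Kl H c e → Free c e → 16 ∣ Fintype.card X →
    (∃ t ∈ H, t * e * t⁻¹ = e * c) → HalfGood H c

/-- `e` is free, its centralizer is not transitive, 8 points, more than 8 elements -/
def T_K8 : Prop :=
  ∀ (X : Type) [Fintype X] (H : Subgroup (Equiv.Perm X)) (c e : Equiv.Perm X), Cx H c →
    IsPGroup 2 H → Kl H c e → Free c e → Fintype.card X = 8 → ¬ CTrans H e →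
    8 < Nat.card H → HalfGood H c

/-- 4 points: the Klein four group -/
def T_EXC4 : Prop :=
  ∀ (X : Type) [Fintype X] (H : Subgroup (Equiv.Perm X)) (c e : Equiv.Perm X), Cx H c →
    Kl H c e → Free c e → Fintype.card X = 4 → (∀ h ∈ H, h * e = e * h) →
    Nat.card H = 4 ∧ ∀ h ∈ H, h * h = 1

/-- 8 points, 8 elements: the dihedral group -/
def T_EXC8 : Prop :=
  ∀ (X : Type) [Fintype X] (H : Subgroup (Equiv.Perm X)) (c e : Equiv.Perm X), Cx H c →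
    IsPGroup 2 H → Kl H c e → Free c e → Fintype.card X = 8 → ¬ CTrans H e →
    Nat.card H ≤ 8 → Nat.card H = 8 ∧ Nonempty (H ≃* DihedralGroup 4)

/-! ### Two-groups without a normal Klein four group containing `c` -/

/-- a cyclic normal subgroup which is its own centralizer -/
def T_CLSA : Prop :=
  ∀ (X : Type) [Fintype X] (H : Subgroup (Equiv.Perm X)) (c : Equiv.Perm X), Cx H c →
    Nonempty X → IsPGroup 2 H → (∀ e, ¬ Kl H c e) →
    ∃ (r : Equiv.Perm X) (n : ℕ), r ∈ H ∧ 1 ≤ n ∧ orderOf r = 2 ^ n ∧ r ^ 2 ^ (n - 1) = c ∧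
      (∀ h ∈ H, ∃ k : ℕ, h * r * h⁻¹ = r ^ k) ∧ ∀ h ∈ H, h * r = r * h → ∃ k : ℕ, h = r ^ k

/-- the classification -/
def T_CLSB : Prop :=
  ∀ (X : Type) [Fintype X] (H : Subgroup (Equiv.Perm X)) (c : Equiv.Perm X), Cx H c →
    Nonempty X → IsPGroup 2 H → (∀ e, ¬ Kl H c e) →
    ∀ (r : Equiv.Perm X) (n : ℕ), r ∈ H → 1 ≤ n → orderOf r = 2 ^ n → r ^ 2 ^ (n - 1) = c →
      (∀ h ∈ H, ∃ k : ℕ, h * r * h⁻¹ = r ^ k) → (∀ h ∈ H, h * r = r * h → ∃ k : ℕ, h = r ^ k) →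
      (∀ x y : X, ∃ k : ℕ, (r ^ k) x = y) ∨
      ∃ t : Equiv.Perm X, Two H c r t n ∧
        ((t * t = c ∧ t * r * t⁻¹ = r⁻¹) ∨
          (3 ≤ n ∧ (t * r * t⁻¹ = r⁻¹ ∨ t * r * t⁻¹ = c * r⁻¹)))

/-- linear independence of the powers of a root of unity of order `2 ^ n` -/
def T_LI : Prop :=
  ∀ n : ℕ, 1 ≤ n → ∀ ζ : ℂ, IsPrimitiveRoot ζ (2 ^ n) → ∀ a : ℕ → ℤ,
    ∑ j ∈ range (2 ^ (n - 1)), (a j : ℂ) * ζ ^ j = 0 → ∀ j < 2 ^ (n - 1), a j = 0

/-- the orthogonality relations after a Fourier transform -/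
def T_REL : Prop :=
  ∀ (X : Type) [Fintype X] (H : Subgroup (Equiv.Perm X)) (c : Equiv.Perm X), Cx H c →
    ∀ (r t : Equiv.Perm X) (n : ℕ), Two H c r t n → ∀ σ : ℕ, t * r * t⁻¹ = r ^ σ → ∀ τ : ℤ,
      ((τ = 1 ∧ t * t = 1) ∨ (τ = -1 ∧ t * t = c)) →
      ∀ ε f : X → ℤ, Typ c ε → Ann H c ε f → ∀ (x₀ : X) (ζ : ℂ), ζ ^ (2 ^ n) = 1 →
        (∑ j ∈ range (2 ^ n), (ε ((r ^ j) x₀) : ℂ) * ζ⁻¹ ^ j) *
            (∑ j ∈ range (2 ^ n), (f ((r ^ j) x₀) : ℂ) * ζ ^ j) +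
          (∑ j ∈ range (2 ^ n), (ε ((r ^ j) (t x₀)) : ℂ) * ζ⁻¹ ^ j) *
            (∑ j ∈ range (2 ^ n), (f ((r ^ j) (t x₀)) : ℂ) * ζ ^ j) = 0 ∧
        (∑ j ∈ range (2 ^ n), (ε ((r ^ j) x₀) : ℂ) * (ζ⁻¹ ^ σ) ^ j) *
            (∑ j ∈ range (2 ^ n), (f ((r ^ j) (t x₀)) : ℂ) * ζ ^ j) +
          (τ : ℂ) * (∑ j ∈ range (2 ^ n), (ε ((r ^ j) (t x₀)) : ℂ) * (ζ⁻¹ ^ σ) ^ j) *
            (∑ j ∈ range (2 ^ n), (f ((r ^ j) x₀) : ℂ) * ζ ^ j) = 0

/-- the cyclic subgroup is transitive: all types are nondegenerate -/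
def T_CYC : Prop :=
  ∀ (X : Type) [Fintype X] (H : Subgroup (Equiv.Perm X)) (c : Equiv.Perm X), Cx H c →
    ∀ (r : Equiv.Perm X) (n : ℕ), r ∈ H → 1 ≤ n → orderOf r = 2 ^ n → r ^ 2 ^ (n - 1) = c →
      (∀ x y : X, ∃ k : ℕ, (r ^ k) x = y) → ∀ ε, Typ c ε → ND H c ε

/-- generalized quaternion groups: all types are nondegenerate -/
def T_QUAT : Prop :=
  ∀ (X : Type) [Fintype X] (H : Subgroup (Equiv.Perm X)) (c : Equiv.Perm X), Cx H c →
    ∀ (r t : Equiv.Perm X) (n : ℕ), Two H c r t n → t * t = c → t * r * t⁻¹ = r⁻¹ →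
      ∀ ε, Typ c ε → ND H c ε

/-- dihedral, quaternion and semidihedral groups of order at least 16 -/
def T_DSD : Prop :=
  ∀ (X : Type) [Fintype X] (H : Subgroup (Equiv.Perm X)) (c : Equiv.Perm X), Cx H c →
    Nonempty X → ∀ (r t : Equiv.Perm X) (n : ℕ), Two H c r t n → 3 ≤ n →
      (t * r * t⁻¹ = r⁻¹ ∨ t * r * t⁻¹ = c * r⁻¹) → HalfGood H c

/-! ### Groups which are not 2-groups -/

/-- types from invariant equivalence relations -/
def T_TYPE : Prop :=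
  ∀ (X : Type) [Fintype X] (c : Equiv.Perm X), (∀ x, c (c x) = x) → ∀ S : Setoid X,
    (∀ x y, S x y → S (c x) (c y)) → ∃ τ : X → ℤ, (∀ x, τ x = 1 ∨ τ x = -1) ∧
      (∀ x y, S x y → τ x = τ y) ∧ ∀ x, ¬ S x (c x) → τ (c x) = - τ x

/-- a CM subfield of index at least three -/
def T_SUB : Prop :=
  ∀ (X : Type) [Fintype X] (H : Subgroup (Equiv.Perm X)) (c : Equiv.Perm X), Cx H c →
    ∀ R : Setoid X, (∀ h ∈ H, ∀ x y, R x y → R (h x) (h y)) → (∀ x, ¬ R x (c x)) →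
    (∃ x y z, R x y ∧ R y z ∧ x ≠ y ∧ y ≠ z ∧ x ≠ z) → ∃ ε, Typ c ε ∧ ND H c ε

/-- a group which is not a 2-group -/
def T_NP : Prop :=
  ∀ (X : Type) [Fintype X] (H : Subgroup (Equiv.Perm X)) (c : Equiv.Perm X), Cx H c →
    ¬ IsPGroup 2 H → ∃ ε, Typ c ε ∧ ND H c ε

/-- the dihedral group as a Sylow subgroup -/
def T_SYL8 : Prop :=
  ∀ (X : Type) [Fintype X] (H P : Subgroup (Equiv.Perm X)) (c : Equiv.Perm X), Cx H c →
    Fintype.card X = 8 → P ≤ H → Cx P c → Nat.card P = 8 → Nonempty (P ≃* DihedralGroup 4) →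
    (∃ k, Nat.card H = 8 * k ∧ ¬ 2 ∣ k) → H = P

/-! ### Fields -/

/-- the exceptional fields -/
def ExcField (K : Type) [Field K] [NumberField K] : Prop :=
  IsGalois ℚ K ∧ (IsKleinFour Gal(K/ℚ) ∨ Nonempty (Gal(K/ℚ) ≃* DihedralGroup 4))

/-- all types of the exceptional fields are induced -/
def T_FLDA : Prop :=
  ∀ (K : Type) [Field K] [NumberField K] [IsCMField K], ExcField K →
    ∀ Φ : Finset (K →+* QBar), IsCMType K Φ → ¬ NotInduced Φ

/-- regular groups belong to Galois fields -/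
def T_FLDB : Prop :=
  ∀ (K : Type) [Field K] [NumberField K], Nat.card (HG K) = Module.finrank ℚ K →
    IsGalois ℚ K ∧ Nonempty (HG K ≃* Gal(K/ℚ))

/-- complex conjugation is one of the permutations -/
def T_CONJ : Prop :=
  ∀ (K : Type) [Field K] [NumberField K] [IsCMField K],
    ∃ c ∈ HG K, ∀ φ : K →+* QBar, c φ = CMT.cc φ

end Pool.Agent.ECF
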