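import Mathlib
import Pool.Agent.ECF.Targets

set_option autoImplicit false
set_option linter.unusedSectionVars false

/-!
# Every CM field: elementary lemmas
-/

namespace Pool.Agent.ECF

open Finset MulAction
open scoped BigOperators

namespace BASE_

variable {X : Type} [Fintype X]

theorem exists_red (p : ℕ) (hp : p.Prime) (M : AddSubgroup (X → ℤ))
    (hsat : ∀ f : X → ℤ, (fun x => (p : ℤ) * f x) ∈ M → f ∈ M) :
    ∀ (N : ℕ) (f : X → ℤ), ∑ x, (f x).natAbs = N → f ∈ M → f ≠ 0 →
      ∃ g ∈ M, ∃ x, ¬ (p : ℤ) ∣ g x := by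
  intro N
  induction N using Nat.strong_induction_on with
  | _ N ih =>
    intro f hN hf hf0
    by_cases hd : ∃ x, ¬ (p : ℤ) ∣ f x
    · exact ⟨f, hf, hd⟩
    · push Not at hd
      choose g hg using hd
      have hgM : g ∈ M := by
        apply hsat
        have : (fun x => (p : ℤ) * g x) = f := by
          funext x
          exact (hg x).symm
        rw [this]
        exact hf
      have hg0 : g ≠ 0 := by
        intro h0
        apply hf0
        funext x
        rw [hg x, h0]
        simp
      have hlt : ∑ x, (g x).natAbs < N := by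
        rw [← hN]
        have h1 : ∀ x, (f x).natAbs = p * (g x).natAbs := by
          intro x
          rw [hg x, Int.natAbs_mul, Int.natAbs_natCast]
        apply Finset.sum_lt_sum
        · intro x _
          rw [h1]
          exact Nat.le_mul_of_pos_left _ hp.pos
        · obtain ⟨x, hx⟩ := Function.ne_iff.1 hg0
          refine ⟨x, Finset.mem_univ _, ?_⟩
          rw [h1]
          have h2 : 0 < (g x).natAbs := Int.natAbs_pos.2 hx
          have h3 := hp.two_le
          nlinarith
      exact ih _ hlt g rfl hgM hg0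

/-- reduction modulo `p` -/
def red (p : ℕ) : (X → ℤ) →+ (X → ZMod p) where
  toFun := fun f x => (f x : ZMod p)
  map_zero' := by
    funext x
    simp
  map_add' := by
    intro f g
    funext x
    simp

theorem red_apply (p : ℕ) (f : X → ℤ) (x : X) : red p f x = (f x : ZMod p) := rfl

end BASE_

open BASE_ in
theorem p_FIXV : T_FIXV := by
  intro X _ p hp P hP M hM hsat hne
  classical
  have : Fact p.Prime := ⟨hp⟩
  obtain ⟨f0, hf0⟩ := AddSubgroup.ne_bot_iff_exists_ne_zero.1 hne
  obtain ⟨g0, hg0, x0, hx0⟩ := exists_red p hp M hsat _ (f0 : X → ℤ) rfl f0.2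
    (fun h => hf0 (Subtype.ext h))
  let M' : AddSubgroup (X → ZMod p) := M.map (red p)
  let act : MulAction P M' :=
    { smul := fun k s => ⟨fun x => s.1 ((k⁻¹ : P).1 x), by
        obtain ⟨f, hf, hfs⟩ := s.2
        refine ⟨fun x => f ((k⁻¹ : P).1 x), hM f hf _ (k⁻¹ : P).2, ?_⟩
        funext x
        rw [← hfs]
        rfl⟩
      one_smul := by
        intro s
        apply Subtype.ext
        funext x
        show s.1 (((1 : P)⁻¹ : P).1 x) = s.1 x
        simp
      mul_smul := by
        intro k l s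
        apply Subtype.ext
        funext x
        show s.1 (((k * l)⁻¹ : P).1 x) = s.1 ((l⁻¹ : P).1 ((k⁻¹ : P).1 x))
        simp [mul_inv_rev] }
  have hcard : p ∣ Nat.card M' := by
    let s1 : M' := ⟨red p g0, ⟨g0, hg0, rfl⟩⟩
    have h1 : addOrderOf s1 = p := by
      apply addOrderOf_eq_prime
      · apply Subtype.ext
        funext x
        show (p • s1 : M').1 x = 0
        rw [AddSubgroup.coe_nsmul]
        simp
      · intro h2
        apply hx0
        have h3 := congrFun (congrArg Subtype.val h2) x0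
        have h4 : ((g0 x0 : ℤ) : ZMod p) = 0 := h3
        exact (ZMod.intCast_zmod_eq_zero_iff_dvd _ _).1 h4
    have h3 : addOrderOf s1 ∣ Nat.card M' := addOrderOf_dvd_natCard s1
    rwa [h1] at h3
  have hzero : (0 : M') ∈ fixedPoints P M' := by
    intro k
    apply Subtype.ext
    funext x
    rfl
  obtain ⟨b, hb, hb0⟩ := hP.exists_fixed_point_of_prime_dvd_card_of_fixed_point M' hcard hzero
  obtain ⟨f, hf, hfb⟩ := b.2
  refine ⟨f, hf, ?_, ?_⟩
  · by_contra h
    push Not at h
    apply hb0
    apply Subtype.ext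
    rw [← hfb]
    funext x
    exact ((ZMod.intCast_zmod_eq_zero_iff_dvd _ _).2 (h x)).symm
  · intro k hk x
    have h1 := congrArg (fun t : M' => t.1 (k x)) (hb ⟨k, hk⟩)
    have h2 : b.1 (((⟨k, hk⟩ : P)⁻¹ : P).1 (k x)) = b.1 (k x) := h1
    have h3 : ((⟨k, hk⟩ : P)⁻¹ : P).1 (k x) = x := by
      show (k⁻¹ : Equiv.Perm X) (k x) = x
      simp
    rw [h3, ← hfb] at h2
    have h4 : ((f x : ℤ) : ZMod p) = ((f (k x) : ℤ) : ZMod p) := h2
    have h5 := (ZMod.intCast_eq_intCast_iff_dvd_sub _ _ _).1 h4
    exact h5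

theorem p_SUM2 : T_SUM2 := by
  intro X _ c hc1 hc2 B g hB hg
  classical
  -- the half of `B` given by an order
  let e := Fintype.equivFin X
  have h1 : ∑ x ∈ B, g x = ∑ x ∈ B.filter (fun x => e x < e (c x)), g x +
      ∑ x ∈ B.filter (fun x => ¬ e x < e (c x)), g x :=
    (Finset.sum_filter_add_sum_filter_not _ _ _).symm
  have h2 : ∑ x ∈ B.filter (fun x => ¬ e x < e (c x)), g x =
      ∑ x ∈ B.filter (fun x => e x < e (c x)), g x := by
    refine Finset.sum_nbij' c c ?_ ?_ ?_ ?_ ?_
    · intro x hx
      rw [Finset.mem_filter] at hx ⊢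
      refine ⟨hB x hx.1, ?_⟩
      rw [hc1]
      refine lt_of_le_of_ne (not_lt.1 hx.2) ?_
      intro h
      exact hc2 x (e.injective h)
    · intro x hx
      rw [Finset.mem_filter] at hx ⊢
      refine ⟨hB x hx.1, ?_⟩
      rw [hc1]
      exact not_lt.2 hx.2.le
    · intro x _
      exact hc1 x
    · intro x _
      exact hc1 x
    · intro x hx
      rw [Finset.mem_filter] at hx
      exact (hg x hx.1).symm
  rw [h1, h2]
  exact ⟨_, (two_mul _).symm⟩

/-- the set of one half of `B` -/
theorem p_SUM4 : T_SUM4 := by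
  intro X _ c e hc1 hc2 he1 hec hfree B g hB hg
  classical
  -- the quotient by `c`: representatives given by an order; `e` acts on them
  let ν := Fintype.equivFin X
  -- representative of the pair `x, c x`
  let rp : X → X := fun x => if ν x < ν (c x) then x else c x
  have hrp : ∀ x, rp (c x) = rp x := by
    intro x
    show (if ν (c x) < ν (c (c x)) then c x else c (c x)) = if ν x < ν (c x) then x else c x
    rw [hc1]
    have hne : ν x ≠ ν (c x) := fun h => hc2 x (ν.injective h).symm
    by_cases h : ν x < ν (c x)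
    · rw [if_pos h, if_neg (not_lt.2 h.le)]
    · rw [if_neg h, if_pos (lt_of_le_of_ne (not_lt.1 h) hne.symm)]
  have hrp1 : ∀ x, rp x = x ∨ rp x = c x := by
    intro x
    by_cases h : ν x < ν (c x)
    · left
      exact if_pos h
    · right
      exact if_neg h
  have hrp2 : ∀ x, rp (rp x) = rp x := by
    intro x
    rcases hrp1 x with h | h
    · rw [h, h]
    · rw [h, hrp, h]
  -- the set of the representatives in `B`
  let R : Finset X := B.filter (fun x => rp x = x)
  have hRB : ∑ x ∈ B, g x = 2 * ∑ x ∈ R, g x := by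
    have h1 : ∑ x ∈ B, g x = ∑ x ∈ R, g x + ∑ x ∈ B.filter (fun x => ¬ rp x = x), g x :=
      (Finset.sum_filter_add_sum_filter_not _ _ _).symm
    have h2 : ∑ x ∈ B.filter (fun x => ¬ rp x = x), g x = ∑ x ∈ R, g x := by
      refine Finset.sum_nbij' c c ?_ ?_ ?_ ?_ ?_
      · intro x hx
        rw [Finset.mem_filter] at hx
        rw [Finset.mem_filter]
        refine ⟨(hB x hx.1).1, ?_⟩
        rw [hrp]
        exact (hrp1 x).resolve_left hx.2
      · intro x hx
        rw [Finset.mem_filter] at hx
        rw [Finset.mem_filter]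
        refine ⟨(hB x hx.1).1, ?_⟩
        rw [hrp, hx.2]
        exact fun h => hc2 x h.symm
      · intro x _
        exact hc1 x
      · intro x _
        exact hc1 x
      · intro x hx
        rw [Finset.mem_filter] at hx
        exact ((hg x hx.1).1).symm
    rw [h1, h2, two_mul]
  -- the involution `rp ∘ e` on `R`
  let d : X → X := fun x => rp (e x)
  have hd1 : ∀ x, rp x = x → d (d x) = x := by
    intro x hx
    show rp (e (rp (e x))) = x
    rcases hrp1 (e x) with h | h
    · rw [h, he1, hx]
    · rw [h, hec, he1, hrp, hx]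
  have hd2 : ∀ x ∈ R, d x ∈ R := by
    intro x hx
    rw [Finset.mem_filter] at hx ⊢
    refine ⟨?_, hrp2 _⟩
    show rp (e x) ∈ B
    rcases hrp1 (e x) with h | h
    · rw [h]
      exact (hB x hx.1).2
    · rw [h]
      exact (hB _ (hB x hx.1).2).1
  have hd3 : ∀ x, d x ≠ x := by
    intro x h
    rcases hrp1 (e x) with h1 | h1
    · exact (hfree x).1 (h1.symm.trans h)
    · have h2 : c (e x) = x := h1.symm.trans h
      apply (hfree x).2
      rw [← hc1 (e x), h2]
  have hd4 : ∀ x ∈ R, g (d x) = g x := by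
    intro x hx
    rw [Finset.mem_filter] at hx
    show g (rp (e x)) = g x
    rcases hrp1 (e x) with h | h
    · rw [h]
      exact (hg x hx.1).2
    · rw [h, (hg _ (hB x hx.1).2).1]
      exact (hg x hx.1).2
  have h3 : ∑ x ∈ R, g x = ∑ x ∈ R.filter (fun x => ν x < ν (d x)), g x +
      ∑ x ∈ R.filter (fun x => ¬ ν x < ν (d x)), g x :=
    (Finset.sum_filter_add_sum_filter_not _ _ _).symm
  have h4 : ∑ x ∈ R.filter (fun x => ¬ ν x < ν (d x)), g x =
      ∑ x ∈ R.filter (fun x => ν x < ν (d x)), g x := by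
    refine Finset.sum_nbij' d d ?_ ?_ ?_ ?_ ?_
    · intro x hx
      rw [Finset.mem_filter] at hx ⊢
      refine ⟨hd2 x hx.1, ?_⟩
      rw [hd1 x (Finset.mem_filter.1 hx.1).2]
      refine lt_of_le_of_ne (not_lt.1 hx.2) ?_
      intro h
      exact hd3 x (ν.injective h)
    · intro x hx
      rw [Finset.mem_filter] at hx ⊢
      refine ⟨hd2 x hx.1, ?_⟩
      rw [hd1 x (Finset.mem_filter.1 hx.1).2]
      exact not_lt.2 hx.2.le
    · intro x hx
      exact hd1 x (Finset.mem_filter.1 (Finset.mem_filter.1 hx).1).2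
    · intro x hx
      exact hd1 x (Finset.mem_filter.1 (Finset.mem_filter.1 hx).1).2
    · intro x hx
      exact (hd4 x (Finset.mem_filter.1 hx).1).symm
  rw [hRB, h3, h4]
  exact ⟨∑ x ∈ R.filter (fun x => ν x < ν (d x)), g x, by ring⟩

theorem p_CARDB : T_CARDB := by
  intro X _ _ c e hc1 hc2 he1 hec hfree ε hε x₀
  have hstab : ∀ ε : X → ℤ, Typ c ε → 4 ∣ (univ.filter fun x => ε (e x) = ε x).card := by
    intro ε hε
    have h1 := p_SUM4 X c e hc1 hc2 he1 hec hfree (univ.filter fun x => ε (e x) = ε x)
      (fun _ => 1) (by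
        intro x hx
        rw [Finset.mem_filter] at hx
        rw [Finset.mem_filter, Finset.mem_filter]
        refine ⟨⟨Finset.mem_univ _, ?_⟩, Finset.mem_univ _, ?_⟩
        · rw [hec, hε.2, hε.2, hx.2]
        · rw [he1, hx.2]) (fun _ _ => ⟨rfl, rfl⟩)
    rw [Finset.sum_const, nsmul_eq_mul, mul_one] at h1
    exact_mod_cast h1
  have hflip : ∀ x, flip c x₀ ε x = if x = x₀ ∨ x = c x₀ then - ε x else ε x := fun x => rfl
  have hε' : Typ c (flip c x₀ ε) := by
    constructor
    · intro x
      rw [hflip]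
      split_ifs with h
      · rcases hε.1 x with h1 | h1
        · right; rw [h1]
        · left; rw [h1]; norm_num
      · exact hε.1 x
    · intro x
      rw [hflip, hflip]
      have h2 : (c x = x₀ ∨ c x = c x₀) ↔ (x = x₀ ∨ x = c x₀) := by
        constructor
        · rintro (h | h)
          · right; rw [← h, hc1]
          · left; exact c.injective h
        · rintro (h | h)
          · right; rw [h]
          · left; rw [h, hc1]
      simp only [h2]
      split_ifs with h
      · rw [hε.2]
      · rw [hε.2]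
  have h1 := hstab ε hε
  have h2 := hstab _ hε'
  -- the two sets differ exactly in the four points of the orbit
  let O : Finset X := {x₀, c x₀, e x₀, e (c x₀)}
  have hO : O.card = 4 := by
    have h01 : x₀ ≠ c x₀ := (hc2 x₀).symm
    have h02 : x₀ ≠ e x₀ := (hfree x₀).1.symm
    have h03 : x₀ ≠ e (c x₀) := by
      intro h
      apply (hfree x₀).2
      rw [← he1 (c x₀), ← h]
    have h12 : c x₀ ≠ e x₀ := (hfree x₀).2.symm
    have h13 : c x₀ ≠ e (c x₀) := (hfree (c x₀)).1.symm
    have h23 : e x₀ ≠ e (c x₀) := fun h => h01 (e.injective h)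
    show ({x₀, c x₀, e x₀, e (c x₀)} : Finset X).card = 4
    rw [Finset.card_insert_of_notMem, Finset.card_insert_of_notMem,
      Finset.card_insert_of_notMem, Finset.card_singleton]
    · simpa using h23
    · simpa using ⟨h12, h13⟩
    · simpa using ⟨h01, h02, h03⟩
  have hmemO : ∀ x, x ∈ O ↔ (x = x₀ ∨ x = c x₀ ∨ x = e x₀ ∨ x = e (c x₀)) := by
    intro x
    show x ∈ ({x₀, c x₀, e x₀, e (c x₀)} : Finset X) ↔ _
    simp
  have hs1 : ∀ x, ε x = 1 ∨ ε x = -1 := hε.1
  -- membership outside of `O`
  have hout : ∀ x, x ∉ O → (flip c x₀ ε (e x) = flip c x₀ ε x ↔ ε (e x) = ε x) := by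
    intro x hx
    rw [hmemO] at hx
    push Not at hx
    obtain ⟨ha, hb, hc, hd⟩ := hx
    rw [hflip, hflip, if_neg, if_neg]
    · rintro (h | h)
      · exact ha h
      · exact hb h
    · rintro (h | h)
      · exact hc (by rw [← h, he1])
      · exact hd (by rw [← h, he1])
  have hin : ∀ x, x ∈ O → (flip c x₀ ε (e x) = flip c x₀ ε x ↔ ¬ ε (e x) = ε x) := by
    intro x hx
    rw [hmemO] at hx
    have key : ∀ a b : ℤ, (a = 1 ∨ a = -1) → (b = 1 ∨ b = -1) → ((-a = b) ↔ ¬ a = b) := by
      intro a b ha hb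
      rcases ha with rfl | rfl <;> rcases hb with rfl | rfl <;> decide
    have key2 : ∀ a b : ℤ, (a = 1 ∨ a = -1) → (b = 1 ∨ b = -1) → ((a = -b) ↔ ¬ a = b) := by
      intro a b ha hb
      rcases ha with rfl | rfl <;> rcases hb with rfl | rfl <;> decide
    have hE : ∀ y, (y = x₀ ∨ y = c x₀) → ¬ (e y = x₀ ∨ e y = c x₀) := by
      intro y hy hy2
      rcases hy with rfl | rfl
      · rcases hy2 with h | h
        · exact (hfree y).1 h
        · exact (hfree y).2 h
      · rcases hy2 with h | h
        · apply (hfree x₀).2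
          rw [← he1 (c x₀), h]
        · exact (hfree (c x₀)).1 h
    rw [hflip, hflip]
    rcases hx with h | h | h | h
    · rw [if_neg (hE x (Or.inl h)), if_pos (Or.inl h)]
      exact key2 _ _ (hs1 _) (hs1 _)
    · rw [if_neg (hE x (Or.inr h)), if_pos (Or.inr h)]
      exact key2 _ _ (hs1 _) (hs1 _)
    · have hx2 : e x = x₀ := by rw [h, he1]
      have hx3 : ¬ (x = x₀ ∨ x = c x₀) := by
        rw [h]
        exact hE x₀ (Or.inl rfl)
      rw [if_pos (Or.inl hx2), if_neg hx3]
      exact key _ _ (hs1 _) (hs1 _)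
    · have hx2 : e x = c x₀ := by rw [h, he1]
      have hx3 : ¬ (x = x₀ ∨ x = c x₀) := by
        rw [h]
        exact hE (c x₀) (Or.inr rfl)
      rw [if_pos (Or.inr hx2), if_neg hx3]
      exact key _ _ (hs1 _) (hs1 _)
  -- all members of `O` have the same status
  have hsame : ∀ x ∈ O, (ε (e x) = ε x ↔ ε (e x₀) = ε x₀) := by
    intro x hx
    rw [hmemO] at hx
    rcases hx with h | h | h | h
    · rw [h]
    · rw [h, hec, hε.2, hε.2, neg_inj]
    · rw [h, he1]
      exact ⟨fun h => h.symm, fun h => h.symm⟩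
    · rw [h, he1, hec, hε.2, hε.2, neg_inj]
      exact ⟨fun h => h.symm, fun h => h.symm⟩
  by_cases h0 : ε (e x₀) = ε x₀
  · -- `O` is removed
    have h3 : (univ.filter fun x => ε (e x) = ε x) =
        (univ.filter fun x => flip c x₀ ε (e x) = flip c x₀ ε x) ∪ O := by
      ext x
      rw [Finset.mem_union, Finset.mem_filter, Finset.mem_filter]
      by_cases hx : x ∈ O
      · have := (hsame x hx).2 h0
        simp [hx, this]
      · have := hout x hx
        simp [hx, this]
    have h4 : Disjoint (univ.filter fun x => flip c x₀ ε (e x) = flip c x₀ ε x) O := by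
      rw [Finset.disjoint_left]
      intro x hx hxO
      rw [Finset.mem_filter] at hx
      exact ((hin x hxO).1 hx.2) ((hsame x hxO).2 h0)
    rw [h3, Finset.card_union_of_disjoint h4, hO] at h1 ⊢
    omega
  · have h3 : (univ.filter fun x => flip c x₀ ε (e x) = flip c x₀ ε x) =
        (univ.filter fun x => ε (e x) = ε x) ∪ O := by
      ext x
      rw [Finset.mem_union, Finset.mem_filter, Finset.mem_filter]
      by_cases hx : x ∈ O
      · have h5 := (hin x hx).2 (fun h => h0 ((hsame x hx).1 h))
        simp [hx, h5]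
      · have := hout x hx
        simp [hx, this]
    have h4 : Disjoint (univ.filter fun x => ε (e x) = ε x) O := by
      rw [Finset.disjoint_left]
      intro x hx hxO
      rw [Finset.mem_filter] at hx
      exact h0 ((hsame x hxO).1 hx.2)
    rw [h3, Finset.card_union_of_disjoint h4, hO] at h2 ⊢
    omega

end Pool.Agent.ECF
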