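import Mathlib

set_option autoImplicit false

/-!
# Every CM field: central elements of order two modulo a cyclic normal subgroup
-/

namespace Pool.Agent.ECF.Sq_

/-- a nontrivial normal subgroup of a finite 2-group contains a central involution -/
theorem exists_central {Q : Type*} [Group Q] [Finite Q] (hQ : IsPGroup 2 Q) (N : Subgroup Q)
    [N.Normal] (hN : ∃ y ∈ N, y ≠ 1) :
    ∃ y ∈ N, y ≠ 1 ∧ y * y = 1 ∧ ∀ h : Q, h * y = y * h := by
  have hf : Fact (Nat.Prime 2) := ⟨Nat.prime_two⟩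
  obtain ⟨y₀, hy₀, hy1⟩ := hN
  have hnt : Nontrivial N := ⟨⟨⟨y₀, hy₀⟩, 1, fun h => hy1 (by simpa using congrArg Subtype.val h)⟩⟩
  have hcard : 2 ∣ Nat.card N := by
    obtain ⟨n, hn0, hn⟩ := (hQ.to_subgroup N).nontrivial_iff_card.mp hnt
    rw [hn]
    exact dvd_pow_self _ (ne_of_gt hn0)
  have h1 : (1 : N) ∈ MulAction.fixedPoints (ConjAct Q) N := by
    intro g
    exact smul_one g
  obtain ⟨b, hb, hb1⟩ := (hQ.of_equiv
    ConjAct.toConjAct).exists_fixed_point_of_prime_dvd_card_of_fixed_point N hcard h1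
  have hcen : ∀ h : Q, h * (b : Q) = (b : Q) * h := by
    intro h
    have h2 := hb (ConjAct.toConjAct h)
    have h3 := congrArg Subtype.val h2
    rw [ConjAct.Subgroup.val_conj_smul, ConjAct.toConjAct_smul] at h3
    rw [mul_inv_eq_iff_eq_mul] at h3
    exact h3
  have hbne : (b : Q) ≠ 1 := fun h => hb1 (by ext; simpa using h.symm)
  obtain ⟨k, hk⟩ := (IsPGroup.iff_orderOf.mp hQ) (b : Q)
  have hk0 : k ≠ 0 := by
    rintro rfl
    rw [pow_zero, orderOf_eq_one_iff] at hk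
    exact hbne hk
  obtain ⟨l, rfl⟩ := Nat.exists_eq_succ_of_ne_zero hk0
  refine ⟨(b : Q) ^ 2 ^ l, N.pow_mem b.2 _, ?_, ?_, ?_⟩
  · intro h
    have h4 := orderOf_dvd_of_pow_eq_one h
    rw [hk] at h4
    have h5 := Nat.le_of_dvd (by positivity) h4
    rw [Nat.succ_eq_add_one, pow_succ] at h5
    have h6 : 0 < 2 ^ l := by positivity
    omega
  · rw [← pow_add, ← two_mul, ← pow_succ', ← Nat.succ_eq_add_one, ← hk, pow_orderOf_eq_one]
  · intro h
    exact (Commute.pow_right (hcen h) _)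

/-- normal subgroups of a finite 2-group which strictly contain a normal subgroup `A` -/
theorem exists_quot {G : Type*} [Group G] [Finite G] (hG : IsPGroup 2 G) (A C : Subgroup G)
    [A.Normal] [C.Normal] (hex : ∃ y ∈ C, y ∉ A) :
    ∃ x ∈ C, x ∉ A ∧ x * x ∈ A ∧ ∀ h : G, h * x * h⁻¹ * x⁻¹ ∈ A := by
  obtain ⟨y, hyC, hyA⟩ := hex
  have hN : (C.map (QuotientGroup.mk' A)).Normal :=
    Subgroup.Normal.map inferInstance _ (QuotientGroup.mk'_surjective A)
  obtain ⟨z, hz, hz1, hzz, hzc⟩ := exists_central (hG.to_quotient A)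
    (C.map (QuotientGroup.mk' A)) ⟨QuotientGroup.mk' A y, Subgroup.mem_map_of_mem _ hyC,
      fun h => hyA ((QuotientGroup.eq_one_iff y).mp h)⟩
  obtain ⟨x, hx, rfl⟩ := hz
  refine ⟨x, hx, fun h => hz1 ((QuotientGroup.eq_one_iff x).mpr h), ?_, ?_⟩
  · rw [← QuotientGroup.eq_one_iff]
    exact hzz
  · intro h
    rw [← QuotientGroup.eq_one_iff]
    have h2 := hzc (QuotientGroup.mk' A h)
    simp only [QuotientGroup.mk'_apply, QuotientGroup.mk_mul, QuotientGroup.mk_inv] at h2 ⊢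
    rw [h2]
    group

/-- elements of the cyclic group of powers, with natural exponents -/
theorem mem_zpowers_iff_nat {G : Type*} [Group G] [Finite G] (r x : G) :
    x ∈ Subgroup.zpowers r ↔ ∃ k : ℕ, x = r ^ k := by
  rw [← mem_powers_iff_mem_zpowers, Submonoid.mem_powers_iff]
  exact ⟨fun ⟨k, hk⟩ => ⟨k, hk.symm⟩, fun ⟨k, hk⟩ => ⟨k, hk.symm⟩⟩

/-- the common lemma of T_CLSA and T_CLSB -/
theorem exists_sq {G : Type*} [Group G] [Finite G] (H : Subgroup G) (h2 : IsPGroup 2 H) (r : G)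
    (hr : r ∈ H) (hn : ∀ h ∈ H, ∃ k : ℕ, h * r * h⁻¹ = r ^ k) (j : ℕ)
    (hex : ∃ y ∈ H, y * r ^ j = r ^ j * y ∧ ∀ k : ℕ, y ≠ r ^ k) :
    ∃ x ∈ H, x * r ^ j = r ^ j * x ∧ (∀ k : ℕ, x ≠ r ^ k) ∧ (∃ i : ℕ, x * x = r ^ i) ∧
      ∀ h ∈ H, ∃ k : ℕ, h * x * h⁻¹ = r ^ k * x := by
  let r' : H := ⟨r, hr⟩
  let A : Subgroup H := Subgroup.zpowers r'
  let C : Subgroup H := Subgroup.centralizer {r' ^ j}
  have hA : ∀ x : H, x ∈ A ↔ ∃ k : ℕ, (x : G) = r ^ k := by
    intro x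
    rw [mem_zpowers_iff_nat]
    constructor
    · rintro ⟨k, rfl⟩
      exact ⟨k, rfl⟩
    · rintro ⟨k, hk⟩
      exact ⟨k, Subtype.ext hk⟩
  have hC : ∀ x : H, x ∈ C ↔ (x : G) * r ^ j = r ^ j * (x : G) := by
    intro x
    rw [Subgroup.mem_centralizer_singleton_iff]
    constructor
    · intro h
      exact congrArg Subtype.val h
    · intro h
      exact Subtype.ext h
  have hAn : A.Normal := by
    constructor
    intro x hx h
    obtain ⟨k, hk⟩ := (hA x).mp hx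
    obtain ⟨m, hm⟩ := hn h h.2
    rw [hA]
    refine ⟨m * k, ?_⟩
    push_cast
    rw [hk, pow_mul, ← hm, conj_pow]
  have hCn : C.Normal := by
    constructor
    intro x hx h
    obtain ⟨m, hm⟩ := hn (h⁻¹ : H) (h⁻¹ : H).2
    have hx' := (hC x).mp hx
    rw [hC]
    have h3 : (h : G)⁻¹ * r ^ j * (h : G) = (r ^ j) ^ m := by
      rw [← pow_mul, mul_comm, pow_mul, ← hm]
      push_cast
      rw [inv_inv]
      have := conj_pow (i := j) (a := (h : G)⁻¹) (b := r)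
      rw [inv_inv] at this
      exact this.symm
    have h4 : (x : G) * (r ^ j) ^ m = (r ^ j) ^ m * (x : G) :=
      (Commute.pow_right (show Commute (x : G) (r ^ j) from hx') m)
    have h5 : r ^ j = (h : G) * (r ^ j) ^ m * (h : G)⁻¹ := by
      rw [← h3]
      group
    push_cast
    calc (h : G) * x * (h : G)⁻¹ * r ^ j = (h : G) * (x * ((h : G)⁻¹ * r ^ j * h)) * (h : G)⁻¹ := by
          group
      _ = (h : G) * ((r ^ j) ^ m * x) * (h : G)⁻¹ := by rw [h3, h4]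
      _ = ((h : G) * (r ^ j) ^ m * (h : G)⁻¹) * ((h : G) * x * (h : G)⁻¹) := by group
      _ = r ^ j * ((h : G) * x * (h : G)⁻¹) := by rw [← h5]
  obtain ⟨y, hyH, hyc, hyk⟩ := hex
  obtain ⟨x, hxC, hxA, hxx, hxh⟩ := exists_quot h2 A C ⟨⟨y, hyH⟩, (hC _).mpr hyc, fun h => by
    obtain ⟨k, hk⟩ := (hA _).mp h
    exact hyk k hk⟩
  refine ⟨x, x.2, (hC x).mp hxC, fun k hk => hxA ((hA x).mpr ⟨k, hk⟩), ?_, ?_⟩
  · obtain ⟨i, hi⟩ := (hA _).mp hxx
    exact ⟨i, hi⟩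
  · intro h hh
    obtain ⟨k, hk⟩ := (hA _).mp (hxh ⟨h, hh⟩)
    refine ⟨k, ?_⟩
    rw [← hk]
    push_cast
    group

end Pool.Agent.ECF.Sq_
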