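import Pool.Agent.ECF.Targets
import Pool.Agent.ECF.Sq

set_option autoImplicit false

/-!
# Every CM field: T_CLSA
-/

namespace Pool.Agent.ECF

namespace CLSA_

/-- the property of which a maximal exponent is taken -/
def Q {X : Type} (H : Subgroup (Equiv.Perm X)) (c : Equiv.Perm X) (n : ℕ) : Prop :=
  ∃ r : Equiv.Perm X, r ∈ H ∧ 1 ≤ n ∧ orderOf r = 2 ^ n ∧ r ^ 2 ^ (n - 1) = c ∧
    ∀ h ∈ H, ∃ k : ℕ, h * r * h⁻¹ = r ^ k

theorem cc {X : Type} [Fintype X] {H : Subgroup (Equiv.Perm X)} {c : Equiv.Perm X}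
    (hx : Cx H c) : c * c = 1 := by
  ext x
  simp [Equiv.Perm.mul_apply, hx.sq x]

theorem c_ne {X : Type} [Fintype X] {H : Subgroup (Equiv.Perm X)} {c : Equiv.Perm X}
    (hx : Cx H c) (hne : Nonempty X) : c ≠ 1 := by
  rintro rfl
  obtain ⟨x⟩ := hne
  exact hx.ne x rfl

theorem hc {X : Type} [Fintype X] {H : Subgroup (Equiv.Perm X)} {c : Equiv.Perm X}
    (hx : Cx H c) (h : Equiv.Perm X) (hh : h ∈ H) : h * c = c * h := by
  ext x
  simp [Equiv.Perm.mul_apply, hx.comm h hh x]

end CLSA_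

open CLSA_ in
theorem p_CLSA : T_CLSA := by
  classical
  intro X _ H c hx hne h2 hkl
  have hcc := cc hx
  have hc1 := c_ne hx hne
  have hcom := hc hx
  -- existence of a maximal exponent
  have hQ1 : Q H c 1 := by
    refine ⟨c, hx.mem, le_rfl, ?_, by simp, ?_⟩
    · rw [pow_one]
      exact orderOf_eq_prime (by rw [pow_two, hcc]) hc1
    · intro h hh
      refine ⟨1, ?_⟩
      rw [hcom h hh, pow_one]
      group
  have hbd : ∀ n, Q H c n → n ≤ Nat.card (Equiv.Perm X) := by
    rintro n ⟨r, -, -, hr, -, -⟩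
    have h1 : orderOf r ≤ Nat.card (Equiv.Perm X) := orderOf_le_card
    rw [hr] at h1
    exact (Nat.lt_two_pow_self).le.trans h1
  obtain ⟨n, hn, hmax⟩ : ∃ n, Q H c n ∧ ∀ m, Q H c m → m ≤ n := by
    refine ⟨Nat.findGreatest (Q H c) (Nat.card (Equiv.Perm X)), ?_, ?_⟩
    · exact Nat.findGreatest_spec (hbd 1 hQ1) hQ1
    · intro m hm
      exact Nat.le_findGreatest (hbd m hm) hm
  obtain ⟨r, hr, hn1, hord, hpow, hnor⟩ := hn
  refine ⟨r, n, hr, hn1, hord, hpow, hnor, ?_⟩
  intro y hy hyr
  by_contra hyk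
  push Not at hyk
  obtain ⟨x, hxH, hxr, hxk, ⟨i, hi⟩, hxh⟩ := Sq_.exists_sq H h2 r hr hnor 1
    ⟨y, hy, by rw [pow_one]; exact hyr, hyk⟩
  rw [pow_one] at hxr
  have hr1 : r ^ 2 ^ n = 1 := by rw [← hord, pow_orderOf_eq_one]
  have hx2 : x ^ 2 = r ^ i := by rw [pow_two, hi]
  rcases Nat.even_or_odd' i with ⟨j, hj | hj⟩
  · -- the even case: a Klein four group
    subst hj
    -- `e = x * r ^ (-j)`
    have hcomm : Commute x r := hxr
    obtain ⟨e, he⟩ : ∃ e : Equiv.Perm X, e = x * (r ^ j)⁻¹ := ⟨_, rfl⟩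
    have hxe : x = e * r ^ j := by rw [he]; group
    have her : Commute e r := by
      rw [he]
      exact (Commute.mul_left hcomm ((Commute.refl r).pow_left j).inv_left)
    have heH : e ∈ H := by
      rw [he]
      exact H.mul_mem hxH (H.inv_mem (H.pow_mem hr _))
    have hee : e * e = 1 := by
      have h3 : x * x = (e * e) * (r ^ j * r ^ j) := by
        rw [hxe]
        have := (her.pow_right j).eq
        calc e * r ^ j * (e * r ^ j) = e * (r ^ j * e) * r ^ j := by group
          _ = e * (e * r ^ j) * r ^ j := by rw [this]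
          _ = (e * e) * (r ^ j * r ^ j) := by group
      rw [hi, two_mul, pow_add] at h3
      exact (mul_eq_right.mp h3.symm)
    have hek : ∀ k : ℕ, e ≠ r ^ k := by
      intro k hk
      apply hxk (k + j)
      rw [hxe, hk, pow_add]
    apply hkl e
    refine ⟨heH, ?_, ?_, ?_, ?_⟩
    · intro z
      have := congrArg (fun f : Equiv.Perm X => f z) hee
      simpa [Equiv.Perm.mul_apply] using this
    · intro h
      exact hek 0 (by rw [h, pow_zero])
    · intro h
      exact hek (2 ^ (n - 1)) (by rw [h, hpow])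
    · intro h hh
      obtain ⟨k, hk⟩ := hxh h hh
      obtain ⟨m, hm⟩ := hnor h hh
      -- `h e h⁻¹ = r ^ l * e` for an integer exponent
      obtain ⟨l, hl⟩ : ∃ l : ℤ, h * e * h⁻¹ = r ^ l * e := by
        refine ⟨(k : ℤ) - m * j + j, ?_⟩
        have h4 : h * (r ^ j)⁻¹ * h⁻¹ = ((r ^ m) ^ j)⁻¹ := by
          rw [← hm, conj_pow]
          group
        have h5 : h * e * h⁻¹ = (h * x * h⁻¹) * (h * (r ^ j)⁻¹ * h⁻¹) := by
          rw [he]
          group
        rw [h5, h4, hk, hxe]
        have h6 : e * r ^ j * ((r ^ m) ^ j)⁻¹ = r ^ j * ((r ^ m) ^ j)⁻¹ * e := by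
          have := (her.pow_right j).eq
          have h7 := (((her.pow_right m).pow_right j).inv_right).eq
          rw [this, mul_assoc, h7, ← mul_assoc]
        rw [mul_assoc, h6, ← pow_mul, ← mul_assoc]
        congr 1
        rw [← zpow_natCast, ← zpow_natCast, ← zpow_natCast, ← zpow_neg, ← zpow_add, ← zpow_add]
        congr 1
        push_cast
        ring
      have h8 : (r ^ l * e) * (r ^ l * e) = 1 := by
        rw [← hl]
        calc h * e * h⁻¹ * (h * e * h⁻¹) = h * (e * e) * h⁻¹ := by group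
          _ = 1 := by rw [hee]; group
      have h9 : r ^ (2 * l) = 1 := by
        have h10 := (her.zpow_right l).eq
        calc r ^ (2 * l) = r ^ l * r ^ l * (e * e) := by rw [hee, mul_one, ← zpow_add, two_mul]
          _ = r ^ l * (r ^ l * e) * e := by group
          _ = r ^ l * (e * r ^ l) * e := by rw [h10]
          _ = (r ^ l * e) * (r ^ l * e) := by group
          _ = 1 := h8
      have h11 : ((2 : ℤ) ^ n) ∣ 2 * l := by
        have := orderOf_dvd_iff_zpow_eq_one.mpr h9
        rw [hord] at this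
        exact_mod_cast this
      have h12 : ((2 : ℤ) ^ (n - 1)) ∣ l := by
        obtain ⟨p, rfl⟩ : ∃ p, n = p + 1 := ⟨n - 1, by omega⟩
        rw [pow_succ'] at h11
        exact (mul_dvd_mul_iff_left (by norm_num)).mp h11
      obtain ⟨q, rfl⟩ := h12
      have h13 : r ^ ((2 : ℤ) ^ (n - 1) * q) = c ^ q := by
        rw [zpow_mul, ← hpow]
        norm_cast
      rw [h13] at hl
      have hc2 : c ^ (2 : ℤ) = 1 := by
        rw [zpow_two]
        exact hcc
      rcases Int.even_or_odd' q with ⟨s, hs | hs⟩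
      · left
        rw [hl, hs, zpow_mul, hc2, one_zpow, one_mul]
      · right
        rw [hl, hs, zpow_add, zpow_mul, hc2, one_zpow, one_mul, zpow_one, hcom e heH]
  · -- the odd case: a larger cyclic normal subgroup
    have hrx : ∃ s : ℕ, r = x ^ s := by
      -- `i` is prime to the order of `r`
      have hcop : Nat.Coprime i (2 ^ n) := by
        apply Nat.Coprime.pow_right
        rw [Nat.coprime_two_right, hj]
        exact ⟨j, rfl⟩
      obtain ⟨s, -, hs⟩ := Nat.exists_mul_mod_eq_one_of_coprime hcop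
        (Nat.one_lt_two_pow (by omega))
      refine ⟨2 * s, ?_⟩
      rw [pow_mul, hx2, ← pow_mul]
      have : r ^ (i * s) = r ^ ((i * s) % 2 ^ n) := by
        rw [← hord, pow_mod_orderOf]
      rw [this, hs, pow_one]
    obtain ⟨s, hs⟩ := hrx
    have hxp : x ^ 2 ^ n = c := by
      obtain ⟨p, rfl⟩ : ∃ p, n = p + 1 := ⟨n - 1, by omega⟩
      rw [pow_succ', pow_mul, hx2, ← pow_mul, mul_comm, pow_mul]
      simp only [Nat.add_sub_cancel] at hpow
      rw [hpow, hj, pow_add, pow_mul, pow_two, hcc, one_pow, one_mul, pow_one]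
    have hxo : orderOf x = 2 ^ (n + 1) := by
      apply orderOf_eq_prime_pow
      · rw [hxp]
        exact hc1
      · rw [pow_succ, pow_mul, hxp, pow_two, hcc]
    have hQ : Q H c (n + 1) := by
      refine ⟨x, hxH, by omega, hxo, ?_, ?_⟩
      · rw [Nat.add_sub_cancel]
        exact hxp
      · intro h hh
        obtain ⟨k, hk⟩ := hxh h hh
        refine ⟨s * k + 1, ?_⟩
        rw [hk, pow_succ, pow_mul, ← hs]
    have := hmax _ hQ
    omega

end Pool.Agent.ECF
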