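import Mathlib
import Pool.Agent.ECF.Targets

set_option autoImplicit false

/-!
# Two-groups without a normal Klein four group containing the central involution
-/

namespace Pool.Agent.ECF

namespace CLSB_

theorem exists_central {G : Type*} [Group G] [Finite G] (hG : IsPGroup 2 G) (A N : Subgroup G)
    [A.Normal] [hN : N.Normal] (hne : ¬ N ≤ A) :
    ∃ x ∈ N, x ∉ A ∧ x * x ∈ A ∧ ∀ h, h * x * h⁻¹ * x⁻¹ ∈ A := by
  classical
  let φ := QuotientGroup.mk' A
  have hsurj : Function.Surjective φ := QuotientGroup.mk'_surjective A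
  let N' : Subgroup (G ⧸ A) := N.map φ
  have hN' : N'.Normal := hN.map φ hsurj
  have hQ : IsPGroup 2 (G ⧸ A) := hG.to_quotient A
  have hQc : IsPGroup 2 (ConjAct (G ⧸ A)) := hQ.of_equiv ConjAct.toConjAct
  obtain ⟨y, hyN, hyA⟩ := Set.not_subset.1 hne
  have hyN' : φ y ∈ N' := Subgroup.mem_map_of_mem φ hyN
  have hy1 : φ y ≠ 1 := by
    intro h
    exact hyA ((QuotientGroup.eq_one_iff y).1 h)
  have : Nontrivial N' := ⟨⟨⟨φ y, hyN'⟩, 1, fun h => hy1 (congrArg Subtype.val h)⟩⟩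
  have hcard : 2 ∣ Nat.card N' := by
    obtain ⟨m, hm, hc⟩ := (IsPGroup.nontrivial_iff_card (hQ.to_subgroup N')).1 inferInstance
    rw [hc]
    exact dvd_pow_self 2 (by omega)
  have hfix1 : (1 : N') ∈ MulAction.fixedPoints (ConjAct (G ⧸ A)) N' := by
    intro g
    apply Subtype.ext
    rw [ConjAct.Subgroup.val_conj_smul]
    simp
  obtain ⟨b, hb, hb1⟩ := hQc.exists_fixed_point_of_prime_dvd_card_of_fixed_point N' hcard hfix1
  have hbc : ∀ g : G ⧸ A, g * b.1 * g⁻¹ = b.1 := by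
    intro g
    have := congrArg Subtype.val (hb (ConjAct.toConjAct g))
    rw [ConjAct.Subgroup.val_conj_smul, ConjAct.toConjAct_smul] at this
    exact this
  have hb1' : b.1 ≠ 1 := fun h => hb1 (Subtype.ext h.symm)
  obtain ⟨k, hk⟩ := (IsPGroup.iff_orderOf.1 hQ) b.1
  have hk0 : k ≠ 0 := by
    rintro rfl
    exact hb1' (orderOf_eq_one_iff.1 (by simpa using hk))
  obtain ⟨j, rfl⟩ := Nat.exists_eq_succ_of_ne_zero hk0
  set z := b.1 ^ 2 ^ j with hz
  have hz1 : z ≠ 1 := by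
    intro h
    have := orderOf_dvd_of_pow_eq_one h
    rw [hk] at this
    have h2 := Nat.le_of_dvd (by positivity) this
    have h3 : 2 ^ j < 2 ^ (j + 1) := Nat.pow_lt_pow_right (by norm_num) (by omega)
    exact absurd h2 (by simpa using h3)
  have hzz : z * z = 1 := by
    rw [hz, ← pow_add, ← two_mul, ← pow_succ', ← hk]
    exact pow_orderOf_eq_one _
  have hzN : z ∈ N' := N'.pow_mem b.2 _
  have hzc : ∀ g : G ⧸ A, g * z * g⁻¹ = z := by
    intro g
    rw [hz, ← conj_pow, hbc g]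
  obtain ⟨x, hxN, hx⟩ := Subgroup.mem_map.1 hzN
  refine ⟨x, hxN, ?_, ?_, ?_⟩
  · intro h
    exact hz1 (by rw [← hx]; exact (QuotientGroup.eq_one_iff x).2 h)
  · apply (QuotientGroup.eq_one_iff (x * x)).1
    change φ (x * x) = 1
    rw [map_mul, hx, hzz]
  · intro h
    apply (QuotientGroup.eq_one_iff (h * x * h⁻¹ * x⁻¹)).1
    change φ (h * x * h⁻¹ * x⁻¹) = 1
    rw [map_mul, map_mul, map_mul, map_inv, map_inv, hx, hzc, mul_inv_cancel]

theorem exists_central' {P : Type*} [Group P] [Finite P] (H A N : Subgroup P) (hH : IsPGroup 2 H)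
    (hNH : N ≤ H) (hA : ∀ h ∈ H, ∀ a ∈ A, h * a * h⁻¹ ∈ A)
    (hN : ∀ h ∈ H, ∀ a ∈ N, h * a * h⁻¹ ∈ N) (hne : ∃ y ∈ N, y ∉ A) :
    ∃ x ∈ N, x ∉ A ∧ x * x ∈ A ∧ ∀ h ∈ H, h * x * h⁻¹ * x⁻¹ ∈ A := by
  have : (A.subgroupOf H).Normal := ⟨fun a ha g => by
    rw [Subgroup.mem_subgroupOf] at ha ⊢
    simpa using hA g.1 g.2 a.1 ha⟩
  have : (N.subgroupOf H).Normal := ⟨fun a ha g => by
    rw [Subgroup.mem_subgroupOf] at ha ⊢
    simpa using hN g.1 g.2 a.1 ha⟩
  obtain ⟨y, hyN, hyA⟩ := hne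
  obtain ⟨x, hxN, hxA, hxx, hx⟩ := exists_central hH (A.subgroupOf H) (N.subgroupOf H)
    (fun h => hyA (by
      have := h (show (⟨y, hNH hyN⟩ : H) ∈ N.subgroupOf H from Subgroup.mem_subgroupOf.2 hyN)
      exact Subgroup.mem_subgroupOf.1 this))
  refine ⟨x.1, Subgroup.mem_subgroupOf.1 hxN, fun h => hxA (Subgroup.mem_subgroupOf.2 h), ?_, ?_⟩
  · simpa using Subgroup.mem_subgroupOf.1 hxx
  · intro h hh
    simpa using Subgroup.mem_subgroupOf.1 (hx ⟨h, hh⟩)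

/-! arithmetic -/

theorem ar_sub {n : ℕ} (hn : 1 ≤ n) {k : ℤ} (h1 : (2 : ℤ) ^ n ∣ k * k - 1) (h2 : (4 : ℤ) ∣ k - 1) :
    (2 : ℤ) ^ (n - 1) ∣ k - 1 := by
  obtain ⟨m, hm⟩ := h2
  have hk : k = 4 * m + 1 := by linarith
  obtain ⟨j, rfl⟩ : ∃ j, n = j + 1 := ⟨n - 1, by omega⟩
  simp only [Nat.add_sub_cancel]
  obtain ⟨q, hq⟩ := h1
  have h3 : (2 : ℤ) ^ j ∣ (k - 1) * (2 * m + 1) := ⟨q, by
    have : 2 * ((k - 1) * (2 * m + 1)) = 2 * (2 ^ j * q) := by
      rw [← mul_assoc 2 (2 ^ j) q, ← pow_succ', ← hq, hk]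
      ring
    linarith⟩
  exact IsCoprime.dvd_of_dvd_mul_right (IsCoprime.pow_left ⟨-m, 1, by ring⟩) h3

theorem ar_add {n : ℕ} (hn : 1 ≤ n) {k : ℤ} (h1 : (2 : ℤ) ^ n ∣ k * k - 1) (h2 : (4 : ℤ) ∣ k + 1) :
    (2 : ℤ) ^ (n - 1) ∣ k + 1 := by
  have h := ar_sub hn (k := -k) (by simpa using h1) (by
    have : -k - 1 = -(k + 1) := by ring
    rw [this]
    exact (dvd_neg).2 h2)
  have h3 : -k - 1 = -(k + 1) := by ring
  rw [h3] at h
  exact (dvd_neg).1 h

theorem ar_odd {j : ℕ} {l m : ℤ} (h : (2 : ℤ) ^ j ∣ l * m) (hm : ¬ (2 : ℤ) ∣ m) :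
    (2 : ℤ) ^ j ∣ l := by
  refine IsCoprime.dvd_of_dvd_mul_right (IsCoprime.pow_left ?_) h
  obtain ⟨q, hq⟩ : Odd m := by
    rw [← Int.not_even_iff_odd]
    intro h'
    exact hm h'.two_dvd
  exact ⟨-q, 1, by rw [hq]; ring⟩

/-! the group theoretic part -/

structure Set' {P : Type*} [Group P] (H : Subgroup P) (r c : P) (n : ℕ) : Prop where
  p : IsPGroup 2 H
  hr : r ∈ H
  ho : orderOf r = 2 ^ n
  hc : r ^ 2 ^ (n - 1) = c
  hcc : ∀ h ∈ H, h * c = c * h
  hno : ∀ h ∈ H, ∃ k : ℤ, h * r * h⁻¹ = r ^ k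
  hce : ∀ h ∈ H, h * r = r * h → h ∈ Subgroup.zpowers r
  hKl : ∀ e ∈ H, e * e = 1 → e ≠ 1 → e ≠ c → ¬ ∀ h ∈ H, h * e * h⁻¹ = e ∨ h * e * h⁻¹ = e * c

variable {P : Type*} [Group P] {H : Subgroup P} {r c : P} {n : ℕ}

theorem zpow_one_iff (S : Set' H r c n) (k : ℤ) : r ^ k = 1 ↔ (2 : ℤ) ^ n ∣ k := by
  rw [← orderOf_dvd_iff_zpow_eq_one, S.ho]
  push_cast
  rfl

theorem zpow_eq_iff (S : Set' H r c n) (k l : ℤ) : r ^ k = r ^ l ↔ (2 : ℤ) ^ n ∣ k - l := by
  rw [← zpow_one_iff S, zpow_sub, mul_inv_eq_one]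

theorem c_eq (S : Set' H r c n) : c = r ^ ((2 : ℤ) ^ (n - 1)) := by
  rw [← S.hc, ← zpow_natCast]
  push_cast
  rfl

theorem cc (S : Set' H r c n) (hn : 1 ≤ n) : c * c = 1 := by
  rw [c_eq S, ← zpow_add, zpow_one_iff S]
  obtain ⟨j, rfl⟩ : ∃ j, n = j + 1 := ⟨n - 1, by omega⟩
  simp only [Nat.add_sub_cancel]
  exact ⟨1, by ring⟩

theorem half (S : Set' H r c n) (hn : 1 ≤ n) {l : ℤ} (h : (2 : ℤ) ^ (n - 1) ∣ l) :
    r ^ l = 1 ∨ r ^ l = c := by
  obtain ⟨m, rfl⟩ := h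
  rw [zpow_mul, ← c_eq S]
  rcases Int.even_or_odd m with ⟨q, hq⟩ | ⟨q, hq⟩
  · left
    rw [hq, ← two_mul, zpow_mul, zpow_two, cc S hn, one_zpow]
  · right
    rw [hq, zpow_add, zpow_mul, zpow_two, cc S hn, one_zpow, one_mul, zpow_one]

theorem zp_mem (S : Set' H r c n) (k : ℤ) : r ^ k ∈ H := H.zpow_mem S.hr k

theorem A_le (S : Set' H r c n) : Subgroup.zpowers r ≤ H := by
  rw [Subgroup.zpowers_le]
  exact S.hr

theorem c_memA (S : Set' H r c n) : c ∈ Subgroup.zpowers r := by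
  rw [c_eq S]
  exact Subgroup.mem_zpowers_iff.2 ⟨_, rfl⟩

/-- squares modulo the group generated by `r` -/
theorem sq_one (S : Set' H r c n) {x : P} {k : ℤ} (hk : x * r * x⁻¹ = r ^ k)
    (hxx : x * x ∈ Subgroup.zpowers r) : (2 : ℤ) ^ n ∣ k * k - 1 := by
  obtain ⟨i, hi⟩ := Subgroup.mem_zpowers_iff.1 hxx
  rw [← zpow_eq_iff S]
  have h1 : (x * x) * r * (x * x)⁻¹ = r := by
    rw [← hi, (Commute.zpow_self r i).eq, mul_inv_cancel_right]
  have h2 : (x * x) * r * (x * x)⁻¹ = x * (x * r * x⁻¹) * x⁻¹ := by group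
  rw [h2, hk, ← conj_zpow, hk, ← zpow_mul] at h1
  rw [h1, zpow_one]

theorem memA_conj (S : Set' H r c n) {h a : P} (hh : h ∈ H) (ha : a ∈ Subgroup.zpowers r) :
    h * a * h⁻¹ ∈ Subgroup.zpowers r := by
  obtain ⟨i, rfl⟩ := Subgroup.mem_zpowers_iff.1 ha
  obtain ⟨k, hk⟩ := S.hno h hh
  rw [← conj_zpow, hk]
  exact Subgroup.zpow_mem _ (Subgroup.mem_zpowers_iff.2 ⟨_, rfl⟩) _

theorem claim (S : Set' H r c n) [Finite P] (hn : 2 ≤ n) {h : P} (hh : h ∈ H)
    (hz : h * r ^ ((2 : ℤ) ^ (n - 2)) = r ^ ((2 : ℤ) ^ (n - 2)) * h) :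
    h ∈ Subgroup.zpowers r := by
  by_contra hhA
  set z := r ^ ((2 : ℤ) ^ (n - 2)) with hzdef
  let N : Subgroup P := H ⊓ Subgroup.centralizer {z}
  have hNmem : ∀ a, a ∈ N ↔ a ∈ H ∧ a * z = z * a := by
    intro a
    rw [Subgroup.mem_inf, Subgroup.mem_centralizer_singleton_iff]
  have hN : ∀ g ∈ H, ∀ a ∈ N, g * a * g⁻¹ ∈ N := by
    intro g hg a ha
    rw [hNmem] at ha ⊢
    refine ⟨H.mul_mem (H.mul_mem hg ha.1) (H.inv_mem hg), ?_⟩
    obtain ⟨k, hk⟩ := S.hno g⁻¹ (H.inv_mem hg)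
    have h1 : g⁻¹ * z * g = z ^ k := by
      have : g⁻¹ * z * g⁻¹⁻¹ = z ^ k := by
        rw [hzdef, ← conj_zpow, hk, ← zpow_mul, ← zpow_mul, mul_comm]
      simpa using this
    have h2 : a * z ^ k = z ^ k * a := (Commute.zpow_right (ha.2 : Commute a z) k).eq
    calc g * a * g⁻¹ * z = g * (a * (g⁻¹ * z * g)) * g⁻¹ := by group
      _ = g * ((g⁻¹ * z * g) * a) * g⁻¹ := by rw [h1, h2]
      _ = z * (g * a * g⁻¹) := by group
  obtain ⟨x, hxN, hxA, hxx, hx⟩ := exists_central' H (Subgroup.zpowers r) N S.p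
    (fun a ha => ((hNmem a).1 ha).1) (fun g hg a ha => memA_conj S hg ha) hN
    ⟨h, (hNmem h).2 ⟨hh, hz⟩, hhA⟩
  obtain ⟨hxH, hxz⟩ := (hNmem x).1 hxN
  obtain ⟨k, hk⟩ := S.hno x hxH
  have h1 := sq_one S hk hxx
  have hxz' : x * z * x⁻¹ = z := by rw [hxz, mul_inv_cancel_right]
  have hx1 : ¬ r ^ k = r := by
    intro h'
    apply hxA
    apply S.hce x hxH
    rw [h'] at hk
    rw [← mul_inv_eq_iff_eq_mul] 
    exact hk
  have hn3 : 3 ≤ n := by
    by_contra hlt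
    have hn2 : n = 2 := by omega
    subst hn2
    apply hx1
    rw [← hk]
    simpa [hzdef] using hxz'
  obtain ⟨j, rfl⟩ : ∃ j, n = j + 3 := ⟨n - 3, by omega⟩
  have e2 : j + 3 - 2 = j + 1 := by omega
  have e1 : j + 3 - 1 = j + 2 := by omega
  have h4 : (4 : ℤ) ∣ k - 1 := by
    have h3 : r ^ (k * 2 ^ (j + 1)) = r ^ ((2 : ℤ) ^ (j + 1)) := by
      rw [zpow_mul, ← hk, conj_zpow]
      rw [hzdef, e2] at hxz'
      exact hxz'
    rw [zpow_eq_iff S] at h3
    obtain ⟨q, hq⟩ := h3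
    refine ⟨q, ?_⟩
    have h5 : (2 : ℤ) ^ (j + 1) ≠ 0 := by positivity
    apply mul_left_cancel₀ h5
    have h6 : (2 : ℤ) ^ (j + 1) * (k - 1) = k * 2 ^ (j + 1) - 2 ^ (j + 1) := by ring
    rw [h6, hq]
    ring
  have h5 := ar_sub (by omega) h1 h4
  rw [e1] at h5
  have hkc : r ^ (k - 1) = c := by
    rcases half S (by omega) (l := k - 1) (by rw [e1]; exact h5) with h6 | h6
    · exfalso
      apply hx1
      have : r ^ k = r ^ (k - 1) * r := by rw [← zpow_add_one]; congr 1; ring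
      rw [this, h6, one_mul]
    · exact h6
  -- k = 1 + 2 ^ (j + 2) * w with w odd
  obtain ⟨w, hw⟩ := h5
  have hwodd : ¬ (2 : ℤ) ∣ w := by
    rintro ⟨q, rfl⟩
    rw [c_eq S, zpow_eq_iff S, hw, e1] at hkc
    obtain ⟨u, hu⟩ := hkc
    have h6 : (2 : ℤ) ^ (j + 2) ≠ 0 := by positivity
    have h7 : 2 * q - 1 = 2 * u := by
      apply mul_left_cancel₀ h6
      have : (2 : ℤ) ^ (j + 2) * (2 * q - 1) = 2 ^ (j + 2) * (2 * q) - 2 ^ (j + 2) := by ring
      rw [this, hu]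
      ring
    omega
  have hk' : k = 1 + 2 ^ (j + 2) * w := by linarith
  obtain ⟨i, hi⟩ := Subgroup.mem_zpowers_iff.1 hxx
  have hieven : (2 : ℤ) ∣ i := by
    have h6 : r ^ (k * i) = r ^ i := by
      rw [zpow_mul, ← hk, conj_zpow, hi]
      group
    rw [zpow_eq_iff S, hk'] at h6
    obtain ⟨u, hu⟩ := h6
    have h7 : w * i = 2 * u := by
      have h8 : (2 : ℤ) ^ (j + 2) ≠ 0 := by positivity
      apply mul_left_cancel₀ h8
      have : (2 : ℤ) ^ (j + 2) * (w * i) = (1 + 2 ^ (j + 2) * w) * i - i := by ring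
      rw [this, hu]
      ring
    have h8 : (2 : ℤ) ∣ w * i := ⟨u, h7⟩
    rcases (Int.prime_two.dvd_mul).1 h8 with h9 | h9
    · exact absurd h9 hwodd
    · exact h9
  obtain ⟨u, rfl⟩ := hieven
  -- the unit 1 + 2 ^ (j + 1) * w
  set s : ℤ := 1 + 2 ^ (j + 1) * w with hs
  have hs2 : ¬ (2 : ℤ) ∣ s := by
    rintro ⟨q, hq⟩
    rw [hs, pow_succ] at hq
    have : (2 : ℤ) * (q - 2 ^ j * w) = 1 := by linarith
    omega
  obtain ⟨p, q, hpq⟩ : IsCoprime s ((2 : ℤ) ^ (j + 2)) := by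
    apply IsCoprime.pow_right
    obtain ⟨m, hm⟩ : Odd s := by
      rw [← Int.not_even_iff_odd]
      intro h'
      exact hs2 h'.two_dvd
    exact ⟨1, -m, by rw [hm]; ring⟩
  set a : ℤ := - u * p with ha
  set e : P := r ^ a * x with he
  have hconj : ∀ l : ℤ, x * r ^ l * x⁻¹ = r ^ (k * l) := by
    intro l
    rw [← conj_zpow, hk, ← zpow_mul]
  have hee : e * e = 1 := by
    have h6 : e * e = r ^ a * (x * r ^ a * x⁻¹) * (x * x) := by rw [he]; group
    rw [h6, hconj, ← hi, ← zpow_add, ← zpow_add, zpow_one_iff S]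
    refine ⟨u * q, ?_⟩
    have h7 : a + k * a + 2 * u = 2 * (a * s + u) := by rw [hk', hs]; ring
    have h8 : a * s + u = u * q * 2 ^ (j + 2) := by
      rw [ha]
      linear_combination u * (-hpq)
    rw [h7, h8]
    ring
  have hxe : x = r ^ (-a) * e := by rw [he, ← mul_assoc, ← zpow_add]; simp
  have heH : e ∈ H := H.mul_mem (zp_mem S a) hxH
  have heA : e ∉ Subgroup.zpowers r := by
    intro h'
    apply hxA
    rw [hxe]
    exact Subgroup.mul_mem _ (Subgroup.mem_zpowers_iff.2 ⟨_, rfl⟩) h'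
  refine S.hKl e heH hee (fun h' => heA (by rw [h']; exact Subgroup.one_mem _))
    (fun h' => heA (by rw [h']; exact c_memA S)) ?_
  intro g hg
  obtain ⟨l, hl⟩ : ∃ l : ℤ, g * e * g⁻¹ = r ^ l * e := by
    have h6 : g * e * g⁻¹ * e⁻¹ ∈ Subgroup.zpowers r := by
      have h7 : g * e * g⁻¹ * e⁻¹ = (g * r ^ a * g⁻¹) * (g * x * g⁻¹ * x⁻¹) * r ^ (-a) := by
        rw [he, zpow_neg]; group
      rw [h7]
      exact Subgroup.mul_mem _ (Subgroup.mul_mem _
        (memA_conj S hg (Subgroup.mem_zpowers_iff.2 ⟨_, rfl⟩)) (hx g hg))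
        (Subgroup.mem_zpowers_iff.2 ⟨_, rfl⟩)
    obtain ⟨l, hl⟩ := Subgroup.mem_zpowers_iff.1 h6
    exact ⟨l, by rw [hl]; group⟩
  have hconje : e * r ^ l * e⁻¹ = r ^ (k * l) := by
    have h6 : e * r ^ l * e⁻¹ = r ^ a * (x * r ^ l * x⁻¹) * (r ^ a)⁻¹ := by rw [he]; group
    rw [h6, hconj, ← zpow_neg, ← zpow_add, ← zpow_add]
    congr 1
    ring
  have h6 : r ^ (l + k * l) = 1 := by
    have h7 : (r ^ l * e) * (r ^ l * e) = 1 := by
      rw [← hl]
      have : g * e * g⁻¹ * (g * e * g⁻¹) = g * (e * e) * g⁻¹ := by group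
      rw [this, hee]
      group
    have h8 : (r ^ l * e) * (r ^ l * e) = r ^ l * (e * r ^ l * e⁻¹) * (e * e) := by group
    rw [h8, hconje, hee, mul_one, ← zpow_add] at h7
    exact h7
  rw [zpow_one_iff S] at h6
  have h7 : (2 : ℤ) ^ (j + 2) ∣ l := by
    apply ar_odd (m := s) _ hs2
    obtain ⟨v, hv⟩ := h6
    refine ⟨v, ?_⟩
    have h8 : l + k * l = 2 * (l * s) := by rw [hk', hs]; ring
    rw [h8] at hv
    have h9 : (2 : ℤ) * (l * s) = 2 * (2 ^ (j + 2) * v) := by rw [hv]; ring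
    linarith
  rcases half S (by omega) (l := l) (by rw [e1]; exact h7) with h8 | h8
  · left
    rw [hl, h8, one_mul]
  · right
    rw [hl, h8, S.hcc e heH]

theorem c_ne (S : Set' H r c n) (hn : 1 ≤ n) : c ≠ 1 := by
  intro h
  rw [c_eq S, zpow_one_iff S] at h
  obtain ⟨j, rfl⟩ : ∃ j, n = j + 1 := ⟨n - 1, by omega⟩
  simp only [Nat.add_sub_cancel] at h
  obtain ⟨q, hq⟩ := h
  have h1 : (2 : ℤ) ^ j ≠ 0 := by positivity
  have h2 : (1 : ℤ) = 2 * q := by
    apply mul_left_cancel₀ h1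
    linear_combination hq
  omega

theorem four_dvd (S : Set' H r c n) [Finite P] (hn : 2 ≤ n) {h : P} (hh : h ∈ H)
    (hA : h ∉ Subgroup.zpowers r) {k : ℤ} (hk : h * r * h⁻¹ = r ^ k) : (4 : ℤ) ∣ k + 1 := by
  have hodd : ¬ (2 : ℤ) ∣ k := by
    rintro ⟨m, rfl⟩
    apply c_ne S (by omega)
    have h1 : h * c * h⁻¹ = 1 := by
      rw [c_eq S, ← conj_zpow, hk, ← zpow_mul, zpow_one_iff S]
      obtain ⟨j, rfl⟩ : ∃ j, n = j + 1 := ⟨n - 1, by omega⟩
      simp only [Nat.add_sub_cancel]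
      exact ⟨m, by ring⟩
    rw [S.hcc h hh, mul_inv_cancel_right] at h1
    exact h1
  have h4 : ¬ (4 : ℤ) ∣ k - 1 := by
    rintro ⟨m, hm⟩
    apply hA
    apply claim S hn hh
    have h1 : h * r ^ ((2 : ℤ) ^ (n - 2)) * h⁻¹ = r ^ ((2 : ℤ) ^ (n - 2)) := by
      rw [← conj_zpow, hk, ← zpow_mul, zpow_eq_iff S]
      obtain ⟨j, rfl⟩ : ∃ j, n = j + 2 := ⟨n - 2, by omega⟩
      simp only [Nat.add_sub_cancel]
      refine ⟨m, ?_⟩
      have h2 : k = 4 * m + 1 := by linarith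
      rw [h2]
      ring
    rw [← mul_inv_eq_iff_eq_mul]
    exact h1
  omega

theorem inv_z (S : Set' H r c n) [Finite P] (hn : 2 ≤ n) {h : P} (hh : h ∈ H)
    (hA : h ∉ Subgroup.zpowers r) :
    h * r ^ ((2 : ℤ) ^ (n - 2)) * h⁻¹ = (r ^ ((2 : ℤ) ^ (n - 2)))⁻¹ := by
  obtain ⟨k, hk⟩ := S.hno h hh
  obtain ⟨m, hm⟩ := four_dvd S hn hh hA hk
  rw [← conj_zpow, hk, ← zpow_mul, ← zpow_neg, zpow_eq_iff S]
  obtain ⟨j, rfl⟩ : ∃ j, n = j + 2 := ⟨n - 2, by omega⟩
  simp only [Nat.add_sub_cancel]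
  refine ⟨m, ?_⟩
  have h2 : k = 4 * m - 1 := by linarith
  rw [h2]
  ring

theorem index_two (S : Set' H r c n) [Finite P] (hn : 2 ≤ n) {h t : P} (hh : h ∈ H)
    (hA : h ∉ Subgroup.zpowers r) (ht : t ∈ H) (htA : t ∉ Subgroup.zpowers r) :
    h * t⁻¹ ∈ Subgroup.zpowers r := by
  apply claim S hn (H.mul_mem hh (H.inv_mem ht))
  have h1 := inv_z S hn hh hA
  have h2 := inv_z S hn ht htA
  set z := r ^ ((2 : ℤ) ^ (n - 2))
  have h3 : t⁻¹ * z * t = z⁻¹ := by
    have : t⁻¹ * (t * z * t⁻¹)⁻¹ * t = z⁻¹ := by group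
    rw [h2, inv_inv] at this
    exact this
  calc h * t⁻¹ * z = h * (t⁻¹ * z * t) * t⁻¹ := by group
    _ = (h * z * h⁻¹)⁻¹ * (h * t⁻¹) := by rw [h3]; group
    _ = z * (h * t⁻¹) := by rw [h1, inv_inv]

theorem final (S : Set' H r c n) [Finite P] (hn : 2 ≤ n) {t : P} (ht : t ∈ H)
    (htA : t ∉ Subgroup.zpowers r) :
    (t * t = 1 ∨ t * t = c) ∧ ((t * t = c ∧ t * r * t⁻¹ = r⁻¹) ∨
      (3 ≤ n ∧ (t * r * t⁻¹ = r⁻¹ ∨ t * r * t⁻¹ = c * r⁻¹))) := by
  have htt : t * t ∈ Subgroup.zpowers r := by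
    have h1 := index_two S hn ht htA (H.inv_mem ht) (fun h => htA (by simpa using inv_mem h))
    simpa using h1
  obtain ⟨k, hk⟩ := S.hno t ht
  have h1 := sq_one S hk htt
  have h4 := four_dvd S hn ht htA hk
  have h5 := ar_add (by omega) h1 h4
  obtain ⟨i, hi⟩ := Subgroup.mem_zpowers_iff.1 htt
  have h6 : t * t = 1 ∨ t * t = c := by
    rw [← hi]
    apply half S (by omega)
    have h7 : r ^ (k * i) = r ^ i := by
      rw [zpow_mul, ← hk, conj_zpow, hi]
      group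
    rw [zpow_eq_iff S] at h7
    obtain ⟨q, hq⟩ := h4
    have hkq : k = 4 * q - 1 := by linarith
    obtain ⟨j, rfl⟩ : ∃ j, n = j + 2 := ⟨n - 2, by omega⟩
    have e1 : j + 2 - 1 = j + 1 := by omega
    rw [e1]
    apply ar_odd (m := 2 * q - 1) _ (by omega)
    obtain ⟨v, hv⟩ := h7
    refine ⟨v, ?_⟩
    have h8 : (2 : ℤ) * (i * (2 * q - 1)) = 2 * (2 ^ (j + 1) * v) := by
      have : (2 : ℤ) * (i * (2 * q - 1)) = k * i - i := by rw [hkq]; ring
      rw [this, hv]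
      ring
    linarith
  refine ⟨h6, ?_⟩
  have hkk : r ^ k = r ^ (k + 1) * r⁻¹ := by
    rw [← zpow_neg_one, ← zpow_add]
    congr 1
    ring
  rcases half S (by omega) h5 with h7 | h7
  · have h8 : t * r * t⁻¹ = r⁻¹ := by rw [hk, hkk, h7, one_mul]
    by_cases hn3 : 3 ≤ n
    · exact Or.inr ⟨hn3, Or.inl h8⟩
    · rcases h6 with h9 | h9
      · exfalso
        have hn2 : n = 2 := by omega
        subst hn2
        refine S.hKl t ht h9 (fun h' => htA (by rw [h']; exact Subgroup.one_mem _))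
          (fun h' => htA (by rw [h']; exact c_memA S)) ?_
        have h10 : ∀ a : ℤ, r ^ a * t * (r ^ a)⁻¹ = t ∨ r ^ a * t * (r ^ a)⁻¹ = t * c := by
          intro a
          have h11 : r ^ a * t * (r ^ a)⁻¹ = r ^ (2 * a) * t := by
            have h12 : t * (r ^ a)⁻¹ * t⁻¹ = r ^ a := by
              rw [← zpow_neg, ← conj_zpow, h8, inv_zpow', neg_neg]
            calc r ^ a * t * (r ^ a)⁻¹ = r ^ a * (t * (r ^ a)⁻¹ * t⁻¹) * t := by group
              _ = r ^ (2 * a) * t := by rw [h12, ← zpow_add, two_mul]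
          rw [h11]
          rcases half S (by omega) (l := 2 * a) ⟨a, by norm_num⟩ with h13 | h13
          · left
            rw [h13, one_mul]
          · right
            rw [h13, S.hcc t ht]
        intro h hh
        by_cases hA : h ∈ Subgroup.zpowers r
        · obtain ⟨a, rfl⟩ := Subgroup.mem_zpowers_iff.1 hA
          exact h10 a
        · obtain ⟨a, ha⟩ := Subgroup.mem_zpowers_iff.1 (index_two S hn hh hA ht htA)
          have h14 : h = r ^ a * t := by rw [ha]; group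
          have h15 : h * t * h⁻¹ = r ^ a * t * (r ^ a)⁻¹ := by rw [h14]; group
          rw [h15]
          exact h10 a
      · exact Or.inl ⟨h9, h8⟩
  · have h8 : t * r * t⁻¹ = c * r⁻¹ := by rw [hk, hkk, h7]
    have hn3 : 3 ≤ n := by
      by_contra hlt
      have hn2 : n = 2 := by omega
      subst hn2
      apply htA
      apply S.hce t ht
      rw [← mul_inv_eq_iff_eq_mul, h8, c_eq S]
      norm_num
      rw [← zpow_neg_one, ← zpow_ofNat, ← zpow_add]
      norm_num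
    exact Or.inr ⟨hn3, Or.inr h8⟩

end CLSB_

open CLSB_ in
/-- two-groups without normal Klein four group containing the central involution -/
theorem p_CLSB : T_CLSB := by
  intro X _ H c hC hX hp hKl r n hr hn ho hc hno hce
  classical
  have hmemA : ∀ h : Equiv.Perm X, h ∈ Subgroup.zpowers r ↔ ∃ k : ℕ, h = r ^ k := by
    intro h
    rw [← mem_powers_iff_mem_zpowers]
    constructor
    · rintro ⟨k, hk⟩
      exact ⟨k, hk.symm⟩
    · rintro ⟨k, hk⟩
      exact ⟨k, hk.symm⟩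
  have S : Set' H r c n :=
    { p := hp
      hr := hr
      ho := ho
      hc := hc
      hcc := fun h hh => by
        ext x
        simp only [Equiv.Perm.mul_apply]
        exact (hC.comm h hh x).symm
      hno := fun h hh => by
        obtain ⟨k, hk⟩ := hno h hh
        exact ⟨k, by rw [hk, zpow_natCast]⟩
      hce := fun h hh hhr => (hmemA h).2 (hce h hh hhr)
      hKl := fun e he hee he1 hec hall => hKl e
        { mem := he
          sq := fun x => by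
            have := congrArg (fun f : Equiv.Perm X => f x) hee
            simpa using this
          ne_one := he1
          ne_c := hec
          nor := hall } }
  by_cases htr : ∀ x y : X, ∃ k : ℕ, (r ^ k) x = y
  · exact Or.inl htr
  right
  have hn2 : 2 ≤ n := by
    by_contra hlt
    have hn1 : n = 1 := by omega
    subst hn1
    apply htr
    intro x y
    obtain ⟨h, hh, hxy⟩ := hC.trans x y
    have hrc : r = c := by simpa using hc
    obtain ⟨k, hk⟩ := hce h hh (by rw [hrc]; exact S.hcc h hh)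
    exact ⟨k, by rw [← hk, hxy]⟩
  obtain ⟨t, ht, htA⟩ : ∃ t ∈ H, t ∉ Subgroup.zpowers r := by
    by_contra hcon
    push Not at hcon
    apply htr
    intro x y
    obtain ⟨h, hh, hxy⟩ := hC.trans x y
    obtain ⟨k, hk⟩ := (hmemA h).1 (hcon h hh)
    exact ⟨k, by rw [← hk, hxy]⟩
  obtain ⟨hsq, hrel⟩ := final S hn2 ht htA
  refine ⟨t, ?_, hrel⟩
  have hreg : ∀ h ∈ H, ∀ x, h x = x → h = 1 := by
    intro h hh x hx
    by_contra h1
    by_cases hA : h ∈ Subgroup.zpowers r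
    · -- c is a power of h
      obtain ⟨m, hm⟩ : ∃ m : ℕ, h ^ m = c := by
        obtain ⟨k, hk⟩ := (hmemA h).1 hA
        have hk0 : ¬ 2 ^ n ∣ k := by
          intro h'
          apply h1
          rw [hk]
          exact orderOf_dvd_iff_pow_eq_one.1 (by rw [ho]; exact h')
        have hkne : k ≠ 0 := by
          rintro rfl
          exact hk0 (dvd_zero _)
        obtain ⟨v, w, hw, hkv⟩ := Nat.exists_eq_two_pow_mul_odd hkne
        have hvn : v < n := by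
          by_contra hge
          apply hk0
          rw [hkv]
          exact Dvd.dvd.mul_right (pow_dvd_pow 2 (by omega)) w
        refine ⟨2 ^ (n - 1 - v), ?_⟩
        have h2 : k * 2 ^ (n - 1 - v) = 2 ^ (n - 1) * w := by
          rw [hkv]
          have : 2 ^ (n - 1) = 2 ^ v * 2 ^ (n - 1 - v) := by
            rw [← pow_add]
            congr 1
            omega
          rw [this]
          ring
        rw [hk, ← pow_mul, h2, pow_mul, hc]
        obtain ⟨q, hq⟩ := hw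
        rw [hq, pow_add, pow_mul, pow_two, cc S hn, one_pow, one_mul, pow_one]
      have h3 : ∀ m : ℕ, (h ^ m) x = x := by
        intro m
        induction m with
        | zero => simp
        | succ m ih => rw [pow_succ, Equiv.Perm.mul_apply, hx, ih]
      exact hC.ne x (by rw [← hm]; exact h3 m)
    · apply htr
      have key : ∀ y : X, ∃ a : ℤ, (r ^ a) x = y := by
        intro y
        obtain ⟨g, hg, hgy⟩ := hC.trans x y
        by_cases hgA : g ∈ Subgroup.zpowers r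
        · obtain ⟨a, rfl⟩ := Subgroup.mem_zpowers_iff.1 hgA
          exact ⟨a, hgy⟩
        · obtain ⟨a, ha⟩ := Subgroup.mem_zpowers_iff.1 (index_two S hn2 hg hgA hh hA)
          refine ⟨a, ?_⟩
          have h4 : g = r ^ a * h := by rw [ha]; group
          rw [← hgy, h4, Equiv.Perm.mul_apply, hx]
      intro y y'
      obtain ⟨a, ha⟩ := key y
      obtain ⟨b, hb⟩ := key y'
      obtain ⟨k, hk⟩ := (hmemA (r ^ (b - a))).1 (Subgroup.mem_zpowers_iff.2 ⟨_, rfl⟩)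
      refine ⟨k, ?_⟩
      rw [← hk, ← ha, ← hb, ← Equiv.Perm.mul_apply, ← zpow_add]
      congr 2
      ring
  exact
    { memr := hr
      memt := ht
      ord := ho
      pow := hc
      two := hn2
      nt := fun k hk => htA ((hmemA t).2 ⟨k, hk⟩)
      cov := fun h hh => by
        by_cases hA : h ∈ Subgroup.zpowers r
        · obtain ⟨k, hk⟩ := (hmemA h).1 hA
          exact ⟨k, Or.inl hk⟩
        · obtain ⟨k, hk⟩ := (hmemA _).1 (index_two S hn2 hh hA ht htA)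
          exact ⟨k, Or.inr (by rw [← hk]; group)⟩
      reg := hreg
      sqt := hsq }

end Pool.Agent.ECF
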