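import Mathlib
import Pool.Agent.ECF.Targets

set_option autoImplicit false

/-!
# CYC and QUAT: all types of cyclic and of generalized quaternion groups are nondegenerate
-/

namespace Pool.Agent.ECF.CYCQ_

open Finset
open scoped BigOperators

variable {X : Type}

/-- the Fourier sum -/
noncomputable def S (r : Equiv.Perm X) (n : ℕ) (g : X → ℤ) (y : X) (z : ℂ) : ℂ :=
  ∑ j ∈ range (2 ^ n), (g ((r ^ j) y) : ℂ) * z ^ j

lemma half_pow {n : ℕ} (hn : 1 ≤ n) : 2 ^ (n - 1) + 2 ^ (n - 1) = 2 ^ n := by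
  rw [← two_mul, ← pow_succ', Nat.sub_add_cancel hn]

lemma S_half {r c : Equiv.Perm X} {n : ℕ} (hn : 1 ≤ n) (hc : r ^ 2 ^ (n - 1) = c) {g : X → ℤ}
    (hg : ∀ x, g (c x) = - g x) (y : X) {z : ℂ} (hz : z ^ 2 ^ (n - 1) = -1) :
    S r n g y z = 2 * ∑ j ∈ range (2 ^ (n - 1)), (g ((r ^ j) y) : ℂ) * z ^ j := by
  unfold S
  rw [← half_pow hn, sum_range_add, two_mul]
  congr 1
  refine sum_congr rfl fun j _ => ?_
  have h1 : (r ^ (2 ^ (n - 1) + j)) y = c ((r ^ j) y) := by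
    rw [pow_add, hc]
    rfl
  rw [h1, hg, pow_add, hz]
  push_cast
  ring

lemma prim_half {n : ℕ} (hn : 1 ≤ n) {z : ℂ} (hz : IsPrimitiveRoot z (2 ^ n)) :
    z ^ 2 ^ (n - 1) = -1 := by
  have h1 : (z ^ 2 ^ (n - 1)) ^ 2 = 1 := by
    rw [← pow_mul, ← pow_succ, Nat.sub_add_cancel hn]
    exact hz.pow_eq_one
  have h2 : z ^ 2 ^ (n - 1) ≠ 1 := by
    intro h
    have h3 := hz.dvd_of_pow_eq_one _ h
    have h4 := Nat.le_of_dvd (by positivity) h3
    have h5 : 2 ^ (n - 1) < 2 ^ n := Nat.pow_lt_pow_right (by norm_num) (by omega)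
    omega
  exact (mul_self_eq_one_iff.1 (by rw [← sq]; exact h1)).resolve_left h2

lemma S_zero (h1 : T_LI) {r c : Equiv.Perm X} {n : ℕ} (hn : 1 ≤ n) (hc : r ^ 2 ^ (n - 1) = c)
    {g : X → ℤ} (hg : ∀ x, g (c x) = - g x) (y : X) {z : ℂ} (hz : IsPrimitiveRoot z (2 ^ n))
    (h0 : S r n g y z = 0) : ∀ k : ℕ, g ((r ^ k) y) = 0 := by
  rw [S_half hn hc hg y (prim_half hn hz)] at h0
  have h2 := h1 n hn z hz (fun j => g ((r ^ j) y)) ((mul_eq_zero.1 h0).resolve_left two_ne_zero)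
  intro k
  induction k using Nat.strong_induction_on with
  | _ k ih =>
    by_cases hk : k < 2 ^ (n - 1)
    · exact h2 k hk
    · push Not at hk
      have h3 : (r ^ k) y = c ((r ^ (k - 2 ^ (n - 1))) y) := by
        rw [← hc, ← Equiv.Perm.mul_apply, ← pow_add, Nat.add_sub_cancel' hk]
      rw [h3, hg, ih _ (by have : 0 < 2 ^ (n - 1) := by positivity
                           omega), neg_zero]

lemma typ_ne (h1 : T_LI) {r c : Equiv.Perm X} {n : ℕ} (hn : 1 ≤ n) (hc : r ^ 2 ^ (n - 1) = c)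
    {ε : X → ℤ} (hε : Typ c ε) (y : X) {z : ℂ} (hz : IsPrimitiveRoot z (2 ^ n)) :
    S r n ε y z ≠ 0 := by
  intro h0
  have h2 := S_zero h1 hn hc hε.2 y hz h0 0
  rcases hε.1 ((r ^ 0) y) with h | h <;> rw [h] at h2 <;> norm_num at h2

lemma shift (u : ℕ → ℂ) (N : ℕ) (hu : ∀ k, u (k + N) = u k) (j : ℕ) :
    ∑ k ∈ range N, u (k + j) = ∑ k ∈ range N, u k := by
  induction j with
  | zero => simp
  | succ j ih =>
    rw [← ih]
    have h1 := sum_range_succ' (fun k => u (k + j)) N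
    have h2 := sum_range_succ (fun k => u (k + j)) N
    rw [h1] at h2
    simp only [zero_add] at h2
    rw [show N + j = j + N from add_comm _ _, hu] at h2
    have h3 := add_right_cancel h2
    rw [← h3]
    refine sum_congr rfl fun k _ => ?_
    congr 1
    ring

theorem cyc (h1 : T_LI) : T_CYC := by
  intro X _ H c hC r n hr hn ho hc htr ε hε f hf
  rcases isEmpty_or_nonempty X with hX | ⟨⟨x0⟩⟩
  · funext x
    exact (hX.false x).elim
  obtain ⟨ζ, hζ⟩ : ∃ ζ : ℂ, IsPrimitiveRoot ζ (2 ^ n) :=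
    ⟨_, Complex.isPrimitiveRoot_exp (2 ^ n) (by positivity)⟩
  have hζ0 : ζ ≠ 0 := hζ.ne_zero (by positivity)
  have hrN : r ^ 2 ^ n = 1 := by
    rw [← ho]
    exact pow_orderOf_eq_one r
  have hinj : ∀ i < 2 ^ n, ∀ j < 2 ^ n, (r ^ i) x0 = (r ^ j) x0 → i = j := by
    intro i hi j hj hij
    have h2 : r ^ i = r ^ j := by
      ext y
      obtain ⟨k, rfl⟩ := htr x0 y
      rw [← Equiv.Perm.mul_apply, ← Equiv.Perm.mul_apply, ← pow_add, ← pow_add, add_comm i,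
        add_comm j, pow_add, pow_add, Equiv.Perm.mul_apply, Equiv.Perm.mul_apply, hij]
    rw [← ho] at hi hj
    exact pow_injOn_Iio_orderOf hi hj h2
  have hsurj : ∀ y : X, ∃ j < 2 ^ n, (r ^ j) x0 = y := by
    intro y
    obtain ⟨k, rfl⟩ := htr x0 y
    refine ⟨k % 2 ^ n, Nat.mod_lt _ (by positivity), ?_⟩
    rw [← ho, pow_mod_orderOf]
  have hsum : ∀ g : X → ℤ, ∑ x, g x = ∑ j ∈ range (2 ^ n), g ((r ^ j) x0) := by
    intro g
    symm
    refine Finset.sum_nbij (fun j => (r ^ j) x0) (fun _ _ => mem_univ _) ?_ ?_ (fun _ _ => rfl)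
    · intro i hi j hj hij
      exact hinj i (by simpa using hi) j (by simpa using hj) hij
    · intro y _
      obtain ⟨j, hj, hy⟩ := hsurj y
      exact ⟨j, by simpa using hj, hy⟩
  have hrel : ∀ k : ℕ, ∑ j ∈ range (2 ^ n), f ((r ^ (k + j)) x0) * ε ((r ^ j) x0) = 0 := by
    intro k
    have h2 := hf.2 (r ^ k) (H.pow_mem hr k)
    rw [hsum] at h2
    rw [← h2]
    refine sum_congr rfl fun j _ => ?_
    rw [pow_add]
    rfl
  have hprod : S r n ε x0 ζ⁻¹ * S r n f x0 ζ = 0 := by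
    have h3 : ∀ j, S r n f x0 ζ =
        ∑ k ∈ range (2 ^ n), (f ((r ^ (k + j)) x0) : ℂ) * ζ ^ (k + j) := by
      intro j
      unfold S
      symm
      apply shift (fun i => (f ((r ^ i) x0) : ℂ) * ζ ^ i) (2 ^ n)
      intro k
      rw [pow_add r, hrN, mul_one, pow_add ζ, hζ.pow_eq_one, mul_one]
    calc S r n ε x0 ζ⁻¹ * S r n f x0 ζ
        = ∑ j ∈ range (2 ^ n), (ε ((r ^ j) x0) : ℂ) * ζ⁻¹ ^ j * S r n f x0 ζ := by
          rw [S, sum_mul]
      _ = ∑ j ∈ range (2 ^ n), ∑ k ∈ range (2 ^ n),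
            ζ ^ k * ((f ((r ^ (k + j)) x0) * ε ((r ^ j) x0) : ℤ) : ℂ) := by
          refine sum_congr rfl fun j _ => ?_
          rw [h3 j, mul_sum]
          refine sum_congr rfl fun k _ => ?_
          have h4 : ζ⁻¹ ^ j * ζ ^ (k + j) = ζ ^ k := by
            rw [pow_add, inv_pow]
            field_simp
          calc _ = (ζ⁻¹ ^ j * ζ ^ (k + j)) *
                ((f ((r ^ (k + j)) x0) : ℂ) * (ε ((r ^ j) x0) : ℂ)) := by ring
            _ = _ := by
              rw [h4]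
              push_cast
              ring
      _ = ∑ k ∈ range (2 ^ n), ζ ^ k *
            ((∑ j ∈ range (2 ^ n), f ((r ^ (k + j)) x0) * ε ((r ^ j) x0) : ℤ) : ℂ) := by
          rw [sum_comm]
          refine sum_congr rfl fun k _ => ?_
          push_cast
          rw [mul_sum]
      _ = 0 := by
          refine sum_eq_zero fun k _ => ?_
          rw [hrel k]
          simp
  have hF := (mul_eq_zero.1 hprod).resolve_left (typ_ne h1 hn hc hε x0 hζ.inv)
  funext y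
  obtain ⟨j, -, rfl⟩ := hsurj y
  exact S_zero h1 hn hc hf.1 x0 hζ hF j

theorem quat (h1 : T_LI) (h2 : T_REL) : T_QUAT := by
  intro X _ H c hC r t n hT htt htr ε hε f hf
  have hn : 1 ≤ n := le_trans (by norm_num) hT.two
  obtain ⟨ζ, hζ⟩ : ∃ ζ : ℂ, IsPrimitiveRoot ζ (2 ^ n) :=
    ⟨_, Complex.isPrimitiveRoot_exp (2 ^ n) (by positivity)⟩
  have hζ0 : ζ ≠ 0 := hζ.ne_zero (by positivity)
  have hrN : r ^ 2 ^ n = 1 := by
    rw [← hT.ord]
    exact pow_orderOf_eq_one r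
  have hN : 2 ^ n - 1 + 1 = 2 ^ n := Nat.sub_add_cancel Nat.one_le_two_pow
  have hσ : t * r * t⁻¹ = r ^ (2 ^ n - 1) := by
    rw [htr]
    symm
    apply eq_inv_of_mul_eq_one_left
    rw [← pow_succ, hN, hrN]
  have hζσ : ζ⁻¹ ^ (2 ^ n - 1) = ζ := by
    have h3 : ζ⁻¹ ^ (2 ^ n - 1) * ζ⁻¹ = 1 := by
      rw [← pow_succ, hN, inv_pow, hζ.pow_eq_one, inv_one]
    calc ζ⁻¹ ^ (2 ^ n - 1) = ζ⁻¹ ^ (2 ^ n - 1) * ζ⁻¹ * ζ := by
          rw [mul_assoc, inv_mul_cancel₀ hζ0, mul_one]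
      _ = ζ := by rw [h3, one_mul]
  have hall : ∀ x0 : X, (∀ k : ℕ, f ((r ^ k) x0) = 0) ∧ ∀ k : ℕ, f ((r ^ k) (t x0)) = 0 := by
    intro x0
    have h3 := h2 X H c hC r t n hT (2 ^ n - 1) hσ (-1) (Or.inr ⟨rfl, htt⟩) ε f hε hf x0 ζ
      hζ.pow_eq_one
    rw [hζσ] at h3
    change S r n ε x0 ζ⁻¹ * S r n f x0 ζ + S r n ε (t x0) ζ⁻¹ * S r n f (t x0) ζ = 0 ∧
      S r n ε x0 ζ * S r n f (t x0) ζ + ((-1 : ℤ) : ℂ) * S r n ε (t x0) ζ * S r n f x0 ζ = 0
      at h3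
    obtain ⟨e1, e2⟩ := h3
    have hconj : ∀ y : X, S r n ε y ζ⁻¹ = (starRingEnd ℂ) (S r n ε y ζ) := by
      intro y
      unfold S
      rw [map_sum]
      refine sum_congr rfl fun j _ => ?_
      have h4 : ζ⁻¹ = (starRingEnd ℂ) ζ :=
        Complex.inv_eq_conj (hζ.norm'_eq_one (by positivity))
      rw [map_mul, map_pow, h4]
      simp
    set A := S r n ε x0 ζ with hA
    set B := S r n ε (t x0) ζ with hB
    set F := S r n f x0 ζ with hF
    set G := S r n f (t x0) ζ with hG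
    rw [hconj x0, hconj (t x0), ← hA, ← hB] at e1
    have hA0 : A ≠ 0 := typ_ne h1 hn hT.pow hε x0 hζ
    have hAG : A * G = B * F := by
      push_cast at e2
      linear_combination e2
    have hmul : ((Complex.normSq A + Complex.normSq B : ℝ) : ℂ) * F = 0 := by
      push_cast
      rw [Complex.normSq_eq_conj_mul_self, Complex.normSq_eq_conj_mul_self]
      linear_combination A * e1 - (starRingEnd ℂ) B * hAG
    have hpos : 0 < Complex.normSq A + Complex.normSq B :=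
      add_pos_of_pos_of_nonneg (Complex.normSq_pos.2 hA0) (Complex.normSq_nonneg B)
    have hF0 : F = 0 := (mul_eq_zero.1 hmul).resolve_left (by exact_mod_cast hpos.ne')
    have hG0 : G = 0 := by
      rw [hF0, mul_zero] at hAG
      exact (mul_eq_zero.1 hAG).resolve_left hA0
    exact ⟨S_zero h1 hn hT.pow hf.1 x0 hζ hF0, S_zero h1 hn hT.pow hf.1 (t x0) hζ hG0⟩
  funext y
  exact (hall y).1 0

end Pool.Agent.ECF.CYCQ_

namespace Pool.Agent.ECF

theorem p_CYC (h1 : T_LI) : T_CYC := CYCQ_.cyc h1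

theorem p_QUAT (h1 : T_LI) (h2 : T_REL) : T_QUAT := CYCQ_.quat h1 h2

end Pool.Agent.ECF
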