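import Mathlib
import Pool.Agent.ECF.Targets

set_option autoImplicit false

/-!
# Dihedral, quaternion and semidihedral groups of order at least 16 (target T_DSD)
-/

namespace Pool.Agent.ECF

open Finset
open scoped BigOperators

namespace DSD_

/-- a shift of a cycle of length `m` -/
def nxt (m l : ℕ) : ℕ := if l + 1 < m then l + 1 else 0

lemma half_sum (e : ℕ → ℤ) (m : ℕ) (he : ∀ j, e (j + m) = - e j) (z : ℂ) (hz : z ^ m = -1) :
    ∑ j ∈ range (m + m), (e j : ℂ) * z ^ j = 2 * ∑ j ∈ range m, (e j : ℂ) * z ^ j := by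
  rw [sum_range_add, two_mul]
  congr 1
  apply sum_congr rfl
  intro j _
  rw [add_comm m j, he, pow_add, hz]
  push_cast
  ring

/-- sums of signs modulo `4` -/
lemma sum_signs (u : ℕ → ℤ) (m : ℕ) (hu : ∀ l < m, u l = 1 ∨ u l = -1) :
    (∏ l ∈ range m, u l = 1 ∨ ∏ l ∈ range m, u l = -1) ∧
      (4 : ℤ) ∣ (∑ l ∈ range m, u l) - (m - 1 + ∏ l ∈ range m, u l) := by
  induction m with
  | zero => simp
  | succ m ih =>
    obtain ⟨h1, h2⟩ := ih fun l hl => hu l (by omega)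
    rw [prod_range_succ, sum_range_succ]
    push_cast
    set P := ∏ l ∈ range m, u l with hP
    set S := ∑ l ∈ range m, u l with hS
    rcases hu m (by omega) with h3 | h3 <;> rcases h1 with h4 | h4 <;> rw [h3, h4] <;>
      rw [h4] at h2 <;> refine ⟨by norm_num, ?_⟩ <;> omega

lemma prod_nxt (e : ℕ → ℤ) (M : ℕ) :
    ∏ l ∈ range (M + 1), e (nxt (M + 1) l) = ∏ l ∈ range (M + 1), e l := by
  rw [prod_range_succ, prod_range_succ' e M]
  congr 1
  · apply prod_congr rfl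
    intro l hl
    rw [mem_range] at hl
    simp [nxt, hl]
  · simp [nxt]

lemma prod_neg_one_pow (N : ℕ) : ∏ l ∈ range N, (-1 : ℤ) ^ l = (-1) ^ (N * (N - 1) / 2) := by
  rw [prod_pow_eq_pow_sum, ← Finset.sum_range_id]

/-- the sign which comes from the reduction of the exponent -/
def sg (m σ l : ℕ) : ℤ := (-1) ^ ((nxt m l + σ * l) / m)

lemma exp1 (m l : ℕ) (hm : 2 ≤ m) (hl : l < m) :
    nxt m l + (2 * m - 1) * l = 1 + m * (if l + 1 < m then 2 * l else 2 * m - 3) := by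
  obtain ⟨k, rfl⟩ : ∃ k, m = k + 2 := ⟨m - 2, by omega⟩
  have e1 : 2 * (k + 2) - 1 = 2 * k + 3 := by omega
  have e2 : 2 * (k + 2) - 3 = 2 * k + 1 := by omega
  rw [e1, e2, nxt]
  split_ifs with h
  · ring
  · have : l = k + 1 := by omega
    subst this
    ring

lemma exp2 (m l : ℕ) (hm : 2 ≤ m) (hl : l < m) :
    nxt m l + (m - 1) * l = 1 + m * (if l + 1 < m then l else m - 2) := by
  obtain ⟨k, rfl⟩ : ∃ k, m = k + 2 := ⟨m - 2, by omega⟩
  have e1 : k + 2 - 1 = k + 1 := by omega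
  have e2 : k + 2 - 2 = k := by omega
  rw [e1, e2, nxt]
  split_ifs with h
  · ring
  · have : l = k + 1 := by omega
    subst this
    ring

lemma div_one_add (m q : ℕ) (hm : 2 ≤ m) : (1 + m * q) / m = q := by
  rw [Nat.add_mul_div_left _ _ (by omega), Nat.div_eq_of_lt (by omega), zero_add]

lemma prod_sg (m σ : ℕ) (hm : 4 ∣ m) (hm0 : 0 < m) (hσ : σ = 2 * m - 1 ∨ σ = m - 1) :
    ∏ l ∈ range m, sg m σ l = -1 := by
  obtain ⟨q, rfl⟩ := hm
  obtain ⟨k, hk⟩ : ∃ k, 4 * q = k + 1 := ⟨4 * q - 1, by omega⟩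
  have hq : 1 ≤ q := by omega
  rcases hσ with rfl | rfl
  · have h1 : ∀ l ∈ range (4 * q), sg (4 * q) (2 * (4 * q) - 1) l =
        if l + 1 < 4 * q then 1 else -1 := by
      intro l hl
      rw [mem_range] at hl
      rw [sg, exp1 _ _ (by omega) hl, div_one_add _ _ (by omega)]
      split_ifs with h
      · rw [pow_mul]; norm_num
      · exact Odd.neg_one_pow ⟨4 * q - 2, by omega⟩
    rw [prod_congr rfl h1, hk, prod_range_succ]
    have h2 : ∏ l ∈ range k, (if l + 1 < k + 1 then (1 : ℤ) else -1) = 1 := by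
      apply prod_eq_one
      intro l hl
      rw [mem_range] at hl
      rw [if_pos (by omega)]
    rw [h2]
    simp
  · have h1 : ∀ l ∈ range (4 * q), sg (4 * q) (4 * q - 1) l =
        if l + 1 < 4 * q then (-1) ^ l else 1 := by
      intro l hl
      rw [mem_range] at hl
      rw [sg, exp2 _ _ (by omega) hl, div_one_add _ _ (by omega)]
      split_ifs with h
      · rfl
      · exact Even.neg_one_pow ⟨2 * q - 1, by omega⟩
    rw [prod_congr rfl h1, hk, prod_range_succ]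
    have h2 : ∏ l ∈ range k, (if l + 1 < k + 1 then (-1 : ℤ) ^ l else 1) =
        ∏ l ∈ range k, (-1 : ℤ) ^ l := by
      apply prod_congr rfl
      intro l hl
      rw [mem_range] at hl
      rw [if_pos (by omega)]
    rw [h2, prod_neg_one_pow]
    have h3 : Odd (k * (k - 1) / 2) := by
      obtain ⟨p, rfl⟩ : ∃ p, q = p + 1 := ⟨q - 1, by omega⟩
      have hk2 : k = 4 * p + 3 := by omega
      have h4 : k * (k - 1) / 2 = (4 * p + 3) * (2 * p + 1) := by
        rw [hk2]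
        have : (4 * p + 3) * (4 * p + 3 - 1) = ((4 * p + 3) * (2 * p + 1)) * 2 := by
          have : 4 * p + 3 - 1 = 4 * p + 2 := by omega
          rw [this]; ring
        rw [this, Nat.mul_div_cancel _ (by norm_num)]
      rw [h4]
      exact Odd.mul ⟨2 * p + 1, by ring⟩ ⟨p, by ring⟩
    rw [Odd.neg_one_pow h3]
    simp

lemma mod_iff (m σ j l : ℕ) (hm : 2 ≤ m) (hj : j < m) (hl : l < m)
    (hσ : σ = 2 * m - 1 ∨ σ = m - 1) : (j + σ * l) % m = 1 ↔ j = nxt m l := by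
  have key : ∃ q, nxt m l + σ * l = 1 + m * q := by
    rcases hσ with rfl | rfl
    · exact ⟨_, exp1 m l hm hl⟩
    · exact ⟨_, exp2 m l hm hl⟩
  obtain ⟨q, hq⟩ := key
  have hn : nxt m l < m := by unfold nxt; split_ifs <;> omega
  have h1 : (nxt m l + σ * l) % m = 1 := by
    rw [hq, Nat.add_mul_mod_self_left, Nat.mod_eq_of_lt (by omega)]
  constructor
  · intro h
    have h2 : (j + σ * l) ≡ (nxt m l + σ * l) [MOD m] := by
      unfold Nat.ModEq; rw [h, h1]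
    have h3 := Nat.ModEq.add_right_cancel' _ h2
    exact Nat.ModEq.eq_of_lt_of_lt h3 hj hn
  · rintro rfl; exact h1

lemma nxt_add_odd (m l : ℕ) (hm : 2 ∣ m) (hl : l < m) : Odd (nxt m l + l) := by
  unfold nxt
  split_ifs with h
  · exact ⟨l, by ring⟩
  · obtain ⟨k, rfl⟩ := hm
    exact ⟨k - 1, by omega⟩

/-- the arithmetic contradiction -/
lemma arith (m : ℕ) (hm : 4 ∣ m) (hm0 : 0 < m) (e : ℕ → ℤ) (he : ∀ j < m, e j = 1 ∨ e j = -1)
    (w : ℂ) (hw : w ^ m = -1)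
    (hLI : ∀ a : ℕ → ℤ, ∑ j ∈ range m, (a j : ℂ) * w ^ j = 0 → ∀ j < m, a j = 0)
    (σ : ℕ) (hσ : σ = 2 * m - 1 ∨ σ = m - 1) :
    (∑ j ∈ range m, (e j : ℂ) * w ^ j) * (∑ j ∈ range m, (e j : ℂ) * (w ^ σ) ^ j) ≠
      (∑ j ∈ range m, (((-1) ^ j * e j : ℤ) : ℂ) * w ^ j) *
        (∑ j ∈ range m, (((-1) ^ j * e j : ℤ) : ℂ) * (w ^ σ) ^ j) := by
  intro heq
  have hm2 : 2 ≤ m := by obtain ⟨q, rfl⟩ := hm; omega
  -- coefficients
  set A : ℕ → ℤ := fun i => ∑ l ∈ range m, ∑ j ∈ range m,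
    if (j + σ * l) % m = i then (1 - (-1) ^ (j + l)) * (-1) ^ ((j + σ * l) / m) * (e j * e l)
      else 0 with hA
  have hred : ∀ k : ℕ, w ^ k = (((-1) ^ (k / m) : ℤ) : ℂ) * w ^ (k % m) := by
    intro k
    conv_lhs => rw [← Nat.div_add_mod k m, pow_add, pow_mul, hw]
    push_cast
    rfl
  have hsum : ∑ i ∈ range m, (A i : ℂ) * w ^ i = 0 := by
    have h1 : ∀ l ∈ range m, ∀ j ∈ range m, ∑ i ∈ range m,
        ((if (j + σ * l) % m = i then (1 - (-1) ^ (j + l)) * (-1) ^ ((j + σ * l) / m) *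
          (e j * e l) else 0 : ℤ) : ℂ) * w ^ i =
        (e j : ℂ) * w ^ j * ((e l : ℂ) * (w ^ σ) ^ l) -
          (((-1) ^ j * e j : ℤ) : ℂ) * w ^ j * ((((-1) ^ l * e l : ℤ) : ℂ) * (w ^ σ) ^ l) := by
      intro l _ j _
      rw [sum_eq_single ((j + σ * l) % m)]
      · rw [if_pos rfl]
        have h2 : w ^ j * (w ^ σ) ^ l = (((-1) ^ ((j + σ * l) / m) : ℤ) : ℂ) *
            w ^ ((j + σ * l) % m) := by
          rw [← hred, pow_add, pow_mul]
        have h3 : (e j : ℂ) * w ^ j * ((e l : ℂ) * (w ^ σ) ^ l) -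
            (((-1) ^ j * e j : ℤ) : ℂ) * w ^ j * ((((-1) ^ l * e l : ℤ) : ℂ) * (w ^ σ) ^ l) =
            (((1 - (-1) ^ (j + l)) * (e j * e l) : ℤ) : ℂ) * (w ^ j * (w ^ σ) ^ l) := by
          push_cast
          ring
        rw [h3, h2]
        push_cast
        ring
      · intro i _ hi
        rw [if_neg (fun h => hi h.symm)]
        simp
      · intro hi
        exact absurd (mem_range.2 (Nat.mod_lt _ hm0)) hi
    have h4 : ∑ i ∈ range m, (A i : ℂ) * w ^ i =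
        ∑ l ∈ range m, ∑ j ∈ range m, ((e j : ℂ) * w ^ j * ((e l : ℂ) * (w ^ σ) ^ l) -
          (((-1) ^ j * e j : ℤ) : ℂ) * w ^ j * ((((-1) ^ l * e l : ℤ) : ℂ) * (w ^ σ) ^ l)) := by
      simp only [hA, Int.cast_sum, sum_mul]
      rw [sum_comm]
      apply sum_congr rfl
      intro l hl
      rw [sum_comm]
      apply sum_congr rfl
      intro j hj
      exact h1 l hl j hj
    rw [h4]
    simp only [sum_sub_distrib]
    rw [sum_mul_sum, sum_mul_sum] at heq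
    rw [sub_eq_zero, sum_comm, heq, sum_comm]
  have hA1 : A 1 = 0 := hLI A hsum 1 (by omega)
  have hA2 : A 1 = 2 * ∑ l ∈ range m, sg m σ l * (e (nxt m l) * e l) := by
    simp only [hA]
    rw [mul_sum]
    apply sum_congr rfl
    intro l hl
    rw [mem_range] at hl
    have hn : nxt m l < m := by unfold nxt; split_ifs <;> omega
    rw [sum_eq_single (nxt m l)]
    · rw [if_pos ((mod_iff m σ _ l hm2 hn hl hσ).2 rfl),
        Odd.neg_one_pow (nxt_add_odd m l (Dvd.dvd.trans (by norm_num) hm) hl)]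
      unfold sg
      ring
    · intro j hj hne
      rw [mem_range] at hj
      rw [if_neg fun h => hne ((mod_iff m σ j l hm2 hj hl hσ).1 h)]
    · intro h
      exact absurd (mem_range.2 hn) h
  have hsg : ∀ l, sg m σ l = 1 ∨ sg m σ l = -1 := fun l => by
    unfold sg; exact neg_one_pow_eq_or ℤ _
  have hu : ∀ l < m, sg m σ l * (e (nxt m l) * e l) = 1 ∨
      sg m σ l * (e (nxt m l) * e l) = -1 := by
    intro l hl
    have hn : nxt m l < m := by unfold nxt; split_ifs <;> omega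
    rcases hsg l with h1 | h1 <;> rcases he l hl with h2 | h2 <;>
      rcases he _ hn with h3 | h3 <;> rw [h1, h2, h3] <;> norm_num
  obtain ⟨-, h4⟩ := sum_signs _ m hu
  have hprod : ∏ l ∈ range m, sg m σ l * (e (nxt m l) * e l) = -1 := by
    rw [prod_mul_distrib, prod_mul_distrib, prod_sg m σ hm hm0 hσ]
    have h5 : ∏ l ∈ range m, e (nxt m l) = ∏ l ∈ range m, e l := by
      obtain ⟨M, rfl⟩ : ∃ M, m = M + 1 := ⟨m - 1, by omega⟩
      exact prod_nxt e M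
    rw [h5, ← prod_mul_distrib]
    have h6 : ∏ l ∈ range m, e l * e l = 1 := by
      apply prod_eq_one
      intro l hl
      rcases he l (mem_range.1 hl) with h | h <;> rw [h] <;> norm_num
    rw [h6]; norm_num
  rw [hprod] at h4
  have h7 : ∑ l ∈ range m, sg m σ l * (e (nxt m l) * e l) = 0 := by
    rw [hA2] at hA1; omega
  rw [h7] at h4
  obtain ⟨q, rfl⟩ := hm
  push_cast at h4
  omega

/-- the sign function: `-1` on the odd powers of `r` -/
noncomputable def sgn {X : Type} (r : Equiv.Perm X) (x₀ x : X) : ℤ :=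
  open Classical in if ∃ k : ℕ, (r ^ (2 * k + 1)) x₀ = x then -1 else 1

lemma sgn_sq {X : Type} (r : Equiv.Perm X) (x₀ x : X) : sgn r x₀ x * sgn r x₀ x = 1 := by
  classical
  unfold sgn
  split_ifs <;> norm_num

lemma sgn_cases {X : Type} (r : Equiv.Perm X) (x₀ x : X) :
    sgn r x₀ x = 1 ∨ sgn r x₀ x = -1 := by
  classical
  unfold sgn
  split_ifs
  · exact Or.inr rfl
  · exact Or.inl rfl

section
variable {X : Type} {H : Subgroup (Equiv.Perm X)} {c r t : Equiv.Perm X} {n : ℕ}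

lemma pow_inj (hT : Two H c r t n) {x₀ : X} {i j : ℕ} (h : (r ^ i) x₀ = (r ^ j) x₀) :
    r ^ i = r ^ j := by
  have h1 : ((r ^ j)⁻¹ * r ^ i) x₀ = x₀ := by
    rw [Equiv.Perm.mul_apply, h]
    exact Equiv.symm_apply_apply _ _
  have h2 := hT.reg _ (H.mul_mem (H.inv_mem (H.pow_mem hT.memr j)) (H.pow_mem hT.memr i)) x₀ h1
  have h3 : r ^ j * ((r ^ j)⁻¹ * r ^ i) = r ^ j * 1 := by rw [h2]
  rw [mul_inv_cancel_left, mul_one] at h3
  exact h3

lemma not_pow_t (hT : Two H c r t n) {x₀ : X} (i j : ℕ) : (r ^ i) x₀ ≠ (r ^ j) (t x₀) := by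
  intro h
  have h1 : ((r ^ j * t)⁻¹ * r ^ i) x₀ = x₀ := by
    rw [Equiv.Perm.mul_apply, h, ← Equiv.Perm.mul_apply (r ^ j) t]
    exact Equiv.symm_apply_apply _ _
  have h2 := hT.reg _ (H.mul_mem (H.inv_mem (H.mul_mem (H.pow_mem hT.memr j) hT.memt))
    (H.pow_mem hT.memr i)) x₀ h1
  have h3 : r ^ i = r ^ j * t := by
    have : (r ^ j * t) * ((r ^ j * t)⁻¹ * r ^ i) = (r ^ j * t) * 1 := by rw [h2]
    rw [mul_inv_cancel_left, mul_one] at this
    exact this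
  have hord : r ^ 2 ^ n = 1 := by rw [← hT.ord]; exact pow_orderOf_eq_one r
  have h4 : r ^ (2 ^ n * j - j) * r ^ j = 1 := by
    rw [← pow_add, Nat.sub_add_cancel (Nat.le_mul_of_pos_left j (by positivity)), pow_mul, hord,
      one_pow]
  apply hT.nt (2 ^ n * j - j + i)
  rw [pow_add, h3, ← mul_assoc, h4, one_mul]

lemma sgn_pow (hT : Two H c r t n) (x₀ : X) (j : ℕ) : sgn r x₀ ((r ^ j) x₀) = (-1) ^ j := by
  classical
  rcases Nat.even_or_odd j with hj | hj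
  · rw [Even.neg_one_pow hj, sgn, if_neg]
    rintro ⟨k, hk⟩
    have h1 := pow_inj hT hk
    rw [pow_eq_pow_iff_modEq, hT.ord] at h1
    have h2 : (2 * k + 1) ≡ j [MOD 2] :=
      h1.of_dvd (dvd_pow_self 2 (by have := hT.two; omega))
    obtain ⟨a, ha⟩ := hj
    unfold Nat.ModEq at h2
    omega
  · rw [Odd.neg_one_pow hj, sgn, if_pos]
    obtain ⟨k, rfl⟩ := hj
    exact ⟨k, rfl⟩

lemma sgn_t (hT : Two H c r t n) (x₀ : X) (j : ℕ) : sgn r x₀ ((r ^ j) (t x₀)) = 1 := by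
  classical
  rw [sgn, if_neg]
  rintro ⟨k, hk⟩
  exact not_pow_t hT _ _ hk

lemma cover (hC : Cx H c) (hT : Two H c r t n) (x₀ x : X) :
    ∃ j : ℕ, x = (r ^ j) x₀ ∨ x = (r ^ j) (t x₀) := by
  obtain ⟨h, hh, rfl⟩ := hC.trans x₀ x
  obtain ⟨k, rfl | rfl⟩ := hT.cov h hh
  · exact ⟨k, Or.inl rfl⟩
  · exact ⟨k, Or.inr rfl⟩

lemma c_pow (hT : Two H c r t n) (j : ℕ) (x : X) :
    (r ^ (j + 2 ^ (n - 1))) x = c ((r ^ j) x) := by
  rw [add_comm, pow_add, hT.pow]; rfl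

lemma sgn_c (hC : Cx H c) (hT : Two H c r t n) (x₀ x : X) : sgn r x₀ (c x) = sgn r x₀ x := by
  obtain ⟨j, rfl | rfl⟩ := cover hC hT x₀ x
  · rw [← c_pow hT, sgn_pow hT, sgn_pow hT, pow_add]
    have : Even (2 ^ (n - 1)) := by
      have := hT.two
      exact (Nat.even_pow.2 ⟨even_two, by omega⟩)
    rw [Even.neg_one_pow this, mul_one]
  · rw [← c_pow hT, sgn_t hT, sgn_t hT]

/-- if both Fourier coefficients of `f` vanish then `f = 0` -/
lemma f_zero (h1 : T_LI) (hC : Cx H c) (hT : Two H c r t n) (f : X → ℤ)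
    (hf : ∀ x, f (c x) = - f x) (x₀ : X) (ζ : ℂ) (hζ : IsPrimitiveRoot ζ (2 ^ n))
    (hm1 : ζ ^ 2 ^ (n - 1) = -1)
    (hF : ∑ j ∈ range (2 ^ n), (f ((r ^ j) x₀) : ℂ) * ζ ^ j = 0)
    (hFt : ∑ j ∈ range (2 ^ n), (f ((r ^ j) (t x₀)) : ℂ) * ζ ^ j = 0) : f = 0 := by
  have hn : 1 ≤ n := by have := hT.two; omega
  have h2n : 2 ^ n = 2 ^ (n - 1) + 2 ^ (n - 1) := by
    obtain ⟨k, rfl⟩ : ∃ k, n = k + 1 := ⟨n - 1, by omega⟩
    rw [pow_succ]; simp; ring
  have key : ∀ y : X, ∑ j ∈ range (2 ^ n), (f ((r ^ j) y) : ℂ) * ζ ^ j = 0 →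
      ∀ j, f ((r ^ j) y) = 0 := by
    intro y hy j
    have he : ∀ j, f ((r ^ (j + 2 ^ (n - 1))) y) = - f ((r ^ j) y) := fun j => by
      rw [c_pow hT, hf]
    rw [h2n, half_sum (fun j => f ((r ^ j) y)) (2 ^ (n - 1)) he ζ hm1] at hy
    have h3 : ∑ j ∈ range (2 ^ (n - 1)), (f ((r ^ j) y) : ℂ) * ζ ^ j = 0 := by
      rcases mul_eq_zero.1 hy with h | h
      · norm_num at h
      · exact h
    have h4 := h1 n hn ζ hζ (fun j => f ((r ^ j) y)) h3
    have h5 : ∀ q j, j < 2 ^ (n - 1) → f ((r ^ (j + q * 2 ^ (n - 1))) y) = 0 := by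
      intro q
      induction q with
      | zero => intro j hj; simpa using h4 j hj
      | succ q ih =>
        intro j hj
        rw [add_mul, one_mul, ← add_assoc, he, ih j hj, neg_zero]
    have h6 := h5 (j / 2 ^ (n - 1)) (j % 2 ^ (n - 1)) (Nat.mod_lt _ (by positivity))
    rwa [mul_comm, Nat.mod_add_div] at h6
  funext x
  obtain ⟨j, rfl | rfl⟩ := cover hC hT x₀ x
  · exact key x₀ hF j
  · exact key (t x₀) hFt j

end

end DSD_

open DSD_ in
theorem p_DSD (h1 : T_LI) (h2 : T_REL) : T_DSD := by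
  intro X _ H c hC hne r t n hT hn hcase
  obtain ⟨x₀⟩ := hne
  set m : ℕ := 2 ^ (n - 1) with hm
  have h4m : 4 ∣ m := by
    obtain ⟨k, rfl⟩ : ∃ k, n = k + 3 := ⟨n - 3, by omega⟩
    exact ⟨2 ^ k, by rw [hm]; simp [pow_succ]; ring⟩
  have hm0 : 0 < m := by positivity
  have h2n : 2 ^ n = m + m := by
    obtain ⟨k, rfl⟩ : ∃ k, n = k + 1 := ⟨n - 1, by omega⟩
    rw [hm, pow_succ]; simp; ring
  have hr2 : r ^ (m + m) = 1 := by rw [← h2n, ← hT.ord]; exact pow_orderOf_eq_one r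
  have hrm : r ^ m = c := hT.pow
  -- the exponent
  obtain ⟨σ, hσ, hσr⟩ : ∃ σ, (σ = 2 * m - 1 ∨ σ = m - 1) ∧ t * r * t⁻¹ = r ^ σ := by
    rcases hcase with h | h
    · refine ⟨2 * m - 1, Or.inl rfl, ?_⟩
      rw [h]
      apply inv_eq_of_mul_eq_one_left
      rw [← pow_succ, Nat.sub_add_cancel (by omega), two_mul, hr2]
    · refine ⟨m - 1, Or.inr rfl, ?_⟩
      rw [h, mul_inv_eq_iff_eq_mul, ← pow_succ, Nat.sub_add_cancel hm0, hrm]
  have hσodd : Odd σ := by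
    obtain ⟨q, hq⟩ := h4m
    rcases hσ with rfl | rfl
    · exact ⟨m - 1, by omega⟩
    · exact ⟨2 * q - 1, by omega⟩
  obtain ⟨τ, hτ⟩ : ∃ τ : ℤ, (τ = 1 ∧ t * t = 1) ∨ (τ = -1 ∧ t * t = c) := by
    rcases hT.sqt with h | h
    · exact ⟨1, Or.inl ⟨rfl, h⟩⟩
    · exact ⟨-1, Or.inr ⟨rfl, h⟩⟩
  -- a primitive root
  obtain ⟨ζ, hζ⟩ : ∃ ζ : ℂ, IsPrimitiveRoot ζ (2 ^ n) :=
    ⟨_, Complex.isPrimitiveRoot_exp _ (by positivity)⟩
  have hζ1 : ζ ^ (2 ^ n) = 1 := hζ.pow_eq_one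
  have hζm : ζ ^ m = -1 := by
    have h3 : (ζ ^ m) * (ζ ^ m) = 1 := by rw [← pow_add, ← h2n, hζ1]
    rcases mul_self_eq_one_iff.1 h3 with h | h
    · exfalso
      have := hζ.dvd_of_pow_eq_one m h
      have h5 := Nat.le_of_dvd hm0 this
      omega
    · exact h
  set w : ℂ := ζ⁻¹ with hw
  have hwp : IsPrimitiveRoot w (2 ^ n) := hζ.inv
  have hwm : w ^ m = -1 := by rw [hw, inv_pow, hζm]; norm_num
  have hwσm : (w ^ σ) ^ m = -1 := by
    rw [← pow_mul, mul_comm, pow_mul, hwm, Odd.neg_one_pow hσodd]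
  -- the determinant
  have hdet : ∀ ε : X → ℤ, Typ c ε → ¬ ND H c ε →
      (∑ j ∈ range (2 ^ n), (ε ((r ^ j) x₀) : ℂ) * w ^ j) *
        (∑ j ∈ range (2 ^ n), (ε ((r ^ j) x₀) : ℂ) * (w ^ σ) ^ j) =
      (τ : ℂ) * (∑ j ∈ range (2 ^ n), (ε ((r ^ j) (t x₀)) : ℂ) * w ^ j) *
        (∑ j ∈ range (2 ^ n), (ε ((r ^ j) (t x₀)) : ℂ) * (w ^ σ) ^ j) := by
    intro ε hε hnd
    unfold ND at hnd
    push Not at hnd
    obtain ⟨f, hf, hf0⟩ := hnd
    obtain ⟨e1, e2⟩ := h2 X H c hC r t n hT σ hσr τ hτ ε f hε hf x₀ ζ hζ1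
    rw [← hw] at e1 e2
    set a := ∑ j ∈ range (2 ^ n), (ε ((r ^ j) x₀) : ℂ) * w ^ j
    set b := ∑ j ∈ range (2 ^ n), (ε ((r ^ j) (t x₀)) : ℂ) * w ^ j
    set a' := ∑ j ∈ range (2 ^ n), (ε ((r ^ j) x₀) : ℂ) * (w ^ σ) ^ j
    set b' := ∑ j ∈ range (2 ^ n), (ε ((r ^ j) (t x₀)) : ℂ) * (w ^ σ) ^ j
    set F := ∑ j ∈ range (2 ^ n), (f ((r ^ j) x₀) : ℂ) * ζ ^ j with hF
    set Ft := ∑ j ∈ range (2 ^ n), (f ((r ^ j) (t x₀)) : ℂ) * ζ ^ j with hFt
    have hFne : F ≠ 0 ∨ Ft ≠ 0 := by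
      by_contra hcon
      push Not at hcon
      exact hf0 (f_zero h1 hC hT f hf.1 x₀ ζ hζ hζm hcon.1 hcon.2)
    have d1 : (a * a' - τ * b * b') * F = 0 := by linear_combination a' * e1 - b * e2
    have d2 : (a * a' - τ * b * b') * Ft = 0 := by linear_combination a * e2 - τ * b' * e1
    rcases hFne with h | h
    · have := (mul_eq_zero.1 d1).resolve_right h
      exact sub_eq_zero.1 this
    · have := (mul_eq_zero.1 d2).resolve_right h
      exact sub_eq_zero.1 this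
  refine ⟨fun ε x => sgn r x₀ x * ε x, ?_, ?_, ?_⟩
  · intro ε hε
    refine ⟨fun x => ?_, fun x => ?_⟩
    · rcases sgn_cases r x₀ x with h | h <;> rcases hε.1 x with h' | h' <;>
        simp only [h, h'] <;> norm_num
    · simp only [sgn_c hC hT, hε.2]; ring
  · intro ε _
    funext x
    simp only [← mul_assoc, sgn_sq, one_mul]
  · intro ε hε
    by_contra hcon
    push Not at hcon
    have hι : Typ c (fun x => sgn r x₀ x * ε x) := by
      refine ⟨fun x => ?_, fun x => ?_⟩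
      · rcases sgn_cases r x₀ x with h | h <;> rcases hε.1 x with h' | h' <;>
          simp only [h, h'] <;> norm_num
      · simp only [sgn_c hC hT, hε.2]; ring
    have d1 := hdet ε hε hcon.1
    have d2 := hdet _ hι hcon.2
    simp only [sgn_pow hT, sgn_t hT, one_mul] at d2
    rw [← d1] at d2
    set e : ℕ → ℤ := fun j => ε ((r ^ j) x₀) with he
    have hem : ∀ j, e (j + m) = - e j := fun j => by
      simp only [he]; rw [hm, c_pow hT, hε.2]
    have heven : Even m := by obtain ⟨q, hq⟩ := h4m; exact ⟨2 * q, by omega⟩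
    have hem' : ∀ j, (fun j => (-1) ^ j * e j) (j + m) = - (fun j => (-1 : ℤ) ^ j * e j) j := by
      intro j
      simp only [hem, pow_add, Even.neg_one_pow heven]; ring
    rw [h2n, half_sum e m hem w hwm, half_sum e m hem _ hwσm,
      half_sum (fun j => (-1) ^ j * e j) m hem' w hwm,
      half_sum (fun j => (-1) ^ j * e j) m hem' _ hwσm] at d2
    refine arith m h4m hm0 e (fun j _ => hε.1 _) w hwm ?_ σ hσ ?_
    · intro a ha
      exact h1 n (by omega) w hwp a ha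
    · have h4 : (4 : ℂ) ≠ 0 := by norm_num
      apply mul_left_cancel₀ h4
      linear_combination -d2

end Pool.Agent.ECF
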