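import Mathlib
import Pool.Agent.ECF.Targets

set_option autoImplicit false

/-!
# EXC: the exceptional groups: the Klein four group and the dihedral group with eight elements
-/

namespace Pool.Agent.ECF

open Finset

namespace EXC_

variable {X : Type}

/-- the elements of the Klein four group -/
def A (c e : Equiv.Perm X) : Fin 4 → Equiv.Perm X := ![1, c, e, e * c]

theorem A0 (c e : Equiv.Perm X) : A c e 0 = 1 := rfl
theorem A1 (c e : Equiv.Perm X) : A c e 1 = c := rfl
theorem A2 (c e : Equiv.Perm X) : A c e 2 = e := rfl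
theorem A3 (c e : Equiv.Perm X) : A c e 3 = e * c := rfl

theorem A_comm {c e h : Equiv.Perm X} (hc : ∀ x, h (c x) = c (h x))
    (he : ∀ x, h (e x) = e (h x)) (j : Fin 4) (x : X) : h (A c e j x) = A c e j (h x) := by
  fin_cases j
  · rfl
  · exact hc x
  · exact he x
  · show h (e (c x)) = e (c (h x))
    rw [he, hc]

theorem A_inj {c e : Equiv.Perm X} (hcc : ∀ x, c (c x) = x) (hcn : ∀ x, c x ≠ x)
    (hF : Free c e) (x : X) : Function.Injective fun j => A c e j x := by
  have hdist : c x ≠ x ∧ e x ≠ x ∧ e x ≠ c x ∧ e (c x) ≠ x ∧ e (c x) ≠ c x ∧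
      e (c x) ≠ e x := by
    refine ⟨hcn x, (hF x).1, (hF x).2, ?_, (hF (c x)).1, ?_⟩
    · intro h
      have := (hF (c x)).2
      rw [hcc] at this
      exact this h
    · intro h
      exact hcn x (e.injective h)
  intro i j hij
  obtain ⟨d1, d2, d3, d4, d5, d6⟩ := hdist
  fin_cases i <;> fin_cases j <;> first
    | rfl
    | (exfalso
       simp only [A0, A1, A2, A3, Fin.zero_eta, Fin.mk_one, Fin.reduceFinMk,
         Equiv.Perm.one_apply, Equiv.Perm.mul_apply] at hij
       first
        | exact d1 hij | exact d2 hij | exact d3 hij | exact d4 hij | exact d5 hij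
        | exact d6 hij | exact d1 hij.symm | exact d2 hij.symm | exact d3 hij.symm
        | exact d4 hij.symm | exact d5 hij.symm | exact d6 hij.symm)

theorem A_sq {c e : Equiv.Perm X} (hcc : ∀ x, c (c x) = x) (hee : ∀ x, e (e x) = x)
    (hec : ∀ x, e (c x) = c (e x)) (j : Fin 4) : A c e j * A c e j = 1 := by
  ext x
  fin_cases j
  · rfl
  · exact hcc x
  · exact hee x
  · show e (c (e (c x))) = x
    rw [← hec, hcc, hee]

end EXC_

open EXC_

theorem p_EXC4 : T_EXC4 := by
  classical
  intro X _ H c e hC hK hF hX hcom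
  have hcc := hC.sq
  have hee := hK.sq
  have hcen : ∀ h ∈ H, ∀ x, h (c x) = c (h x) := fun h hh x => (hC.comm h hh x).symm
  have hec : ∀ x, e (c x) = c (e x) := hcen e hK.mem
  have hcomm : ∀ h ∈ H, ∀ x, h (e x) = e (h x) := fun h hh x =>
    congrArg (fun g : Equiv.Perm X => g x) (hcom h hh)
  obtain ⟨x0⟩ : Nonempty X := by
    rw [← Fintype.card_pos_iff, hX]
    norm_num
  have hAH : ∀ j, A c e j ∈ H := by
    intro j
    fin_cases j
    · exact H.one_mem
    · exact hC.mem
    · exact hK.mem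
    · exact H.mul_mem hK.mem hC.mem
  have hbij : Function.Bijective fun j => A c e j x0 := by
    rw [Fintype.bijective_iff_injective_and_card]
    exact ⟨A_inj hcc hC.ne hF x0, by rw [hX]; rfl⟩
  have hall : ∀ h ∈ H, ∃ j, A c e j = h := by
    intro h hh
    obtain ⟨j, hj⟩ := hbij.2 (h x0)
    refine ⟨j, Equiv.ext fun x => ?_⟩
    obtain ⟨i, rfl⟩ := hbij.2 x
    simp only at hj ⊢
    rw [A_comm (hcen _ (hAH j)) (hcomm _ (hAH j)), A_comm (hcen h hh) (hcomm h hh), hj]
  constructor
  · let φ : Fin 4 → H := fun j => ⟨A c e j, hAH j⟩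
    have hφ : Function.Bijective φ := by
      constructor
      · intro i j hij
        apply hbij.1
        have h1 : A c e i = A c e j := congrArg Subtype.val hij
        show A c e i x0 = A c e j x0
        rw [h1]
      · rintro ⟨h, hh⟩
        obtain ⟨j, hj⟩ := hall h hh
        exact ⟨j, Subtype.ext hj⟩
    rw [← Nat.card_eq_of_bijective φ hφ]
    simp
  · intro h hh
    obtain ⟨j, rfl⟩ := hall h hh
    exact A_sq hcc hee hec j

namespace EXC_

/-- a group with eight elements, generated like the dihedral group, is the dihedral group -/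
theorem dihedral {G : Type} [Group G] (R E : G) (h4 : R ^ 4 = 1) (h2 : R ^ 2 ≠ 1)
    (hE : E * E = 1) (hER : E * R * E = R⁻¹)
    (hcard : Nat.card G = 8) : Nonempty (G ≃* DihedralGroup 4) := by
  let p : ZMod 4 → G := fun i => R ^ i.val
  have hp0 : p 0 = 1 := by simp [p]
  have hadd : ∀ i j, p (i + j) = p i * p j := by
    intro i j
    show R ^ (i + j).val = R ^ i.val * R ^ j.val
    rw [ZMod.val_add, ← pow_eq_pow_mod _ h4, pow_add]
  have hneg : ∀ i, p (-i) = (p i)⁻¹ := by
    intro i
    rw [eq_inv_iff_mul_eq_one, ← hadd, neg_add_cancel, hp0]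
  have hEi : E⁻¹ = E := by
    rw [inv_eq_iff_mul_eq_one, hE]
  have hEp : ∀ i, p i * E = E * p (-i) := by
    intro i
    have h1 : E * R ^ i.val * E⁻¹ = (E * R * E⁻¹) ^ i.val := (conj_pow).symm
    rw [hEi, hER, inv_pow] at h1
    rw [hneg]
    show R ^ i.val * E = E * (R ^ i.val)⁻¹
    rw [← h1, ← mul_assoc, ← mul_assoc, hE, one_mul]
  let f : DihedralGroup 4 → G := fun x => match x with
    | DihedralGroup.r i => p i
    | DihedralGroup.sr i => E * p i
  have hf : ∀ x y, f (x * y) = f x * f y := by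
    rintro (i | i) (j | j)
    · rw [DihedralGroup.r_mul_r]
      exact hadd i j
    · rw [DihedralGroup.r_mul_sr]
      show E * p (j - i) = p i * (E * p j)
      rw [← mul_assoc, hEp, mul_assoc, ← hadd]
      congr 2
      ring
    · rw [DihedralGroup.sr_mul_r]
      show E * p (i + j) = E * p i * p j
      rw [hadd, mul_assoc]
    · rw [DihedralGroup.sr_mul_sr]
      show p (j - i) = E * p i * (E * p j)
      rw [mul_assoc, ← mul_assoc (p i), hEp, mul_assoc, ← mul_assoc E E, hE, one_mul, ← hadd]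
      congr 1
      ring
  let φ : DihedralGroup 4 →* G := MonoidHom.mk' f hf
  have hp : ∀ i, p i = 1 → i = 0 := by
    intro i hi
    have hR : R ≠ 1 := by
      intro h
      exact h2 (by rw [h, one_pow])
    have h3 : R ^ 3 ≠ 1 := by
      intro h
      apply hR
      calc R = R ^ 3 * R := by rw [h, one_mul]
        _ = R ^ 4 := by rw [← pow_succ]
        _ = 1 := h4
    fin_cases i
    · rfl
    · have h5 : R ^ 1 = 1 := hi
      exact absurd (by rwa [pow_one] at h5) hR
    · have h5 : R ^ 2 = 1 := hi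
      exact absurd h5 h2
    · have h5 : R ^ 3 = 1 := hi
      exact absurd h5 h3
  have hinj : Function.Injective φ := by
    rw [injective_iff_map_eq_one]
    rintro (i | i) hx
    · have h1 : p i = 1 := hx
      rw [hp i h1]
      rfl
    · exfalso
      have h1 : E * p i = 1 := hx
      have h3 : p i = E := by
        rw [← inv_eq_of_mul_eq_one_right h1, hEi]
      have h5 : R * E = E * R := by
        rw [← h3]
        show R * R ^ i.val = R ^ i.val * R
        rw [← pow_succ, ← pow_succ']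
      have h6 : R = R⁻¹ := by
        calc R = R * (E * E) := by rw [hE, mul_one]
          _ = E * R * E := by rw [← mul_assoc, h5]
          _ = R⁻¹ := hER
      apply h2
      rw [pow_two]
      nth_rewrite 2 [h6]
      exact mul_inv_cancel R
  have hfin : Finite G := Nat.finite_of_card_ne_zero (by rw [hcard]; norm_num)
  have : Fintype G := Fintype.ofFinite G
  have hb : Function.Bijective φ := by
    rw [Fintype.bijective_iff_injective_and_card]
    refine ⟨hinj, ?_⟩
    rw [DihedralGroup.card, ← Nat.card_eq_fintype_card, hcard]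
  exact ⟨(MulEquiv.ofBijective φ hb).symm⟩

end EXC_

theorem p_EXC8 : T_EXC8 := by
  classical
  intro X _ H c e hC hP hK hF hX hCT hcard
  have hcc := hC.sq
  have hee := hK.sq
  have hcen : ∀ h ∈ H, ∀ x, h (c x) = c (h x) := fun h hh x => (hC.comm h hh x).symm
  have hec : ∀ x, e (c x) = c (e x) := hcen e hK.mem
  -- the element t
  obtain ⟨t, htH, hte⟩ : ∃ t ∈ H, t * e * t⁻¹ = e * c := by
    by_contra hcon
    push Not at hcon
    apply hCT
    intro x y
    obtain ⟨h, hh, hxy⟩ := hC.trans x y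
    refine ⟨h, hh, ?_, hxy⟩
    rcases hK.nor h hh with h1 | h1
    · exact mul_inv_eq_iff_eq_mul.1 h1
    · exact absurd h1 (hcon h hh)
  have hnor : ∀ h : Equiv.Perm X, h * e * h⁻¹ = e * c → ∀ x, h (e x) = e (c (h x)) := by
    intro h h1 x
    have h2 : h * e = e * c * h := mul_inv_eq_iff_eq_mul.1 h1
    exact congrArg (fun g : Equiv.Perm X => g x) h2
  have hte' : ∀ x, t (e x) = e (c (t x)) := hnor t hte
  have htc : ∀ x, t (c x) = c (t x) := hcen t htH
  have hti : ∀ x, t⁻¹ (e x) = e (c (t⁻¹ x)) := by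
    intro x
    rw [Equiv.Perm.inv_eq_iff_eq, hte', htc, hcc]
    simp
  -- the centralizer
  let P : Equiv.Perm X → Prop := fun g => g ∈ H ∧ ∀ x, g (e x) = e (g x)
  have Pinv : ∀ g, P g → P g⁻¹ := by
    intro g hg
    refine ⟨H.inv_mem hg.1, fun x => ?_⟩
    rw [Equiv.Perm.inv_eq_iff_eq, hg.2]
    simp
  have Pmul : ∀ g g', P g → P g' → P (g * g') := by
    intro g g' hg hg'
    refine ⟨H.mul_mem hg.1 hg'.1, fun x => ?_⟩
    rw [Equiv.Perm.mul_apply, Equiv.Perm.mul_apply, hg'.2, hg.2]
  have hdich : ∀ h ∈ H, P h ∨ ∃ g, P g ∧ ∀ x, h x = g (t x) := by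
    intro h hh
    rcases hK.nor h hh with h1 | h1
    · left
      refine ⟨hh, fun x => ?_⟩
      have h2 : h * e = e * h := mul_inv_eq_iff_eq_mul.1 h1
      exact congrArg (fun g : Equiv.Perm X => g x) h2
    · right
      refine ⟨h * t⁻¹, ⟨H.mul_mem hh (H.inv_mem htH), fun x => ?_⟩, fun x => by simp⟩
      rw [Equiv.Perm.mul_apply, Equiv.Perm.mul_apply, hti, hnor h h1, hcen h hh, hcc]
  obtain ⟨x0⟩ : Nonempty X := by
    rw [← Fintype.card_pos_iff, hX]
    norm_num
  set y0 := t x0 with hy0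
  have hO : ∀ g, P g → g x0 ≠ y0 := by
    intro g hg hgx
    apply hCT
    have hz : ∀ z, ∃ g', P g' ∧ g' x0 = z := by
      intro z
      obtain ⟨h, hh, hxz⟩ := hC.trans x0 z
      rcases hdich h hh with h1 | ⟨g2, hg2, h2⟩
      · exact ⟨h, h1, hxz⟩
      · refine ⟨g2 * g, Pmul _ _ hg2 hg, ?_⟩
        rw [Equiv.Perm.mul_apply, hgx, hy0, ← h2, hxz]
    intro x y
    obtain ⟨g1, hg1, rfl⟩ := hz x
    obtain ⟨g2, hg2, rfl⟩ := hz y
    have hP' := Pmul _ _ hg2 (Pinv _ hg1)
    exact ⟨g2 * g1⁻¹, hP'.1, Equiv.ext hP'.2, by simp⟩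
  have PA : ∀ j, P (A c e j) := by
    have h1 : P 1 := ⟨H.one_mem, fun x => rfl⟩
    have h2 : P c := ⟨hC.mem, fun x => (hec x).symm⟩
    have h3 : P e := ⟨hK.mem, fun x => rfl⟩
    intro j
    fin_cases j
    · exact h1
    · exact h2
    · exact h3
    · exact Pmul _ _ h3 h2
  have hcross : ∀ i j, A c e i x0 ≠ A c e j y0 := by
    intro i j h
    apply hO ((A c e j)⁻¹ * A c e i) (Pmul _ _ (Pinv _ (PA j)) (PA i))
    rw [Equiv.Perm.mul_apply, h]
    simp
  let ψ : Fin 4 ⊕ Fin 4 → X := Sum.elim (fun j => A c e j x0) (fun j => A c e j y0)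
  have hψ : Function.Bijective ψ := by
    rw [Fintype.bijective_iff_injective_and_card]
    constructor
    · rintro (i | i) (j | j) hij
      · rw [A_inj hcc hC.ne hF x0 hij]
      · exact absurd hij (hcross i j)
      · exact absurd hij.symm (hcross j i)
      · rw [A_inj hcc hC.ne hF y0 hij]
    · rw [hX]
      rfl
  have hcov : ∀ x, (∃ j, x = A c e j x0) ∨ ∃ j, x = A c e j y0 := by
    intro x
    obtain ⟨j, rfl⟩ := hψ.2 x
    rcases j with j | j
    · exact Or.inl ⟨j, rfl⟩
    · exact Or.inr ⟨j, rfl⟩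
  -- regularity
  have hev : Function.Bijective fun h : H => (h : Equiv.Perm X) x0 := by
    have hsurj : Function.Surjective fun h : H => (h : Equiv.Perm X) x0 := by
      intro y
      obtain ⟨h, hh, hy⟩ := hC.trans x0 y
      exact ⟨⟨h, hh⟩, hy⟩
    refine hsurj.bijective_of_nat_card_le ?_
    rw [Nat.card_eq_fintype_card (α := X), hX]
    exact hcard
  have hH8 : Nat.card H = 8 := by
    rw [Nat.card_eq_of_bijective _ hev, Nat.card_eq_fintype_card, hX]
  have hreg : ∀ g h : Equiv.Perm X, g ∈ H → h ∈ H → g x0 = h x0 → g = h := by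
    intro g h hg hh hgh
    have h1 : (⟨g, hg⟩ : H) = ⟨h, hh⟩ := hev.1 hgh
    exact congrArg Subtype.val h1
  have hPA : ∀ g, P g → ∃ j, g = A c e j := by
    intro g hg
    rcases hcov (g x0) with ⟨j, hj⟩ | ⟨j, hj⟩
    · exact ⟨j, hreg _ _ hg.1 (PA j).1 hj⟩
    · exfalso
      apply hO ((A c e j)⁻¹ * g) (Pmul _ _ (Pinv _ (PA j)) hg)
      rw [Equiv.Perm.mul_apply, hj]
      simp
  -- group elements
  have mcc : c * c = 1 := Equiv.ext hcc
  have mee : e * e = 1 := Equiv.ext hee
  have mec : e * c = c * e := Equiv.ext hec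
  have mtc : t * c = c * t := Equiv.ext htc
  have mte : t * e = e * c * t := mul_inv_eq_iff_eq_mul.1 hte
  have hc1 : c ≠ 1 := by
    intro h
    apply hC.ne x0
    rw [h]
    rfl
  have htt : t * t = 1 ∨ t * t = c := by
    have h1 : P (t * t) := by
      refine ⟨H.mul_mem htH htH, fun x => ?_⟩
      rw [Equiv.Perm.mul_apply, Equiv.Perm.mul_apply, hte', hte', htc, hcc]
    obtain ⟨j, hj⟩ := hPA _ h1
    have h2 : t * (t * t) = t * t * t := (mul_assoc t t t).symm
    fin_cases j
    · exact Or.inl hj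
    · exact Or.inr hj
    · exfalso
      have hj' : t * t = e := hj
      rw [hj', mte] at h2
      have h3 : e * c = e := mul_right_cancel h2
      exact hc1 (mul_eq_left.1 h3)
    · exfalso
      have hj' : t * t = e * c := hj
      rw [hj', ← mul_assoc, mte, mul_assoc (e * c), mtc, ← mul_assoc, mul_assoc e c c, mcc,
        mul_one] at h2
      have h3 : e = e * c := mul_right_cancel h2
      exact hc1 (mul_eq_left.1 h3.symm)
  refine ⟨hH8, ?_⟩
  obtain ⟨r, hrH, hr2, hre⟩ : ∃ r ∈ H, r * r = c ∧ e * r * e = c * r := by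
    rcases htt with h | h
    · refine ⟨e * t, H.mul_mem hK.mem htH, ?_, ?_⟩
      · rw [mul_assoc, ← mul_assoc t, mte, mul_assoc (e * c), h, mul_one, ← mul_assoc, mee,
          one_mul]
      · rw [← mul_assoc, mee, one_mul, mte, mec, mul_assoc]
    · refine ⟨t, htH, h, ?_⟩
      rw [mul_assoc, mte, ← mul_assoc, ← mul_assoc, mee, one_mul]
  let R : H := ⟨r, hrH⟩
  let E : H := ⟨e, hK.mem⟩
  have hRR : (R * R : H) = ⟨c, hC.mem⟩ := Subtype.ext hr2
  have hR2 : R ^ 2 = ⟨c, hC.mem⟩ := by rw [pow_two, hRR]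
  have hR4 : R ^ 4 = 1 := by
    have h1 : R ^ 4 = R ^ 2 * R ^ 2 := by rw [← pow_add]
    rw [h1, hR2]
    exact Subtype.ext mcc
  refine dihedral R E hR4 ?_ (Subtype.ext mee) ?_ hH8
  · rw [hR2]
    intro h
    exact hc1 (congrArg Subtype.val h)
  · rw [eq_inv_iff_mul_eq_one]
    apply Subtype.ext
    show e * r * e * r = 1
    rw [hre, mul_assoc, hr2, mcc]

end Pool.Agent.ECF
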