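import Mathlib
import Pool.Agent.ECF.Targets

set_option autoImplicit false
set_option linter.unusedSectionVars false

/-!
# Every CM field: the theorem for 2-groups and for sets with `2 ^ n` elements
-/

namespace Pool.Agent.ECF

open Finset MulAction
open scoped BigOperators

/-- the exceptional groups -/
def ExcGroup {X : Type} [Fintype X] (H : Subgroup (Equiv.Perm X)) : Prop :=
  (Fintype.card X = 4 ∧ Nat.card H = 4 ∧ ∀ h ∈ H, h * h = 1) ∨
    (Fintype.card X = 8 ∧ Nat.card H = 8 ∧ Nonempty (H ≃* DihedralGroup 4))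

/-- the theorem for 2-groups -/
def T_PG : Prop :=
  ∀ (X : Type) [Fintype X] (H : Subgroup (Equiv.Perm X)) (c : Equiv.Perm X), Cx H c →
    Nonempty X → IsPGroup 2 H → HalfGood H c ∨ ExcGroup H

/-- the theorem for sets with `2 ^ n` elements -/
def T_P2 : Prop :=
  ∀ (X : Type) [Fintype X] (H : Subgroup (Equiv.Perm X)) (c : Equiv.Perm X), Cx H c →
    Nonempty X → (∃ n, Fintype.card X = 2 ^ n) → HalfGood H c ∨ ExcGroup H

namespace PG_

variable {X : Type} [Fintype X]

theorem cx_pretransitive {H : Subgroup (Equiv.Perm X)} {c : Equiv.Perm X} (hX : Cx H c) :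
    IsPretransitive H X := ⟨fun x y => by
  obtain ⟨h, hh, hxy⟩ := hX.trans x y
  exact ⟨⟨h, hh⟩, hxy⟩⟩

theorem comm_mul {H : Subgroup (Equiv.Perm X)} {c : Equiv.Perm X} (hX : Cx H c)
    {h : Equiv.Perm X} (hh : h ∈ H) : h * c = c * h := by
  ext x
  exact (hX.comm h hh x).symm

theorem cc_one {H : Subgroup (Equiv.Perm X)} {c : Equiv.Perm X} (hX : Cx H c) : c * c = 1 := by
  ext x
  exact hX.sq x

/-- the number of points divides the order -/
theorem card_dvd {H : Subgroup (Equiv.Perm X)} {c : Equiv.Perm X} (hX : Cx H c) [Nonempty X] :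
    Fintype.card X ∣ Nat.card H := by
  classical
  obtain ⟨x⟩ := ‹Nonempty X›
  have := cx_pretransitive hX
  have h1 := card_orbit_mul_card_stabilizer_eq_card_group H x
  have h2 : Fintype.card (orbit H x) = Fintype.card X := by
    rw [Fintype.card_congr (Equiv.setCongr (orbit_eq_univ H x))]
    exact Fintype.card_congr (Equiv.Set.univ X)
  rw [Nat.card_eq_fintype_card, ← h1, h2]
  exact dvd_mul_right _ _

theorem card_pow {H : Subgroup (Equiv.Perm X)} {c : Equiv.Perm X} (hX : Cx H c) [Nonempty X]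
    (hH : IsPGroup 2 H) : ∃ n, Fintype.card X = 2 ^ n := by
  obtain ⟨m, hm⟩ := IsPGroup.iff_card.1 hH
  have h1 := card_dvd hX
  rw [hm] at h1
  obtain ⟨n, _, hn⟩ := (Nat.dvd_prime_pow Nat.prime_two).1 h1
  exact ⟨n, hn⟩

theorem halfGood_of_all {H : Subgroup (Equiv.Perm X)} {c : Equiv.Perm X}
    (h : ∀ ε, Typ c ε → ND H c ε) : HalfGood H c :=
  ⟨id, fun _ h => h, fun _ _ => rfl, fun ε hε => Or.inl (h ε hε)⟩

theorem nd_mono {P H : Subgroup (Equiv.Perm X)} (hPH : P ≤ H) {c : Equiv.Perm X} {ε : X → ℤ}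
    (h : ND P c ε) : ND H c ε :=
  fun f hf => h f ⟨hf.1, fun g hg => hf.2 g (hPH hg)⟩

theorem halfGood_mono {P H : Subgroup (Equiv.Perm X)} (hPH : P ≤ H) {c : Equiv.Perm X}
    (h : HalfGood P c) : HalfGood H c := by
  obtain ⟨ι, h1, h2, h3⟩ := h
  refine ⟨ι, h1, h2, fun ε hε => ?_⟩
  rcases h3 ε hε with h4 | h4
  · exact Or.inl (nd_mono hPH h4)
  · exact Or.inr (nd_mono hPH h4)

/-- the other involution -/
theorem kl_mul {H : Subgroup (Equiv.Perm X)} {c e : Equiv.Perm X} (hX : Cx H c)
    (he : Kl H c e) : Kl H c (e * c) := by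
  have hcc := cc_one hX
  have hec := comm_mul hX he.mem
  refine ⟨H.mul_mem he.mem hX.mem, ?_, ?_, ?_, ?_⟩
  · intro x
    show e (c (e (c x))) = x
    rw [hX.comm e he.mem, hX.sq, he.sq]
  · intro h
    apply he.ne_c
    calc e = e * (c * c) := by rw [hcc, mul_one]
      _ = e * c * c := by rw [mul_assoc]
      _ = c := by rw [h, one_mul]
  · intro h
    apply he.ne_one
    calc e = e * (c * c) := by rw [hcc, mul_one]
      _ = e * c * c := by rw [mul_assoc]
      _ = 1 := by rw [h, hcc]
  · intro h hh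
    have h1 : h * (e * c) * h⁻¹ = h * e * h⁻¹ * c := by
      have h2 := comm_mul hX (H.inv_mem hh)
      calc h * (e * c) * h⁻¹ = h * e * (c * h⁻¹) := by group
        _ = h * e * (h⁻¹ * c) := by rw [← h2]
        _ = h * e * h⁻¹ * c := by group
    rcases he.nor h hh with h2 | h2
    · left
      rw [h1, h2]
    · right
      rw [h1, h2]

/-- on four points the Klein four group is transitive -/
theorem ctrans_four {H : Subgroup (Equiv.Perm X)} {c e : Equiv.Perm X} (hX : Cx H c)
    (he : Kl H c e) (hf : Free c e) (h4 : Fintype.card X = 4) : CTrans H e := by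
  classical
  intro x y
  have h01 : x ≠ c x := (hX.ne x).symm
  have h02 : x ≠ e x := (hf x).1.symm
  have h03 : x ≠ e (c x) := by
    intro h
    apply (hf x).2
    have h5 := congrArg e h
    rw [he.sq] at h5
    exact h5
  have h12 : c x ≠ e x := (hf x).2.symm
  have h13 : c x ≠ e (c x) := (hf (c x)).1.symm
  have h23 : e x ≠ e (c x) := fun h => h01 (e.injective h)
  have hO : ({x, c x, e x, e (c x)} : Finset X).card = 4 := by
    rw [Finset.card_insert_of_notMem, Finset.card_insert_of_notMem,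
      Finset.card_insert_of_notMem, Finset.card_singleton]
    · simpa using h23
    · simpa using ⟨h12, h13⟩
    · simpa using ⟨h01, h02, h03⟩
  have hU : ({x, c x, e x, e (c x)} : Finset X) = Finset.univ := by
    apply Finset.eq_univ_of_card
    rw [hO, h4]
  have hy : y ∈ ({x, c x, e x, e (c x)} : Finset X) := by
    rw [hU]
    exact Finset.mem_univ y
  simp only [Finset.mem_insert, Finset.mem_singleton] at hy
  have hec := comm_mul hX he.mem
  rcases hy with h | h | h | h
  · exact ⟨1, H.one_mem, by rw [one_mul, mul_one], h.symm⟩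
  · exact ⟨c, hX.mem, hec.symm, h.symm⟩
  · exact ⟨e, he.mem, rfl, h.symm⟩
  · refine ⟨e * c, H.mul_mem he.mem hX.mem, ?_, h.symm⟩
    rw [mul_assoc, ← hec, ← mul_assoc]

end PG_

open PG_ in
theorem p_PG (hSUM4 : T_SUM4) (hKFIX : T_KFIX) (hKTR : T_KTR) (hK16 : T_K16) (hK8 : T_K8)
    (hEXC4 : T_EXC4) (hEXC8 : T_EXC8) (hCLSA : T_CLSA) (hCLSB : T_CLSB) (hCYC : T_CYC)
    (hQUAT : T_QUAT) (hDSD : T_DSD) : T_PG := by
  intro X _ H c hX hne hH
  classical
  by_cases hK : ∃ e, Kl H c e
  · obtain ⟨e, he⟩ := hK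
    by_cases h1 : ∃ x, e x = x
    · exact Or.inl (hKFIX X H c e hX hH he h1)
    by_cases h2 : ∃ x, e x = c x
    · left
      refine hKFIX X H c (e * c) hX hH (kl_mul hX he) ?_
      obtain ⟨x, hx⟩ := h2
      refine ⟨x, ?_⟩
      show e (c x) = x
      rw [← hx, he.sq]
    push Not at h1 h2
    have hf : Free c e := fun x => ⟨h1 x, h2 x⟩
    have hec : ∀ x, e (c x) = c (e x) := fun x => (hX.comm e he.mem x).symm
    -- the number of points
    obtain ⟨n, hn⟩ := card_pow hX hH
    have h4 : 4 ∣ Fintype.card X := by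
      have h5 := hSUM4 X c e hX.sq hX.ne he.sq hec hf Finset.univ (fun _ => 1)
        (fun x _ => ⟨Finset.mem_univ _, Finset.mem_univ _⟩) (fun _ _ => ⟨rfl, rfl⟩)
      rw [Finset.sum_const, nsmul_eq_mul, mul_one, Finset.card_univ] at h5
      exact_mod_cast h5
    have hn2 : 2 ≤ n := by
      by_contra h6
      have h7 : n = 0 ∨ n = 1 := by omega
      rcases h7 with h8 | h8
      · rw [hn, h8] at h4
        norm_num at h4
      · rw [hn, h8] at h4
        norm_num at h4
    -- not central
    have ht : (∀ h ∈ H, h * e = e * h) ∨ ∃ t ∈ H, t * e * t⁻¹ = e * c := by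
      by_cases h5 : ∃ t ∈ H, t * e * t⁻¹ = e * c
      · exact Or.inr h5
      · left
        intro h hh
        rcases he.nor h hh with h6 | h6
        · exact mul_inv_eq_iff_eq_mul.1 h6
        · exact absurd ⟨h, hh, h6⟩ h5
    have hcen : (∀ h ∈ H, h * e = e * h) → CTrans H e := by
      intro hc x y
      obtain ⟨h, hh, hxy⟩ := hX.trans x y
      exact ⟨h, hh, hc h hh, hxy⟩
    by_cases hn4 : 4 ≤ n
    · -- at least 16 points
      have h16 : 16 ∣ Fintype.card X := by
        rw [hn]
        exact pow_dvd_pow 2 hn4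
      rcases ht with h5 | h5
      · exact Or.inl (hKTR X H c e hX hH he hf (hcen h5)
          (Or.inl (dvd_trans (by norm_num) h16)))
      · exact Or.inl (hK16 X H c e hX hH he hf h16 h5)
    · have hn3 : n = 2 ∨ n = 3 := by omega
      rcases hn3 with h5 | h5
      · -- 4 points
        have hc4 : Fintype.card X = 4 := by
          rw [hn, h5]
          norm_num
        rcases ht with h6 | h6
        · obtain ⟨h7, h8⟩ := hEXC4 X H c e hX he hf hc4 h6
          exact Or.inr (Or.inl ⟨hc4, h7, h8⟩)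
        · exact Or.inl (hKTR X H c e hX hH he hf (ctrans_four hX he hf hc4) (Or.inr h6))
      · -- 8 points
        have hc8 : Fintype.card X = 8 := by
          rw [hn, h5]
          norm_num
        by_cases hct : CTrans H e
        · refine Or.inl (hKTR X H c e hX hH he hf hct (Or.inl ?_))
          rw [hc8]
        · by_cases h8 : 8 < Nat.card H
          · exact Or.inl (hK8 X H c e hX hH he hf hc8 hct h8)
          · obtain ⟨h9, h10⟩ := hEXC8 X H c e hX hH he hf hc8 hct (not_lt.1 h8)
            exact Or.inr (Or.inr ⟨hc8, h9, h10⟩)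
  · push Not at hK
    left
    obtain ⟨r, n, hr, hn, ho, hp, hnor, hself⟩ := hCLSA X H c hX hne hH hK
    rcases hCLSB X H c hX hne hH hK r n hr hn ho hp hnor hself with h1 | ⟨t, h2, h3⟩
    · exact halfGood_of_all (hCYC X H c hX r n hr hn ho hp h1)
    · rcases h3 with ⟨h4, h5⟩ | ⟨h4, h5⟩
      · exact halfGood_of_all (hQUAT X H c hX r t n h2 h4 h5)
      · exact hDSD X H c hX hne r t n h2 h4 h5

open PG_ in
/-- on four points the group is a 2-group -/
theorem PG_four {X : Type} [Fintype X] {H : Subgroup (Equiv.Perm X)} {c : Equiv.Perm X}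
    (hX : Cx H c) (h4 : Fintype.card X = 4) : IsPGroup 2 H := by
  classical
  have key : ∀ h ∈ H, ∀ x, h (h x) = x ∨ h (h x) = c x := by
    intro h hh x
    by_cases h1 : h x = x
    · left
      rw [h1, h1]
    by_cases h2 : h x = c x
    · left
      rw [h2, ← hX.comm h hh, h2, hX.sq]
    have h01 : x ≠ c x := (hX.ne x).symm
    have h02 : x ≠ h x := fun h => h1 h.symm
    have h03 : x ≠ c (h x) := by
      intro h5
      apply h2
      rw [h5, hX.sq, ← h5]
    have h12 : c x ≠ h x := fun h => h2 h.symm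
    have h13 : c x ≠ c (h x) := fun h => h02 (c.injective h)
    have h23 : h x ≠ c (h x) := (hX.ne (h x)).symm
    have hO : ({x, c x, h x, c (h x)} : Finset X).card = 4 := by
      rw [Finset.card_insert_of_notMem, Finset.card_insert_of_notMem,
        Finset.card_insert_of_notMem, Finset.card_singleton]
      · simpa using h23
      · simpa using ⟨h12, h02⟩
      · simpa using ⟨h01, h02, h03⟩
    have hU : ({x, c x, h x, c (h x)} : Finset X) = Finset.univ := by
      apply Finset.eq_univ_of_card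
      rw [hO, h4]
    have hy : h (h x) ∈ ({x, c x, h x, c (h x)} : Finset X) := by
      rw [hU]
      exact Finset.mem_univ _
    simp only [Finset.mem_insert, Finset.mem_singleton] at hy
    rcases hy with h5 | h5 | h5 | h5
    · exact Or.inl h5
    · exact Or.inr h5
    · exact absurd (h.injective h5) h1
    · rw [hX.comm h hh] at h5
      exact absurd (h.injective h5) h2
  intro h
  refine ⟨2, ?_⟩
  apply Subtype.ext
  show ((h ^ 2 ^ 2 : H) : Equiv.Perm X) = 1
  rw [Subgroup.coe_pow]
  ext x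
  have h1 : ((h : Equiv.Perm X) ^ 2 ^ 2) x =
      (h : Equiv.Perm X) ((h : Equiv.Perm X) ((h : Equiv.Perm X) ((h : Equiv.Perm X) x))) := by
    show ((h : Equiv.Perm X) ^ 4) x = _
    rfl
  rw [h1, Equiv.Perm.one_apply]
  rcases key h h.2 x with h2 | h2
  · rw [h2, h2]
  · rw [h2, ← hX.comm h h.2, ← hX.comm h h.2, h2, hX.sq]

open PG_ in
theorem p_P2 (hPG : T_PG) (hSYL : T_SYL8) : T_P2 := by
  intro X _ H c hX hne hn
  classical
  by_cases hH : IsPGroup 2 H
  · exact hPG X H c hX hne hH
  have : Fact (Nat.Prime 2) := ⟨Nat.prime_two⟩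
  -- a Sylow subgroup which contains `c`
  let c' : H := ⟨c, hX.mem⟩
  have hc2 : IsPGroup 2 (Subgroup.zpowers c') := by
    rw [IsPGroup.iff_card]
    have h1 : c' * c' = 1 := Subtype.ext (cc_one hX)
    have h2 : orderOf c' ∣ 2 := orderOf_dvd_of_pow_eq_one (by rw [pow_two, h1])
    rw [Nat.card_zpowers]
    rcases (Nat.dvd_prime Nat.prime_two).1 h2 with h3 | h3
    · exact ⟨0, by rw [h3, pow_zero]⟩
    · exact ⟨1, by rw [h3, pow_one]⟩
  obtain ⟨P0, hP0⟩ := hc2.exists_le_sylow
  let P : Subgroup (Equiv.Perm X) := P0.1.map H.subtype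
  have hPH : P ≤ H := by
    rintro _ ⟨g1, _, rfl⟩
    exact g1.2
  have hP2 : IsPGroup 2 P := P0.2.map H.subtype
  obtain ⟨n, hn⟩ := hn
  have hXP : Cx P c := by
    refine ⟨⟨c', hP0 (Subgroup.mem_zpowers c'), rfl⟩, hX.sq, hX.ne,
      fun h hh => hX.comm h (hPH hh), ?_⟩
    intro x y
    have hpt := cx_pretransitive hX
    obtain ⟨k, hk, hkxy⟩ := CMTP.sylow_transitive 2 n (by rw [Nat.card_eq_fintype_card, hn])
      hpt P0 x y
    exact ⟨k.1, ⟨k, hk, rfl⟩, hkxy⟩
  rcases hPG X P c hXP hne hP2 with h1 | h1 | h1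
  · exact Or.inl (halfGood_mono hPH h1)
  · exact absurd (PG_four hX h1.1) hH
  · exfalso
    apply hH
    have hcP : Nat.card P = Nat.card P0 := by
      refine Nat.card_congr (Subgroup.equivMapOfInjective P0.1 H.subtype ?_).toEquiv.symm
      exact H.subtype_injective
    have h2 : H = P := by
      refine hSYL X H P c hX h1.1 hPH hXP h1.2.1 h1.2.2 ⟨P0.1.index, ?_, ?_⟩
      · rw [← h1.2.1, hcP]
        exact (Subgroup.card_mul_index P0.1).symm
      · exact P0.not_dvd_index'
          (by
            have := P0.2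
            exact Subgroup.index_ne_zero_of_finite)
    rw [h2]
    exact hP2

end Pool.Agent.ECF
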