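import Mathlib
import Pool.Agent.ECF.PG
import Pool.Agent.CMTP.Final

set_option autoImplicit false
set_option linter.unusedSectionVars false
set_option linter.unusedVariables false

/-!
# Every CM field: translation to CM types
-/

namespace Pool.Agent.ECF

open NumberField Finset Module
open Pool.Agent.CMT (QBar IsCMType TateByDivisors cc cc_cc)
open Pool.Agent.CMTP (NotInduced HG NDeg HalfX)
open scoped BigOperators

/-- good CM types: not induced, all Tate weights on all powers divisorial -/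
def GoodType {K : Type} [Field K] [NumberField K] (Φ : Finset (K →+* QBar)) : Prop :=
  NotInduced Φ ∧ TateByDivisors Φ

namespace FIN_

variable {K : Type} [Field K] [NumberField K] [IsCMField K]

open Classical in
/-- the signs of a set of embeddings -/
noncomputable def sgn (Φ : Finset (K →+* QBar)) : (K →+* QBar) → ℤ :=
  fun φ => if φ ∈ Φ then 1 else -1

open Classical in
/-- the set of the embeddings with sign one -/
noncomputable def pos (ε : (K →+* QBar) → ℤ) : Finset (K →+* QBar) :=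
  Finset.univ.filter (fun φ => ε φ = 1)

theorem sgn_mem {Φ : Finset (K →+* QBar)} {φ : K →+* QBar} (h : φ ∈ Φ) : sgn Φ φ = 1 :=
  if_pos h

theorem sgn_not_mem {Φ : Finset (K →+* QBar)} {φ : K →+* QBar} (h : φ ∉ Φ) : sgn Φ φ = -1 :=
  if_neg h

theorem mem_pos {ε : (K →+* QBar) → ℤ} {φ : K →+* QBar} : φ ∈ pos ε ↔ ε φ = 1 := by
  classical
  unfold pos
  rw [Finset.mem_filter]
  exact ⟨fun h => h.2, fun h => ⟨Finset.mem_univ _, h⟩⟩

theorem pos_sgn (Φ : Finset (K →+* QBar)) : pos (sgn Φ) = Φ := by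
  ext φ
  rw [mem_pos]
  constructor
  · intro h
    by_contra h2
    rw [sgn_not_mem h2] at h
    norm_num at h
  · exact sgn_mem

theorem sgn_pos {c : Equiv.Perm (K →+* QBar)} {ε : (K →+* QBar) → ℤ} (hε : Typ c ε) :
    sgn (pos ε) = ε := by
  funext φ
  by_cases h : φ ∈ pos ε
  · rw [sgn_mem h, (mem_pos.1 h)]
  · rw [sgn_not_mem h]
    rw [mem_pos] at h
    exact ((hε.1 φ).resolve_left h).symm

theorem typ_sgn {c : Equiv.Perm (K →+* QBar)} (hc : ∀ φ, c φ = cc φ)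
    {Φ : Finset (K →+* QBar)} (hΦ : IsCMType K Φ) : Typ c (sgn Φ) := by
  constructor
  · intro φ
    by_cases h : φ ∈ Φ
    · exact Or.inl (sgn_mem h)
    · exact Or.inr (sgn_not_mem h)
  · intro φ
    have h1 : φ ∈ Φ ↔ cc φ ∉ Φ := hΦ φ
    rw [hc]
    by_cases h : φ ∈ Φ
    · rw [sgn_mem h, sgn_not_mem (h1.1 h)]
    · have h2 : cc φ ∈ Φ := by
        by_contra h3
        exact h (h1.2 h3)
      rw [sgn_not_mem h, sgn_mem h2]
      norm_num

theorem type_pos {c : Equiv.Perm (K →+* QBar)} (hc : ∀ φ, c φ = cc φ)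
    {ε : (K →+* QBar) → ℤ} (hε : Typ c ε) : IsCMType K (pos ε) := by
  intro φ
  show φ ∈ pos ε ↔ cc φ ∉ pos ε
  rw [mem_pos, mem_pos, ← hc, hε.2]
  rcases hε.1 φ with h | h
  · rw [h]
    norm_num
  · rw [h]
    norm_num

theorem cx {c : Equiv.Perm (K →+* QBar)} (hc : ∀ φ, c φ = cc φ) (hcm : c ∈ HG K) :
    Cx (HG K) c where
  mem := hcm
  sq := fun φ => by rw [hc, hc, cc_cc]
  ne := fun φ => by
    rw [hc]
    exact CMTP.cc_ne φ
  comm := fun h hh φ => by
    rw [hc, hc]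
    exact CMTP.hg_cc h hh φ
  trans := CMTP.transitive K

theorem good_of_ndeg {Φ : Finset (K →+* QBar)} (hΦ : IsCMType K Φ) (h : NDeg (HG K) cc Φ) :
    GoodType Φ :=
  ⟨CMTP.notInduced_of_ndeg hΦ h, CMTP.tateByDivisors_of_ndeg hΦ h⟩

theorem good_of_nd {c : Equiv.Perm (K →+* QBar)} (hc : ∀ φ, c φ = cc φ)
    {Φ : Finset (K →+* QBar)} (hΦ : IsCMType K Φ) (h : ND (HG K) c (sgn Φ)) : GoodType Φ := by
  classical
  apply good_of_ndeg hΦ
  intro f hodd hsol
  refine h f ⟨fun φ => by rw [hc]; exact hodd φ, fun g hg => ?_⟩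
  have h1 : HalfX cc Φᶜ := by
    intro φ
    have h2 : φ ∈ Φ ↔ cc φ ∉ Φ := hΦ φ
    rw [Finset.mem_compl, Finset.mem_compl]
    tauto
  have h2 := CMTP.half_sum cc cc_cc (Φ := Φ) (Ψ := Φᶜ) hΦ h1 (fun φ => f (g φ)) (by
    intro φ
    show f (g (cc φ)) = - f (g φ)
    rw [← CMTP.hg_cc g hg, hodd])
  have h3 : Φ \ Φᶜ = Φ := by
    ext φ
    simp
  rw [h3, hsol g hg, smul_zero, zero_sub, neg_eq_zero] at h2
  have h4 : ∑ φ, f (g φ) * sgn Φ φ =
      ∑ φ ∈ Φ, f (g φ) * sgn Φ φ + ∑ φ ∈ Φᶜ, f (g φ) * sgn Φ φ :=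
    (Finset.sum_add_sum_compl Φ _).symm
  rw [h4]
  have h5 : ∑ φ ∈ Φ, f (g φ) * sgn Φ φ = ∑ φ ∈ Φ, f (g φ) :=
    Finset.sum_congr rfl fun φ hφ => by rw [sgn_mem hφ, mul_one]
  have h6 : ∑ φ ∈ Φᶜ, f (g φ) * sgn Φ φ = - ∑ φ ∈ Φᶜ, f (g φ) := by
    rw [← Finset.sum_neg_distrib]
    refine Finset.sum_congr rfl fun φ hφ => ?_
    rw [Finset.mem_compl] at hφ
    rw [sgn_not_mem hφ]
    ring
  rw [h5, h6, h2, hsol g hg]
  simp

theorem exists_of_halfGood {c : Equiv.Perm (K →+* QBar)} (hc : ∀ φ, c φ = cc φ)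
    (h : HalfGood (HG K) c) : ∃ Φ : Finset (K →+* QBar), IsCMType K Φ ∧ GoodType Φ := by
  obtain ⟨ι, h1, h2, h3⟩ := h
  obtain ⟨Φ, hΦ⟩ := CMTP.exists_type (K := K)
  have hs := typ_sgn hc hΦ
  rcases h3 _ hs with h4 | h4
  · exact ⟨Φ, hΦ, good_of_nd hc hΦ h4⟩
  · have h5 := h1 _ hs
    refine ⟨pos (ι (sgn Φ)), type_pos hc h5, good_of_nd hc (type_pos hc h5) ?_⟩
    rw [sgn_pos h5]
    exact h4

theorem card_half {c : Equiv.Perm (K →+* QBar)} (hc : ∀ φ, c φ = cc φ)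
    (h : HalfGood (HG K) c) :
    2 * Nat.card {Φ : Finset (K →+* QBar) // IsCMType K Φ ∧ ¬ GoodType Φ} ≤
      Nat.card {Φ : Finset (K →+* QBar) // IsCMType K Φ} := by
  classical
  obtain ⟨ι, h1, h2, h3⟩ := h
  have hle : Nat.card {Φ : Finset (K →+* QBar) // IsCMType K Φ ∧ ¬ GoodType Φ} ≤
      Nat.card {Φ : Finset (K →+* QBar) // IsCMType K Φ ∧ GoodType Φ} := by
    refine Nat.card_le_card_of_injective (fun Φ => ⟨pos (ι (sgn Φ.1)), ?_, ?_⟩) ?_
    · exact type_pos hc (h1 _ (typ_sgn hc Φ.2.1))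
    · have hs := typ_sgn hc Φ.2.1
      rcases h3 _ hs with h4 | h4
      · exact absurd (good_of_nd hc Φ.2.1 h4) Φ.2.2
      · refine good_of_nd hc (type_pos hc (h1 _ hs)) ?_
        rw [sgn_pos (h1 _ hs)]
        exact h4
    · intro Φ Ψ h
      have h4 : pos (ι (sgn Φ.1)) = pos (ι (sgn Ψ.1)) := congrArg Subtype.val h
      have hs := typ_sgn hc Φ.2.1
      have ht := typ_sgn hc Ψ.2.1
      apply Subtype.ext
      rw [← pos_sgn Φ.1, ← h2 _ hs, ← sgn_pos (h1 _ hs), h4, sgn_pos (h1 _ ht), h2 _ ht,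
        pos_sgn]
  have hsum : Nat.card {Φ : Finset (K →+* QBar) // IsCMType K Φ} =
      Nat.card {Φ : Finset (K →+* QBar) // IsCMType K Φ ∧ GoodType Φ} +
      Nat.card {Φ : Finset (K →+* QBar) // IsCMType K Φ ∧ ¬ GoodType Φ} := by
    rw [Nat.card_eq_fintype_card, Nat.card_eq_fintype_card, Nat.card_eq_fintype_card,
      Fintype.card_subtype, Fintype.card_subtype, Fintype.card_subtype,
      ← Finset.filter_filter, ← Finset.filter_filter,
      Finset.card_filter_add_card_filter_not]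
  omega

theorem exc_of (hFLDB : T_FLDB) (h : ExcGroup (HG K)) : ExcField K := by
  classical
  rcases h with ⟨h1, h2, h3⟩ | ⟨h1, h2, h3⟩
  · have h4 : Nat.card (HG K) = finrank ℚ K := by
      rw [h2, ← h1]
      exact CMTP.card_emb
    obtain ⟨h5, ⟨e⟩⟩ := hFLDB K h4
    refine ⟨h5, Or.inl ?_⟩
    have hc : Nat.card Gal(K/ℚ) = 4 := by
      rw [← h2]
      exact Nat.card_congr e.toEquiv.symm
    refine ⟨hc, ?_⟩
    have h6 : Monoid.exponent Gal(K/ℚ) ∣ 2 := by
      apply Monoid.exponent_dvd_of_forall_pow_eq_one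
      intro g
      obtain ⟨x, rfl⟩ := e.surjective g
      rw [← map_pow, pow_two]
      have h7 : x * x = 1 := Subtype.ext (h3 x.1 x.2)
      rw [h7, map_one]
    rcases (Nat.dvd_prime Nat.prime_two).1 h6 with h7 | h7
    · rw [Monoid.exp_eq_one_iff] at h7
      have h8 : Nat.card Gal(K/ℚ) = 1 := Nat.card_of_subsingleton 1
      omega
    · exact h7
  · have h4 : Nat.card (HG K) = finrank ℚ K := by
      rw [h2, ← h1]
      exact CMTP.card_emb
    obtain ⟨h5, ⟨e⟩⟩ := hFLDB K h4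
    obtain ⟨d⟩ := h3
    exact ⟨h5, Or.inr ⟨e.symm.trans d⟩⟩

end FIN_

open FIN_ in
theorem p_FIN (hFLDA : T_FLDA) (hFLDB : T_FLDB) (hCONJ : T_CONJ) (hPG : T_PG) (hP2 : T_P2)
    (hNP : T_NP) (K : Type) [Field K] [NumberField K] [IsCMField K] :
    (ExcField K → ∀ Φ : Finset (K →+* QBar), IsCMType K Φ → ¬ NotInduced Φ) ∧
    (¬ ExcField K →
      (∃ Φ : Finset (K →+* QBar), IsCMType K Φ ∧ GoodType Φ) ∧
      ∀ p n : ℕ, p.Prime → finrank ℚ K = 2 * p ^ n →
        2 * Nat.card {Φ : Finset (K →+* QBar) // IsCMType K Φ ∧ ¬ GoodType Φ} ≤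
          Nat.card {Φ : Finset (K →+* QBar) // IsCMType K Φ}) := by
  classical
  refine ⟨hFLDA K, fun hexc => ?_⟩
  obtain ⟨c, hcm, hc⟩ := hCONJ K
  have hX := cx hc hcm
  have hne : Nonempty (K →+* QBar) := ⟨((IsAlgClosed.lift : K →ₐ[ℚ] QBar) : K →+* QBar)⟩
  have htwo : (∃ n, Fintype.card (K →+* QBar) = 2 ^ n) → HalfGood (HG K) c := by
    intro hn
    rcases hP2 _ (HG K) c hX hne hn with h | h
    · exact h
    · exact absurd (exc_of hFLDB h) hexc
  constructor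
  · by_cases hH : IsPGroup 2 (HG K)
    · rcases hPG _ (HG K) c hX hne hH with h | h
      · exact exists_of_halfGood hc h
      · exact absurd (exc_of hFLDB h) hexc
    · obtain ⟨ε, h1, h2⟩ := hNP _ (HG K) c hX hH
      refine ⟨pos ε, type_pos hc h1, good_of_nd hc (type_pos hc h1) ?_⟩
      rw [sgn_pos h1]
      exact h2
  · intro p n hp hK
    by_cases hp2 : p = 2
    · apply card_half hc
      apply htwo
      refine ⟨n + 1, ?_⟩
      rw [CMTP.card_emb, hK, hp2, pow_succ]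
      ring
    rcases Nat.eq_zero_or_pos n with hn | hn
    · apply card_half hc
      apply htwo
      refine ⟨1, ?_⟩
      rw [CMTP.card_emb, hK, hn]
      norm_num
    · have h3 : 3 ≤ p ^ n := by
        have h4 : 3 ≤ p := by
          have := hp.two_le
          omega
        calc 3 ≤ p := h4
          _ = p ^ 1 := (pow_one p).symm
          _ ≤ p ^ n := Nat.pow_le_pow_right hp.pos hn
      obtain ⟨O, hO, h5⟩ := CMTP.good_of_odd p n hp hp2 hK h3
      exact CMTP.count_half O hO p hp GoodType fun Φ hΦ hk => good_of_ndeg hΦ (h5 Φ hΦ hk)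

end Pool.Agent.ECF
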