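import Pool.Agent.CMV.Fields
import Pool.Agent.ECF.Targets

set_option autoImplicit false

/-!
# Every CM field: the CM types of the exceptional fields are induced
-/

namespace Pool.Agent.ECF

open Finset NumberField Module
open Pool.Agent.CMT (QBar IsCMType)
open Pool.Agent.CMTP (NotInduced)

namespace FLDA_

/-- every half system with respect to a central involution is invariant under a further element -/
def Inv (G : Type) [Group G] : Prop :=
  ∀ (T : G → Prop) (c : G), c ≠ 1 → (∀ g, c * g = g * c) → (∀ g, T g ↔ ¬ T (g * c)) →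
    ∃ u : G, u ≠ 1 ∧ ∀ g, T g ↔ T (g * u)

theorem inv_of_equiv {G D : Type} [Group G] [Group D] (e : G ≃* D) (h : Inv D) : Inv G := by
  intro T c hc hcomm hT
  obtain ⟨u, hu, hu2⟩ := h (fun x => T (e.symm x)) (e c) (by
      intro h1
      exact hc (e.injective (h1.trans (map_one e).symm))) (by
      intro x
      have h1 := congrArg e (hcomm (e.symm x))
      rw [map_mul, map_mul, e.apply_symm_apply] at h1
      exact h1) (by
      intro x
      have h1 := hT (e.symm x)
      rw [map_mul, e.symm_apply_apply]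
      exact h1)
  refine ⟨e.symm u, ?_, ?_⟩
  · intro h1
    apply hu
    rw [← e.apply_symm_apply u, h1, map_one]
  · intro g
    have h1 := hu2 (e g)
    rw [map_mul, e.symm_apply_apply] at h1
    exact h1

theorem inv_klein (G : Type) [Group G] [Finite G] [IsKleinFour G] : Inv G := by
  classical
  let _ := Fintype.ofFinite G
  intro T c hc hcomm hT
  have hcard : Fintype.card G = 4 := by
    rw [← Nat.card_eq_fintype_card]
    exact IsKleinFour.card_four
  obtain ⟨a, ha⟩ : ∃ a : G, a ∉ ({1, c} : Finset G) := by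
    by_contra h
    push Not at h
    have h1 : (univ : Finset G).card ≤ ({1, c} : Finset G).card :=
      card_le_card (fun x _ => h x)
    have h2 : ({1, c} : Finset G).card ≤ 2 := card_le_two
    rw [card_univ, hcard] at h1
    omega
  rw [mem_insert, mem_singleton, not_or] at ha
  have haa : a * a = 1 := IsKleinFour.mul_self a
  have hcc : c * c = 1 := IsKleinFour.mul_self c
  have huniv := IsKleinFour.eq_finset_univ ha.1 hc ha.2
  have hall : ∀ g : G, g = a * c ∨ g = a ∨ g = c ∨ g = 1 := by
    intro g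
    have := mem_univ g
    rw [← huniv] at this
    simpa only [mem_insert, mem_singleton] using this
  have hca : c * a = a * c := hcomm a
  have e1 : T 1 ↔ ¬ T c := by
    have := hT 1
    rwa [one_mul] at this
  have e2 : T a ↔ ¬ T (a * c) := hT a
  by_cases h : T 1 ↔ T a
  · refine ⟨a, ha.1, fun g => ?_⟩
    rcases hall g with rfl | rfl | rfl | rfl
    · rw [mul_assoc, hca, ← mul_assoc, haa, one_mul]
      tauto
    · rw [haa]
      tauto
    · rw [hca]
      tauto
    · rw [one_mul]
      tauto
  · refine ⟨a * c, ?_, fun g => ?_⟩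
    · intro h1
      apply ha.2
      calc a = a * (c * c) := by rw [hcc, mul_one]
        _ = c := by rw [← mul_assoc, h1, one_mul]
    rcases hall g with rfl | rfl | rfl | rfl
    · rw [IsKleinFour.mul_self (a * c)]
      tauto
    · rw [← mul_assoc, haa, one_mul]
      tauto
    · rw [← hca, ← mul_assoc, hcc, one_mul]
      tauto
    · rw [one_mul]
      tauto

open DihedralGroup in
theorem cases8 (P : DihedralGroup 4 → Prop) (h0 : P (r 0)) (h1 : P (r 1)) (h2 : P (r 2))
    (h3 : P (r 3)) (k0 : P (sr 0)) (k1 : P (sr 1)) (k2 : P (sr 2)) (k3 : P (sr 3)) :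
    ∀ g, P g := by
  rintro (i | i)
  · fin_cases i
    · exact h0
    · exact h1
    · exact h2
    · exact h3
  · fin_cases i
    · exact k0
    · exact k1
    · exact k2
    · exact k3

open DihedralGroup in
theorem inv_dihedral : Inv (DihedralGroup 4) := by
  intro T c hc hcomm hT
  have hc2 : c = r 2 := by
    revert c
    have h : ∀ c : DihedralGroup 4, c ≠ 1 → (∀ g, c * g = g * c) → c = r 2 := by decide
    intro c h1 h2 _
    exact h c h1 h2
  subst hc2
  have e0 : T (r 0) ↔ ¬ T (r 2) := hT (r 0)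
  have e1 : T (r 1) ↔ ¬ T (r 3) := hT (r 1)
  have f0 : T (sr 0) ↔ ¬ T (sr 2) := hT (sr 0)
  have f1 : T (sr 1) ↔ ¬ T (sr 3) := hT (sr 1)
  by_cases p0 : T (r 0) ↔ T (sr 0)
  · by_cases p1 : T (r 1) ↔ T (sr 1)
    · by_cases q : T (r 0) ↔ T (r 1)
      · refine ⟨sr 1, by decide, cases8 _ ?_ ?_ ?_ ?_ ?_ ?_ ?_ ?_⟩
        · show T (r 0) ↔ T (sr 1)
          tauto
        · show T (r 1) ↔ T (sr 0)
          tauto
        · show T (r 2) ↔ T (sr 3)
          tauto
        · show T (r 3) ↔ T (sr 2)
          tauto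
        · show T (sr 0) ↔ T (r 1)
          tauto
        · show T (sr 1) ↔ T (r 0)
          tauto
        · show T (sr 2) ↔ T (r 3)
          tauto
        · show T (sr 3) ↔ T (r 2)
          tauto
      · refine ⟨sr 3, by decide, cases8 _ ?_ ?_ ?_ ?_ ?_ ?_ ?_ ?_⟩
        · show T (r 0) ↔ T (sr 3)
          tauto
        · show T (r 1) ↔ T (sr 2)
          tauto
        · show T (r 2) ↔ T (sr 1)
          tauto
        · show T (r 3) ↔ T (sr 0)
          tauto
        · show T (sr 0) ↔ T (r 3)
          tauto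
        · show T (sr 1) ↔ T (r 2)
          tauto
        · show T (sr 2) ↔ T (r 1)
          tauto
        · show T (sr 3) ↔ T (r 0)
          tauto
    · refine ⟨sr 0, by decide, cases8 _ ?_ ?_ ?_ ?_ ?_ ?_ ?_ ?_⟩
      · show T (r 0) ↔ T (sr 0)
        tauto
      · show T (r 1) ↔ T (sr 3)
        tauto
      · show T (r 2) ↔ T (sr 2)
        tauto
      · show T (r 3) ↔ T (sr 1)
        tauto
      · show T (sr 0) ↔ T (r 0)
        tauto
      · show T (sr 1) ↔ T (r 3)
        tauto
      · show T (sr 2) ↔ T (r 2)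
        tauto
      · show T (sr 3) ↔ T (r 1)
        tauto
  · by_cases p1 : T (r 1) ↔ T (sr 1)
    · refine ⟨sr 2, by decide, cases8 _ ?_ ?_ ?_ ?_ ?_ ?_ ?_ ?_⟩
      · show T (r 0) ↔ T (sr 2)
        tauto
      · show T (r 1) ↔ T (sr 1)
        tauto
      · show T (r 2) ↔ T (sr 0)
        tauto
      · show T (r 3) ↔ T (sr 3)
        tauto
      · show T (sr 0) ↔ T (r 2)
        tauto
      · show T (sr 1) ↔ T (r 1)
        tauto
      · show T (sr 2) ↔ T (r 0)
        tauto
      · show T (sr 3) ↔ T (r 3)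
        tauto
    · by_cases q : T (r 0) ↔ T (r 1)
      · refine ⟨sr 3, by decide, cases8 _ ?_ ?_ ?_ ?_ ?_ ?_ ?_ ?_⟩
        · show T (r 0) ↔ T (sr 3)
          tauto
        · show T (r 1) ↔ T (sr 2)
          tauto
        · show T (r 2) ↔ T (sr 1)
          tauto
        · show T (r 3) ↔ T (sr 0)
          tauto
        · show T (sr 0) ↔ T (r 3)
          tauto
        · show T (sr 1) ↔ T (r 2)
          tauto
        · show T (sr 2) ↔ T (r 1)
          tauto
        · show T (sr 3) ↔ T (r 0)
          tauto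
      · refine ⟨sr 1, by decide, cases8 _ ?_ ?_ ?_ ?_ ?_ ?_ ?_ ?_⟩
        · show T (r 0) ↔ T (sr 1)
          tauto
        · show T (r 1) ↔ T (sr 0)
          tauto
        · show T (r 2) ↔ T (sr 3)
          tauto
        · show T (r 3) ↔ T (sr 2)
          tauto
        · show T (sr 0) ↔ T (r 1)
          tauto
        · show T (sr 1) ↔ T (r 0)
          tauto
        · show T (sr 2) ↔ T (r 3)
          tauto
        · show T (sr 3) ↔ T (r 2)
          tauto

section field

variable (K : Type) [Field K] [NumberField K] [IsGalois ℚ K]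

/-- the embeddings are a torsor -/
theorem emb_surj (b : K →+* QBar) (φ : K →+* QBar) :
    ∃ g : Gal(K/ℚ), φ = b.comp (g : K →+* K) := by
  have h : Function.Bijective (fun g : Gal(K/ℚ) => b.comp (g : K →+* K)) := by
    rw [Fintype.bijective_iff_injective_and_card]
    constructor
    · intro σ τ h
      ext x
      exact b.injective (RingHom.congr_fun h x)
    · rw [← Nat.card_eq_fintype_card, IsGalois.card_aut_eq_finrank, NumberField.Embeddings.card]
  obtain ⟨g, hg⟩ := h.2 φ
  exact ⟨g, hg.symm⟩

theorem core [IsCMField K] (hG : Inv Gal(K/ℚ)) (Φ : Finset (K →+* QBar)) (hΦ : IsCMType K Φ) :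
    ¬ NotInduced Φ := by
  intro hni
  obtain ⟨b⟩ : Nonempty (K →+* QBar) := inferInstance
  obtain ⟨c, hc⟩ : ∃ c : Gal(K/ℚ), ∀ x, c x = IsCMField.complexConj K x :=
    ⟨(IsCMField.complexConj K).restrictScalars ℚ, fun _ => rfl⟩
  have hc1 : c ≠ 1 := by
    intro h
    apply IsCMField.complexConj_ne_one K
    ext x
    have := AlgEquiv.congr_fun h x
    rw [hc] at this
    simpa using this
  have hcomm : ∀ g, c * g = g * c := by
    intro g
    ext x
    obtain ⟨ι⟩ : Nonempty (K →+* ℂ) := inferInstance
    apply ι.injective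
    have h1 := IsCMField.complexEmbedding_complexConj K (ι.comp (g : K →+* K)) x
    have h2 := IsCMField.complexEmbedding_complexConj K ι (g x)
    rw [AlgEquiv.mul_apply, AlgEquiv.mul_apply, hc, hc]
    exact h2.trans h1.symm
  obtain ⟨T, hTdef⟩ : ∃ T : Gal(K/ℚ) → Prop, ∀ g, T g ↔ b.comp (g : K →+* K) ∈ Φ :=
    ⟨_, fun _ => Iff.rfl⟩
  have hT : ∀ g, T g ↔ ¬ T (g * c) := by
    intro g
    rw [hTdef, hTdef]
    have h1 := hΦ (b.comp (g : K →+* K))
    have h2 : (b.comp (g : K →+* K)).comp (IsCMField.complexConj K : K →+* K) =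
        b.comp ((g * c : Gal(K/ℚ)) : K →+* K) := by
      ext x
      show b (g (IsCMField.complexConj K x)) = b ((g * c) x)
      rw [AlgEquiv.mul_apply, hc]
    rw [h2] at h1
    exact h1
  obtain ⟨u, hu1, hu2⟩ := hG T c hc1 hcomm hT
  have hpow : ∀ n : ℤ, ∀ g, T g ↔ T (g * u ^ n) := by
    intro n
    induction n with
    | zero => intro g; rw [zpow_zero, mul_one]
    | succ n ih =>
      intro g
      rw [zpow_add_one, ← mul_assoc, ← hu2]
      exact ih g
    | pred n ih =>
      intro g
      rw [zpow_sub_one, ← mul_assoc, hu2 (g * u ^ (-(n : ℤ)) * u⁻¹), mul_assoc _ u⁻¹ u,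
        inv_mul_cancel, mul_one]
      exact ih g
  have htop := hni (IntermediateField.fixedField (Subgroup.zpowers u)) (by
    intro φ ψ h
    obtain ⟨g, rfl⟩ := emb_surj K b φ
    obtain ⟨g', rfl⟩ := emb_surj K b ψ
    have h1 : g'⁻¹ * g ∈ (IntermediateField.fixedField (Subgroup.zpowers u)).fixingSubgroup := by
      rw [IntermediateField.mem_fixingSubgroup_iff]
      intro x hx
      have h2 := h x hx
      have h3 : g x = g' x := b.injective h2
      rw [AlgEquiv.mul_apply, h3]
      exact g'.symm_apply_apply x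
    rw [IntermediateField.fixingSubgroup_fixedField] at h1
    obtain ⟨n, hn⟩ := Subgroup.mem_zpowers_iff.1 h1
    have h4 : g = g' * u ^ n := by
      rw [hn, mul_inv_cancel_left]
    rw [← hTdef, ← hTdef, h4]
    exact (hpow n g').symm)
  have h5 : Subgroup.zpowers u = ⊥ := by
    rw [← IntermediateField.fixingSubgroup_fixedField (Subgroup.zpowers u), htop,
      IntermediateField.fixingSubgroup_top]
  exact hu1 (Subgroup.zpowers_eq_bot.1 h5)

end field

end FLDA_

theorem p_FLDA : T_FLDA := by
  intro K _ _ _ hE Φ hΦ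
  obtain ⟨hgal, h⟩ := hE
  rcases h with h | h
  · exact FLDA_.core K (FLDA_.inv_klein Gal(K/ℚ)) Φ hΦ
  · obtain ⟨e⟩ := h
    exact FLDA_.core K (FLDA_.inv_of_equiv e FLDA_.inv_dihedral) Φ hΦ

end Pool.Agent.ECF
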