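import Pool.Agent.CMV.Fields
import Pool.Agent.ECF.Targets

set_option autoImplicit false

/-!
# Every CM field: Galois theory of the group of permutations of the embeddings
-/

namespace Pool.Agent.ECF

open Finset NumberField Module
open Pool.Agent.CMT (QBar)
open Pool.Agent.CMTP (HG toPerm)

namespace FLDB_

theorem fieldRange_eq (F K Q : Type) [Field F] [Field K] [Field Q] [Algebra F K] [Algebra F Q]
    [FiniteDimensional F K]
    (h : finrank F (IntermediateField.normalClosure F K Q) = finrank F K) (f : K →ₐ[F] Q) :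
    f.fieldRange = IntermediateField.normalClosure F K Q := by
  apply IntermediateField.eq_of_le_of_finrank_eq
  · exact f.fieldRange_le_normalClosure
  · rw [h]
    exact f.equivFieldRange.toLinearEquiv.finrank_eq.symm

theorem equiv_general (F K Q : Type) [Field F] [Field K] [Field Q] [Algebra F K] [Algebra F Q]
    [FiniteDimensional F K]
    (h : finrank F (IntermediateField.normalClosure F K Q) = finrank F K) (f : K →ₐ[F] Q) :
    Nonempty (K ≃ₐ[F] IntermediateField.normalClosure F K Q) := by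
  have h1 := fieldRange_eq F K Q h f
  exact ⟨f.equivFieldRange.trans (IntermediateField.equivOfEq h1)⟩

theorem range_general (F K Q : Type) [Field F] [Field K] [Field Q] [Algebra F K]
    [Algebra F Q] [Normal F Q] [FiniteDimensional F K] [CharZero F] {G P : Type} [Group G]
    [Group P] (f : G →* P) (t : G →* Gal(Q/F)) (ht : Function.Surjective t)
    (h : ∀ g, f g = 1 ↔ ∀ x ∈ IntermediateField.normalClosure F K Q, t g x = x)
    (hr : finrank F (IntermediateField.normalClosure F K Q) = finrank F K) (φ : K →ₐ[F] Q) :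
    IsGalois F K ∧ Nonempty (f.range ≃* Gal(K/F)) := by
  have hg : IsGalois F (IntermediateField.normalClosure F K Q) := ⟨⟩
  obtain ⟨e⟩ := equiv_general F K Q hr φ
  refine ⟨IsGalois.of_algEquiv e.symm, ?_⟩
  let g : G →* Gal((IntermediateField.normalClosure F K Q)/F) :=
    (AlgEquiv.restrictNormalHom (IntermediateField.normalClosure F K Q)).comp t
  have hsurj : Function.Surjective g :=
    (AlgEquiv.restrictNormalHom_surjective (F := F) (K₁ := (IntermediateField.normalClosure F K Q))
      Q).comp ht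
  have hker : f.ker = g.ker := by
    ext τ
    rw [MonoidHom.mem_ker, h, MonoidHom.mem_ker]
    exact (AlgEquiv.restrictNormal_eq_one_iff
      (IntermediateField.normalClosure F K Q) (t τ)).symm
  have e1 : f.range ≃* Gal((IntermediateField.normalClosure F K Q)/F) :=
    ((QuotientGroup.quotientKerEquivRange f).symm.trans
      (QuotientGroup.quotientMulEquivOfEq hker)).trans
      (QuotientGroup.quotientKerEquivOfSurjective g hsurj)
  exact ⟨e1.trans (AlgEquiv.autCongr e.symm)⟩

end FLDB_

theorem p_FLDB : T_FLDB := by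
  intro K _ _ hcard
  have h0 : Normal ℚ QBar := CMV.normal_QBar
  rw [CMV.card_HG] at hcard
  obtain ⟨φ⟩ : Nonempty (K →+* QBar) := inferInstance
  unfold HG
  refine FLDB_.range_general ℚ K QBar (toPerm K) CMV.toGal CMV.toGal_surjective
    (fun τ => ?_) hcard φ.toRatAlgHom
  have h1 := CMV.mem_ker_toPerm K τ
  rw [MonoidHom.mem_ker] at h1
  rw [h1, CMV.mem_normalClosure_iff]
  rfl

namespace FLDB_

theorem exists_conj (Q : Type) [Field Q] [Algebra ℚ Q] [Normal ℚ Q] (ι : Q →ₐ[ℚ] ℂ) :
    ∃ τ : Q ≃ₐ[ℚ] Q, ∀ x, ι (τ x) = starRingEnd ℂ (ι x) := by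
  let _ : Algebra Q ℂ := ι.toRingHom.toAlgebra
  have : IsScalarTower ℚ Q ℂ := IsScalarTower.of_algebraMap_eq' (Subsingleton.elim _ _)
  let χ : ℂ ≃ₐ[ℚ] ℂ := Complex.conjAe.restrictScalars ℚ
  exact ⟨χ.restrictNormal Q, fun x => χ.restrictNormal_commutes Q x⟩

end FLDB_

theorem p_CONJ : T_CONJ := by
  intro K _ _ _
  have h0 : Normal ℚ QBar := CMV.normal_QBar
  have halg : Algebra.IsAlgebraic ℚ QBar := CMTP.isAlgebraic_QBar ℚ
  obtain ⟨ι⟩ : Nonempty (QBar →ₐ[ℚ] ℂ) := ⟨IsAlgClosed.lift⟩
  obtain ⟨τ, hτ⟩ := FLDB_.exists_conj QBar ι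
  refine ⟨toPerm K τ.toRingEquiv, ⟨_, rfl⟩, fun φ => ?_⟩
  ext x
  rw [CMTP.toPerm_apply, CMTP.cc_apply]
  apply ι.injective
  have h1 : ι (τ (φ x)) = starRingEnd ℂ (ι (φ x)) := hτ (φ x)
  have h2 := IsCMField.complexEmbedding_complexConj K ((ι : QBar →+* ℂ).comp φ) x
  have h3 : ι (φ (IsCMField.complexConj K x)) = starRingEnd ℂ (ι (φ x)) := h2
  exact h1.trans h3.symm

end Pool.Agent.ECF
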