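import Mathlib
import Pool.Agent.ECF.Targets

set_option autoImplicit false

/-!
# `e` is free and not central, at least 16 points
-/

namespace Pool.Agent.ECF

open Finset
open scoped BigOperators

namespace K16_

variable {X : Type} [Fintype X] {H : Subgroup (Equiv.Perm X)} {c e : Equiv.Perm X}

theorem ann_comp (hx : Cx H c) {ε f : X → ℤ} (hf : Ann H c ε f) {g : Equiv.Perm X}
    (hg : g ∈ H) : Ann H c ε (fun x => f (g x)) := by
  refine ⟨fun x => ?_, fun h hh => ?_⟩
  · show f (g (c x)) = - f (g x)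
    rw [← hx.comm g hg x, hf.1]
  · exact hf.2 (g * h) (H.mul_mem hg hh)

theorem ann_add {ε f g : X → ℤ} (hf : Ann H c ε f) (hg : Ann H c ε g) :
    Ann H c ε (f + g) := by
  refine ⟨fun x => ?_, fun h hh => ?_⟩
  · simp only [Pi.add_apply, hf.1, hg.1]; ring
  · simp only [Pi.add_apply, add_mul, sum_add_distrib, hf.2 h hh, hg.2 h hh, add_zero]

/-- the odd functions orthogonal to all translates and invariant under `e` -/
def MM (H : Subgroup (Equiv.Perm X)) (c e : Equiv.Perm X) (ε : X → ℤ) :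
    AddSubgroup (X → ℤ) where
  carrier := {f | Ann H c ε f ∧ ∀ x, f (e x) = f x}
  zero_mem' := ⟨⟨fun x => by simp, fun h _ => by simp⟩, fun x => rfl⟩
  add_mem' := by
    rintro f g ⟨hf, hf'⟩ ⟨hg, hg'⟩
    exact ⟨ann_add hf hg, fun x => by simp only [Pi.add_apply, hf', hg']⟩
  neg_mem' := by
    rintro f ⟨hf, hf'⟩
    refine ⟨⟨fun x => ?_, fun h hh => ?_⟩, fun x => by simp only [Pi.neg_apply, hf']⟩
    · simp only [Pi.neg_apply, hf.1]
    · simp only [Pi.neg_apply, neg_mul, sum_neg_distrib, hf.2 h hh, neg_zero]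

theorem mem_MM {ε f : X → ℤ} :
    f ∈ MM H c e ε ↔ Ann H c ε f ∧ ∀ x, f (e x) = f x := Iff.rfl

omit [Fintype X] in
/-- a sum of a function which changes its sign under an involution -/
theorem sum_anti (he : ∀ x, e (e x) = x) (S : Finset X) (g : X → ℤ) (hS : ∀ x ∈ S, e x ∈ S)
    (hg : ∀ x ∈ S, g (e x) = - g x) : ∑ x ∈ S, g x = 0 := by
  refine Finset.sum_involution (fun x _ => e x) ?_ ?_ ?_ ?_
  · intro x hx; rw [hg x hx]; ring
  · intro x hx h0 h1
    have h2 := hg x hx
    rw [h1] at h2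
    exact h0 (by omega)
  · intro x hx; exact hS x hx
  · intro x hx; exact he x

/-- the number of odd values of an invariant function with sum zero -/
theorem eight (h2 : T_SUM4) (hc : ∀ x, c (c x) = x) (hc' : ∀ x, c x ≠ x)
    (he : ∀ x, e (e x) = x) (hec : ∀ x, e (c x) = c (e x)) (hfr : Free c e)
    (S : Finset X) (g : X → ℤ) (hS : ∀ x ∈ S, c x ∈ S ∧ e x ∈ S)
    (hg : ∀ x ∈ S, g (c x) = g x ∧ g (e x) = g x) (h0 : ∑ x ∈ S, g x = 0) :
    (S.filter fun x => ¬ (2 : ℤ) ∣ g x).card % 8 = 0 := by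
  have k1 := h2 X c e hc hc' he hec hfr (S.filter fun x => ¬ (2 : ℤ) ∣ g x)
    (fun x => (g x - 1) / 2) (by
      intro x hx
      rw [mem_filter] at hx
      simp only [mem_filter]
      rw [(hg x hx.1).1, (hg x hx.1).2]
      exact ⟨⟨(hS x hx.1).1, hx.2⟩, ⟨(hS x hx.1).2, hx.2⟩⟩) (by
      intro x hx
      rw [mem_filter] at hx
      show (g (c x) - 1) / 2 = (g x - 1) / 2 ∧ (g (e x) - 1) / 2 = (g x - 1) / 2
      rw [(hg x hx.1).1, (hg x hx.1).2]
      exact ⟨rfl, rfl⟩)
  have k2 := h2 X c e hc hc' he hec hfr (S.filter fun x => (2 : ℤ) ∣ g x)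
    (fun x => g x / 2) (by
      intro x hx
      rw [mem_filter] at hx
      simp only [mem_filter]
      rw [(hg x hx.1).1, (hg x hx.1).2]
      exact ⟨⟨(hS x hx.1).1, hx.2⟩, ⟨(hS x hx.1).2, hx.2⟩⟩) (by
      intro x hx
      rw [mem_filter] at hx
      show g (c x) / 2 = g x / 2 ∧ g (e x) / 2 = g x / 2
      rw [(hg x hx.1).1, (hg x hx.1).2]
      exact ⟨rfl, rfl⟩)
  have e1 : ∑ x ∈ S.filter (fun x => ¬ (2 : ℤ) ∣ g x), g x =
      2 * (∑ x ∈ S.filter (fun x => ¬ (2 : ℤ) ∣ g x), (g x - 1) / 2) +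
        ((S.filter fun x => ¬ (2 : ℤ) ∣ g x).card : ℤ) := by
    rw [mul_sum, card_eq_sum_ones, Nat.cast_sum, ← sum_add_distrib]
    refine sum_congr rfl fun x hx => ?_
    rw [mem_filter] at hx
    push_cast
    omega
  have e2 : ∑ x ∈ S.filter (fun x => (2 : ℤ) ∣ g x), g x =
      2 * (∑ x ∈ S.filter (fun x => (2 : ℤ) ∣ g x), g x / 2) := by
    rw [mul_sum]
    refine sum_congr rfl fun x hx => ?_
    rw [mem_filter] at hx
    omega
  have e3 := sum_filter_add_sum_filter_not S (fun x => (2 : ℤ) ∣ g x) g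
  rw [e1, e2, h0] at e3
  obtain ⟨a, ha⟩ := k1
  obtain ⟨b, hb⟩ := k2
  rw [ha, hb] at e3
  omega

theorem odd_mul {a b : ℤ} (hb : b = 1 ∨ b = -1) : (¬ (2 : ℤ) ∣ a * b) ↔ ¬ (2 : ℤ) ∣ a := by
  rcases hb with h | h <;> subst h <;> omega

/-- the centralizer of `e` in `H` -/
def G1 (H : Subgroup (Equiv.Perm X)) (e : Equiv.Perm X) : Subgroup (Equiv.Perm X) :=
  H ⊓ Subgroup.centralizer {e}

omit [Fintype X] in
theorem mem_G1 {g : Equiv.Perm X} : g ∈ G1 H e ↔ g ∈ H ∧ e * g = g * e := by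
  rw [G1, Subgroup.mem_inf, Subgroup.mem_centralizer_singleton_iff]
  constructor
  · rintro ⟨h1, h2⟩; exact ⟨h1, h2.symm⟩
  · rintro ⟨h1, h2⟩; exact ⟨h1, h2.symm⟩

/-- if the number of points where `ε` is `e`-invariant is `4` modulo `8`, there are no
`e`-invariant functions in the annihilator -/
theorem bot (h1 : T_FIXV) (h2 : T_SUM4) (hx : Cx H c) (hP : IsPGroup 2 H) (hk : Kl H c e)
    (hfr : Free c e) (h16 : 16 ∣ Fintype.card X) {t : Equiv.Perm X} (htH : t ∈ H)
    (ht : t * e * t⁻¹ = e * c) {ε : X → ℤ} (hε : Typ c ε)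
    (hB : (univ.filter fun x => ε (e x) = ε x).card % 8 = 4) : MM H c e ε = ⊥ := by
  classical
  by_contra hne
  have hec : ∀ x, e (c x) = c (e x) := fun x => (hx.comm e hk.mem x).symm
  have hte : ∀ x, t (e x) = e (c (t x)) := by
    intro x
    have := congrArg (fun g : Equiv.Perm X => g (t x)) ht
    simpa [Equiv.Perm.mul_apply] using this
  obtain ⟨f, hf, ⟨y₀, hy₀⟩, hfix⟩ := h1 X 2 Nat.prime_two (G1 H e)
    (hP.to_le inf_le_left) (MM H c e ε) (by
      rintro f ⟨hf, hf'⟩ g hg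
      rw [mem_G1] at hg
      refine ⟨ann_comp hx hf hg.1, fun x => ?_⟩
      show f (g (e x)) = f (g x)
      have : g (e x) = e (g x) := by
        have := congrArg (fun k : Equiv.Perm X => k x) hg.2
        simpa [Equiv.Perm.mul_apply] using this.symm
      rw [this, hf']) (by
      rintro f ⟨hf, hf'⟩
      refine ⟨⟨fun x => ?_, fun h hh => ?_⟩, fun x => ?_⟩
      · have := hf.1 x
        simp only [Nat.cast_ofNat] at this
        omega
      · have := hf.2 h hh
        simp only [mul_assoc, ← mul_sum] at this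
        simpa using this
      · have := hf' x
        simp only [Nat.cast_ofNat] at this
        omega) hne
  simp only [Nat.cast_ofNat] at hy₀ hfix
  rw [mem_MM] at hf
  obtain ⟨hf, hfe⟩ := hf
  set B := univ.filter fun x => ε (e x) = ε x with hBdef
  have hεe : ∀ x, ε (e x) = ε x ∨ ε (e x) = - ε x := by
    intro x
    rcases hε.1 (e x) with h | h <;> rcases hε.1 x with h' | h' <;> rw [h, h'] <;> simp
  -- (i)
  have hBc : ∀ x ∈ B, c x ∈ B ∧ e x ∈ B := by
    intro x hxB
    rw [hBdef, mem_filter] at hxB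
    simp only [hBdef, mem_filter, mem_univ, true_and]
    rw [hec, hε.2, hε.2, hxB.2, hk.sq]
    exact ⟨rfl, rfl⟩
  have hBc' : ∀ x ∈ Bᶜ, c x ∈ Bᶜ ∧ e x ∈ Bᶜ := by
    intro x hxB
    rw [mem_compl, hBdef, mem_filter, not_and] at hxB
    have h3 := hxB (mem_univ x)
    simp only [hBdef, mem_compl, mem_filter, mem_univ, true_and]
    rw [hec, hε.2, hε.2, hk.sq]
    exact ⟨fun h => h3 (neg_injective h), fun h => h3 h.symm⟩
  have hs1 : ∑ x ∈ B, f x * ε x = 0 := by
    have e1 := hf.2 1 H.one_mem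
    simp only [Equiv.Perm.one_apply] at e1
    rw [← sum_add_sum_compl B] at e1
    rw [sum_anti hk.sq Bᶜ (fun x => f x * ε x) (fun x hxB => (hBc' x hxB).2) ?_,
      add_zero] at e1
    · exact e1
    · intro x hxB
      rw [mem_compl, hBdef, mem_filter, not_and] at hxB
      have h3 := (hεe x).resolve_left (hxB (mem_univ x))
      show f (e x) * ε (e x) = - (f x * ε x)
      rw [hfe, h3]; ring
  have hs2 : ∑ x ∈ Bᶜ, f (t x) * ε x = 0 := by
    have e1 := hf.2 t htH
    rw [← sum_add_sum_compl B] at e1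
    rw [sum_anti hk.sq B (fun x => f (t x) * ε x) (fun x hxB => (hBc x hxB).2) ?_,
      zero_add] at e1
    · exact e1
    · intro x hxB
      rw [hBdef, mem_filter] at hxB
      show f (t (e x)) * ε (e x) = - (f (t x) * ε x)
      rw [hte, hfe, hf.1, hxB.2]; ring
  have k1 := eight h2 hx.sq hx.ne hk.sq hec hfr B (fun x => f x * ε x) hBc (by
    intro x hxB
    rw [hBdef, mem_filter] at hxB
    show f (c x) * ε (c x) = f x * ε x ∧ f (e x) * ε (e x) = f x * ε x
    rw [hf.1, hε.2, hfe, hxB.2]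
    exact ⟨by ring, rfl⟩) hs1
  have k2 := eight h2 hx.sq hx.ne hk.sq hec hfr Bᶜ (fun x => f (t x) * ε x) hBc' (by
    intro x hxB
    rw [mem_compl, hBdef, mem_filter, not_and] at hxB
    have h3 := (hεe x).resolve_left (hxB (mem_univ x))
    show f (t (c x)) * ε (c x) = f (t x) * ε x ∧ f (t (e x)) * ε (e x) = f (t x) * ε x
    rw [← hx.comm t htH, hf.1, hε.2, hte, hfe, hf.1, h3]
    exact ⟨by ring, by ring⟩) hs2
  have hodd : ∀ x, (¬ (2 : ℤ) ∣ f x * ε x) ↔ ¬ (2 : ℤ) ∣ f x := fun x => odd_mul (hε.1 x)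
  have hodd' : ∀ x, (¬ (2 : ℤ) ∣ f (t x) * ε x) ↔ ¬ (2 : ℤ) ∣ f (t x) :=
    fun x => odd_mul (hε.1 x)
  simp only [hodd] at k1
  simp only [hodd'] at k2
  -- the decomposition of `H`
  have hdec : ∀ h ∈ H, h ∈ G1 H e ∨ ∃ g ∈ G1 H e, h = g * t := by
    intro h hh
    rcases hk.nor h hh with h3 | h3
    · left
      rw [mem_G1]
      refine ⟨hh, ?_⟩
      calc e * h = (h * e * h⁻¹) * h := by rw [h3]
        _ = h * e := by group
    · right
      refine ⟨h * t⁻¹, ?_, by group⟩
      rw [mem_G1]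
      refine ⟨H.mul_mem hh (H.inv_mem htH), ?_⟩
      have hce : ∀ g ∈ H, c * g = g * c := by
        intro g hg
        ext x
        exact hx.comm g hg x
      have h4 : e * (h * t⁻¹) = h * (t⁻¹ * (t * h⁻¹ * e * h * t⁻¹)) := by group
      have h5 : h⁻¹ * e * h = e * c := by
        have h6 : h * (e * c) * h⁻¹ = e := by
          calc h * (e * c) * h⁻¹ = (h * e * h⁻¹) * (h * c * h⁻¹) := by group
            _ = (e * c) * (c * h * h⁻¹) := by rw [h3, hce h hh]
            _ = e * (c * c) := by group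
            _ = e := by
              have : c * c = 1 := by ext x; exact hx.sq x
              rw [this, mul_one]
        calc h⁻¹ * e * h = h⁻¹ * (h * (e * c) * h⁻¹) * h := by rw [h6]
          _ = e * c := by group
      calc e * (h * t⁻¹) = h * (h⁻¹ * e * h) * t⁻¹ := by group
        _ = h * (e * c) * t⁻¹ := by rw [h5]
        _ = h * t⁻¹ * (t * e * t⁻¹) * (t * c * t⁻¹) := by group
        _ = h * t⁻¹ * (e * c) * (c * t * t⁻¹) := by rw [ht, hce t htH]
        _ = h * t⁻¹ * (e * (c * c)) := by group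
        _ = h * t⁻¹ * e := by
          have : c * c = 1 := by ext x; exact hx.sq x
          rw [this, mul_one]
  have hun : ∀ x, (¬ (2 : ℤ) ∣ f x) ∨ ¬ (2 : ℤ) ∣ f (t x) := by
    intro x
    obtain ⟨h, hh, hhx⟩ := hx.trans x y₀
    rcases hdec h hh with h3 | ⟨g, hg, rfl⟩
    · left
      have := hfix h h3 x
      rw [hhx] at this
      omega
    · right
      have := hfix g hg (t x)
      rw [Equiv.Perm.mul_apply] at hhx
      rw [hhx] at this
      omega
  have hdi : (∃ x, (¬ (2 : ℤ) ∣ f x) ∧ ¬ (2 : ℤ) ∣ f (t x)) → ∀ y, ¬ (2 : ℤ) ∣ f y := by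
    rintro ⟨x, ha, hb⟩ y
    obtain ⟨h, hh, rfl⟩ := hx.trans x y
    rcases hdec h hh with h3 | ⟨g, hg, rfl⟩
    · have := hfix h h3 x
      omega
    · have := hfix g hg (t x)
      rw [Equiv.Perm.mul_apply]
      omega
  by_cases hall : ∀ y, ¬ (2 : ℤ) ∣ f y
  · rw [filter_true_of_mem fun x _ => hall x] at k1
    omega
  · have hno : ∀ x, (¬ (2 : ℤ) ∣ f (t x)) ↔ ¬ ¬ (2 : ℤ) ∣ f x := by
      intro x
      constructor
      · intro h3 h4
        exact hall (hdi ⟨x, h4, h3⟩)
      · intro h3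
        exact (hun x).resolve_left h3
    have c1 : (univ.filter fun x => ¬ (2 : ℤ) ∣ f (t x)).card =
        (univ.filter fun x => ¬ (2 : ℤ) ∣ f x).card := by
      refine card_equiv t fun x => ?_
      simp
    have c2 : (univ.filter fun x => ¬ (2 : ℤ) ∣ f x).card +
        (univ.filter fun x => ¬ (2 : ℤ) ∣ f (t x)).card = Fintype.card X := by
      simp only [hno]
      rw [card_filter_add_card_filter_not, card_univ]
    have c3 : (B.filter fun x => ¬ (2 : ℤ) ∣ f x).card +
        (B.filter fun x => ¬ (2 : ℤ) ∣ f (t x)).card = B.card := by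
      simp only [hno]
      rw [card_filter_add_card_filter_not]
    have c4 : (B.filter fun x => ¬ (2 : ℤ) ∣ f (t x)).card +
        (Bᶜ.filter fun x => ¬ (2 : ℤ) ∣ f (t x)).card =
          (univ.filter fun x => ¬ (2 : ℤ) ∣ f (t x)).card := by
      rw [← card_union_of_disjoint, ← filter_union, union_compl]
      exact disjoint_filter_filter disjoint_compl_right
    obtain ⟨m, hm⟩ := h16
    omega

/-- if the number of points where `ε` is `e`-invariant is `4` modulo `8`, then `ε` is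
nondegenerate -/
theorem core (h1 : T_FIXV) (h2 : T_SUM4) (hx : Cx H c) (hP : IsPGroup 2 H) (hk : Kl H c e)
    (hfr : Free c e) (h16 : 16 ∣ Fintype.card X) {t : Equiv.Perm X} (htH : t ∈ H)
    (ht : t * e * t⁻¹ = e * c) {ε : X → ℤ} (hε : Typ c ε)
    (hB : (univ.filter fun x => ε (e x) = ε x).card % 8 = 4) : ND H c ε := by
  intro f hf
  have hb := bot h1 h2 hx hP hk hfr h16 htH ht hε hB
  have hte : ∀ x, t (e x) = e (c (t x)) := by
    intro x
    have := congrArg (fun g : Equiv.Perm X => g (t x)) ht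
    simpa [Equiv.Perm.mul_apply] using this
  have k1 : f + (fun x => f (e x)) ∈ MM H c e ε := by
    refine ⟨ann_add hf (ann_comp hx hf hk.mem), fun x => ?_⟩
    simp only [Pi.add_apply, hk.sq]
    ring
  rw [hb, AddSubgroup.mem_bot] at k1
  have k2 : ∀ x, f (e x) = - f x := by
    intro x
    have := congrFun k1 x
    simp only [Pi.add_apply, Pi.zero_apply] at this
    omega
  have k3 : (fun x => f (t x)) ∈ MM H c e ε := by
    refine ⟨ann_comp hx hf htH, fun x => ?_⟩
    show f (t (e x)) = f (t x)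
    rw [hte, k2, hf.1, neg_neg]
  rw [hb, AddSubgroup.mem_bot] at k3
  funext x
  have := congrFun k3 (t⁻¹ x)
  simpa using this

omit [Fintype X] in
theorem flip_typ [DecidableEq X] (hx : Cx H c) {ε : X → ℤ} (hε : Typ c ε) (x₀ : X) :
    Typ c (flip c x₀ ε) := by
  refine ⟨fun x => ?_, fun x => ?_⟩
  · unfold flip
    split_ifs
    · rcases hε.1 x with h | h <;> rw [h] <;> simp
    · exact hε.1 x
  · unfold flip
    have h3 : (c x = x₀ ∨ c x = c x₀) ↔ (x = x₀ ∨ x = c x₀) := by
      constructor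
      · rintro (h | h)
        · right; rw [← h, hx.sq]
        · left; exact c.injective h
      · rintro (h | h)
        · right; rw [h]
        · left; rw [h, hx.sq]
    simp only [h3, hε.2]
    split_ifs <;> rfl

omit [Fintype X] in
theorem flip_flip [DecidableEq X] (x₀ : X) (ε : X → ℤ) : flip c x₀ (flip c x₀ ε) = ε := by
  funext x
  unfold flip
  split_ifs
  · rw [neg_neg]
  · rfl

end K16_

/-- `e` is free and not central, at least 16 points -/
theorem p_K16 (h1 : T_FIXV) (h2 : T_SUM4) (h3 : T_CARDB) : T_K16 := by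
  intro X _ H c e hx hP hk hfr h16 ht
  classical
  obtain ⟨t, htH, ht⟩ := ht
  rcases isEmpty_or_nonempty X with hX | ⟨⟨x₀⟩⟩
  · exact ⟨id, fun ε h => h, fun ε _ => rfl, fun ε _ => Or.inl fun f _ =>
      funext fun x => isEmptyElim x⟩
  · refine ⟨flip c x₀, fun ε h => K16_.flip_typ hx h x₀, fun ε _ => K16_.flip_flip x₀ ε,
      fun ε hε => ?_⟩
    rcases h3 X c e hx.sq hx.ne hk.sq (fun x => (hx.comm e hk.mem x).symm) hfr ε hε x₀ with
      h | h
    · exact Or.inl (K16_.core h1 h2 hx hP hk hfr h16 htH ht hε h)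
    · exact Or.inr (K16_.core h1 h2 hx hP hk hfr h16 htH ht (K16_.flip_typ hx hε x₀) h)

end Pool.Agent.ECF
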