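import Mathlib
import Pool.Agent.ECF.Targets

set_option autoImplicit false

/-!
# K8: eight points, the centralizer of `e` is not transitive, more than eight elements
-/

namespace Pool.Agent.ECF

open Finset
open scoped BigOperators

namespace K8_

variable {X : Type}

theorem flip_typ [DecidableEq X] {c : Equiv.Perm X} (hc : ∀ x, c (c x) = x) (x₀ : X)
    {ε : X → ℤ} (h : Typ c ε) : Typ c (flip c x₀ ε) := by
  refine ⟨fun x => ?_, fun x => ?_⟩
  · unfold flip
    split_ifs
    · rcases h.1 x with h1 | h1 <;> simp [h1]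
    · exact h.1 x
  · have e1 : (c x = x₀ ∨ c x = c x₀) ↔ (x = x₀ ∨ x = c x₀) := by
      constructor
      · rintro (h1 | h1)
        · right; rw [← h1, hc]
        · left; exact c.injective h1
      · rintro (h1 | h1)
        · right; rw [h1]
        · left; rw [h1, hc]
    unfold flip
    simp only [e1]
    split_ifs
    · rw [h.2]
    · rw [h.2]

theorem flip_flip [DecidableEq X] {c : Equiv.Perm X} (x₀ : X) (ε : X → ℤ) :
    flip c x₀ (flip c x₀ ε) = ε := by
  funext x
  unfold flip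
  split_ifs <;> simp

end K8_

open K8_ in
theorem p_K8 : T_K8 := by
  classical
  intro X _ H c e hC hP hK hF hX hCT hcard
  have hcc := hC.sq
  have hee := hK.sq
  have hcen : ∀ h ∈ H, ∀ x, h (c x) = c (h x) := fun h hh x => (hC.comm h hh x).symm
  have hec : ∀ x, e (c x) = c (e x) := hcen e hK.mem
  -- the element t
  obtain ⟨t, htH, hte⟩ : ∃ t ∈ H, t * e * t⁻¹ = e * c := by
    by_contra hcon
    push Not at hcon
    apply hCT
    intro x y
    obtain ⟨h, hh, hxy⟩ := hC.trans x y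
    refine ⟨h, hh, ?_, hxy⟩
    rcases hK.nor h hh with h1 | h1
    · exact mul_inv_eq_iff_eq_mul.1 h1
    · exact absurd h1 (hcon h hh)
  have hnor : ∀ h : Equiv.Perm X, h * e * h⁻¹ = e * c → ∀ x, h (e x) = e (c (h x)) := by
    intro h h1 x
    have h2 : h * e = e * c * h := mul_inv_eq_iff_eq_mul.1 h1
    exact congrArg (fun g : Equiv.Perm X => g x) h2
  have hte' : ∀ x, t (e x) = e (c (t x)) := hnor t hte
  have htc : ∀ x, t (c x) = c (t x) := hcen t htH
  have hti : ∀ x, t⁻¹ (e x) = e (c (t⁻¹ x)) := by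
    intro x
    rw [Equiv.Perm.inv_eq_iff_eq, hte', htc, hcc]
    simp
  have htic : ∀ x, t⁻¹ (c x) = c (t⁻¹ x) := hcen _ (H.inv_mem htH)
  -- the centralizer
  let P : Equiv.Perm X → Prop := fun g => g ∈ H ∧ ∀ x, g (e x) = e (g x)
  have Pinv : ∀ g, P g → P g⁻¹ := by
    intro g hg
    refine ⟨H.inv_mem hg.1, fun x => ?_⟩
    rw [Equiv.Perm.inv_eq_iff_eq, hg.2]
    simp
  have Pmul : ∀ g g', P g → P g' → P (g * g') := by
    intro g g' hg hg'
    refine ⟨H.mul_mem hg.1 hg'.1, fun x => ?_⟩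
    rw [Equiv.Perm.mul_apply, Equiv.Perm.mul_apply, hg'.2, hg.2]
  have hdich : ∀ h ∈ H, P h ∨ ∃ g, P g ∧ ∀ x, h x = g (t x) := by
    intro h hh
    rcases hK.nor h hh with h1 | h1
    · left
      refine ⟨hh, fun x => ?_⟩
      have h2 : h * e = e * h := mul_inv_eq_iff_eq_mul.1 h1
      exact congrArg (fun g : Equiv.Perm X => g x) h2
    · right
      refine ⟨h * t⁻¹, ⟨H.mul_mem hh (H.inv_mem htH), fun x => ?_⟩, fun x => by simp⟩
      rw [Equiv.Perm.mul_apply, Equiv.Perm.mul_apply, hti, hnor h h1, hcen h hh, hcc]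
  obtain ⟨x0⟩ : Nonempty X := by
    rw [← Fintype.card_pos_iff, hX]
    norm_num
  set y0 := t x0 with hy0
  have hO : ∀ g, P g → g x0 ≠ y0 := by
    intro g hg hgx
    apply hCT
    have hz : ∀ z, ∃ g', P g' ∧ g' x0 = z := by
      intro z
      obtain ⟨h, hh, hxz⟩ := hC.trans x0 z
      rcases hdich h hh with h1 | ⟨g2, hg2, h2⟩
      · exact ⟨h, h1, hxz⟩
      · refine ⟨g2 * g, Pmul _ _ hg2 hg, ?_⟩
        rw [Equiv.Perm.mul_apply, hgx, hy0, ← h2, hxz]
    intro x y
    obtain ⟨g1, hg1, rfl⟩ := hz x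
    obtain ⟨g2, hg2, rfl⟩ := hz y
    have hP' := Pmul _ _ hg2 (Pinv _ hg1)
    exact ⟨g2 * g1⁻¹, hP'.1, Equiv.ext hP'.2, by simp⟩
  -- the Klein four group
  let A : Fin 4 → Equiv.Perm X := ![1, c, e, e * c]
  have A0 : A 0 = 1 := rfl
  have A1 : A 1 = c := rfl
  have A2 : A 2 = e := rfl
  have A3 : A 3 = e * c := rfl
  have PA : ∀ j, P (A j) := by
    have h1 : P 1 := ⟨H.one_mem, fun x => rfl⟩
    have h2 : P c := ⟨hC.mem, fun x => (hec x).symm⟩
    have h3 : P e := ⟨hK.mem, fun x => rfl⟩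
    intro j
    fin_cases j
    · exact h1
    · exact h2
    · exact h3
    · exact Pmul _ _ h3 h2
  have hdist : ∀ x, c x ≠ x ∧ e x ≠ x ∧ e x ≠ c x ∧ e (c x) ≠ x ∧ e (c x) ≠ c x ∧
      e (c x) ≠ e x := by
    intro x
    refine ⟨hC.ne x, (hF x).1, (hF x).2, ?_, (hF (c x)).1, ?_⟩
    · intro h
      have := (hF (c x)).2
      rw [hcc] at this
      exact this h
    · intro h
      exact hC.ne x (e.injective h)
  have hAinj : ∀ x, Function.Injective fun j => A j x := by
    intro x i j hij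
    obtain ⟨d1, d2, d3, d4, d5, d6⟩ := hdist x
    fin_cases i <;> fin_cases j <;> first
      | rfl
      | (exfalso
         simp only [A0, A1, A2, A3, Fin.zero_eta, Fin.mk_one, Fin.reduceFinMk,
           Equiv.Perm.one_apply, Equiv.Perm.mul_apply] at hij
         first
          | exact d1 hij | exact d2 hij | exact d3 hij | exact d4 hij | exact d5 hij
          | exact d6 hij | exact d1 hij.symm | exact d2 hij.symm | exact d3 hij.symm
          | exact d4 hij.symm | exact d5 hij.symm | exact d6 hij.symm)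
  have hcross : ∀ i j, A i x0 ≠ A j y0 := by
    intro i j h
    apply hO ((A j)⁻¹ * A i) (Pmul _ _ (Pinv _ (PA j)) (PA i))
    rw [Equiv.Perm.mul_apply, h]
    simp
  let ψ : Fin 4 ⊕ Fin 4 → X := Sum.elim (fun j => A j x0) (fun j => A j y0)
  have hψ : Function.Bijective ψ := by
    rw [Fintype.bijective_iff_injective_and_card]
    constructor
    · rintro (i | i) (j | j) hij
      · rw [hAinj x0 hij]
      · exact absurd hij (hcross i j)
      · exact absurd hij.symm (hcross j i)
      · rw [hAinj y0 hij]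
    · rw [hX]
      rfl
  have hcov : ∀ x, (∃ j, x = A j x0) ∨ ∃ j, x = A j y0 := by
    intro x
    obtain ⟨j, rfl⟩ := hψ.2 x
    rcases j with j | j
    · exact Or.inl ⟨j, rfl⟩
    · exact Or.inr ⟨j, rfl⟩
  have hsum : ∀ F : X → ℤ, ∑ x, F x = (F x0 + F (c x0) + F (e x0) + F (e (c x0))) +
      (F y0 + F (c y0) + F (e y0) + F (e (c y0))) := by
    intro F
    rw [← Fintype.sum_bijective ψ hψ (fun i => F (ψ i)) F (fun _ => rfl)]
    rw [Fintype.sum_sum_type, Fin.sum_univ_four, Fin.sum_univ_four]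
    rfl
  -- t interchanges the two halves
  let σ : Fin 4 → Fin 4 := ![0, 1, 3, 2]
  have hσ : ∀ j x, t (A j x) = A (σ j) (t x) := by
    intro j x
    fin_cases j
    · rfl
    · exact htc x
    · exact hte' x
    · show t (e (c x)) = e (t x)
      rw [hte', htc, hcc]
  have hσσ : ∀ j, σ (σ j) = j := by decide
  have htS : ∀ j, ∃ i, t (A j x0) = A i y0 := fun j => ⟨σ j, hσ j x0⟩
  have htS' : ∀ j, ∃ i, t (A j y0) = A i x0 := by
    intro j
    rcases hcov (t (A j y0)) with h | ⟨i, hi⟩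
    · exact h
    · exfalso
      have h1 : t (A j y0) = t (A (σ i) x0) := by
        rw [hi, hσ, hσσ]
      exact hcross _ _ (t.injective h1).symm
  -- an element of the stabilizer
  obtain ⟨h, hh, hne, hx0⟩ : ∃ h ∈ H, h ≠ 1 ∧ h x0 = x0 := by
    have h1 : Fintype.card X < Fintype.card H := by
      rw [hX, ← Nat.card_eq_fintype_card]
      exact hcard
    obtain ⟨h1, h2, hne, heq⟩ := Fintype.exists_ne_map_eq_of_card_lt
      (fun h : H => (h : Equiv.Perm X) x0) h1
    refine ⟨(h1 : Equiv.Perm X)⁻¹ * h2, H.mul_mem (H.inv_mem h1.2) h2.2, ?_, ?_⟩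
    · intro h3
      apply hne
      exact Subtype.ext (inv_mul_eq_one.1 h3)
    · rw [Equiv.Perm.mul_apply, ← heq]
      simp
  have hPh : P h := by
    rcases hdich h hh with h1 | ⟨g, hg, h1⟩
    · exact h1
    · exfalso
      apply hO g⁻¹ (Pinv _ hg)
      rw [Equiv.Perm.inv_eq_iff_eq, hy0, ← h1, hx0]
  have hhA : ∀ j x, h (A j x) = A j (h x) := by
    intro j x
    fin_cases j
    · rfl
    · exact hcen h hh x
    · exact hPh.2 x
    · show h (e (c x)) = e (c (h x))
      rw [hPh.2, hcen h hh]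
  have hh1 : ∀ j, h (A j x0) = A j x0 := fun j => by rw [hhA, hx0]
  obtain ⟨b, hb⟩ : ∃ b, h y0 = A b y0 := by
    rcases hcov (h y0) with ⟨j, hj⟩ | h1
    · exfalso
      apply hO (h⁻¹ * A j) (Pmul _ _ (Pinv _ hPh) (PA j))
      rw [Equiv.Perm.mul_apply, ← hj]
      simp
    · exact h1
  have hb0 : b ≠ 0 := by
    rintro rfl
    apply hne
    ext x
    rcases hcov x with ⟨j, rfl⟩ | ⟨j, rfl⟩
    · rw [hh1]; rfl
    · rw [hhA, hb]; rfl
  -- the element k
  have hk : ∃ k ∈ H, ∃ s : ℤ, (s = 1 ∨ s = -1) ∧ ∀ f : X → ℤ, (∀ x, f (c x) = - f x) →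
      (∀ x, f (e x) = f x) → (∀ j, f (k (A j x0)) = s * f (A j x0)) ∧
        ∀ j, f (k (A j y0)) = - s * f (A j y0) := by
    have hcA : ∀ j x, A j (c x) = c (A j x) := fun j x => hcen _ (PA j).1 x
    have heA : ∀ j x, A j (e x) = e (A j x) := fun j x => (PA j).2 x
    have hb3 : b = 1 ∨ b = 2 ∨ b = 3 := by
      revert hb0
      clear hb
      revert b
      decide
    rcases hb3 with rfl | rfl | rfl
    · refine ⟨h, hh, 1, Or.inl rfl, fun f hf1 hf2 => ⟨fun j => ?_, fun j => ?_⟩⟩
      · rw [hh1, one_mul]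
      · rw [hhA, hb, A1, hcA, hf1]; ring
    · refine ⟨t * h * t⁻¹, H.mul_mem (H.mul_mem htH hh) (H.inv_mem htH), -1, Or.inr rfl,
        fun f hf1 hf2 => ⟨fun j => ?_, fun j => ?_⟩⟩
      · obtain ⟨i, hi⟩ : ∃ i, t⁻¹ (A j x0) = A i y0 := by
          rcases hcov (t⁻¹ (A j x0)) with ⟨i, hi⟩ | h1
          · exfalso
            have h2 : A j x0 = t (A i x0) := by rw [← hi]; simp
            rw [hσ] at h2
            exact hcross _ _ h2
          · exact h1
        rw [Equiv.Perm.mul_apply, Equiv.Perm.mul_apply, hi, hhA, hb, A2, heA, hte', hf2, hf1]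
        rw [← hi]
        simp
      · obtain ⟨i, hi⟩ : ∃ i, t⁻¹ (A j y0) = A i x0 := by
          refine ⟨σ j, ?_⟩
          rw [Equiv.Perm.inv_eq_iff_eq, hσ, hσσ]
        rw [Equiv.Perm.mul_apply, Equiv.Perm.mul_apply, hi, hh1, ← hi]
        simp
    · refine ⟨h, hh, 1, Or.inl rfl, fun f hf1 hf2 => ⟨fun j => ?_, fun j => ?_⟩⟩
      · rw [hh1, one_mul]
      · rw [hhA, hb, A3, Equiv.Perm.mul_apply, heA, hcA, hf2, hf1]; ring
  obtain ⟨k, hkH, s, hs, hk⟩ := hk
  -- functions in the annihilator which are invariant under e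
  have hzero : ∀ f : X → ℤ, (∀ x, f (c x) = - f x) → (∀ x, f (e x) = f x) → f x0 = 0 →
      f y0 = 0 → f = 0 := by
    intro f hf1 hf2 hfx hfy
    funext x
    have h1 : ∀ z, f z = 0 → ∀ j, f (A j z) = 0 := by
      intro z hz j
      fin_cases j
      · exact hz
      · show f (c z) = 0
        rw [hf1, hz, neg_zero]
      · show f (e z) = 0
        rw [hf2, hz]
      · show f (e (c z)) = 0
        rw [hf2, hf1, hz, neg_zero]
    rcases hcov x with ⟨j, rfl⟩ | ⟨j, rfl⟩
    · exact h1 _ hfx j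
    · exact h1 _ hfy j
  have hM : ∀ ε : X → ℤ, Typ c ε → ((∀ x, ε (e x) = ε x) ∨ ∀ x, ε (e x) = - ε x) →
      ∀ f, Ann H c ε f → (∀ x, f (e x) = f x) → f = 0 := by
    intro ε hε hcase f hf hfe
    have hfc := hf.1
    obtain ⟨hk1, hk2⟩ := hk f hfc hfe
    have hk1' : f (k x0) = s * f x0 ∧ f (k (c x0)) = s * f (c x0) ∧ f (k (e x0)) = s * f (e x0) ∧
        f (k (e (c x0))) = s * f (e (c x0)) := ⟨hk1 0, hk1 1, hk1 2, hk1 3⟩
    have hk2' : f (k y0) = - s * f y0 ∧ f (k (c y0)) = - s * f (c y0) ∧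
        f (k (e y0)) = - s * f (e y0) ∧ f (k (e (c y0))) = - s * f (e (c y0)) :=
      ⟨hk2 0, hk2 1, hk2 2, hk2 3⟩
    have hεx := hε.1 x0
    have hεy := hε.1 y0
    rcases hcase with hεe | hεe
    · have r1 := hf.2 1 H.one_mem
      have r2 := hf.2 k hkH
      rw [hsum] at r1 r2
      simp only [Equiv.Perm.one_apply] at r1
      rw [hk1'.1, hk1'.2.1, hk1'.2.2.1, hk1'.2.2.2, hk2'.1, hk2'.2.1, hk2'.2.2.1, hk2'.2.2.2] at r2
      simp only [hfe, hfc, hεe, hε.2] at r1 r2
      apply hzero f hfc hfe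
      · rcases hs with rfl | rfl <;> rcases hεx with h1 | h1 <;> rcases hεy with h2 | h2 <;>
          rw [h1, h2] at r1 r2 <;> linarith
      · rcases hs with rfl | rfl <;> rcases hεx with h1 | h1 <;> rcases hεy with h2 | h2 <;>
          rw [h1, h2] at r1 r2 <;> linarith
    · have r1 := hf.2 t htH
      have r2 := hf.2 (k * t) (H.mul_mem hkH htH)
      have hkt1 : ∀ j, f (k (t (A j x0))) = - s * f (t (A j x0)) := by
        intro j
        obtain ⟨i, hi⟩ := htS j
        rw [hi, hk2]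
      have hkt2 : ∀ j, f (k (t (A j y0))) = s * f (t (A j y0)) := by
        intro j
        obtain ⟨i, hi⟩ := htS' j
        rw [hi, hk1]
      have a0 := hkt1 0
      have a1 := hkt1 1
      have a2 := hkt1 2
      have a3 := hkt1 3
      have b0 := hkt2 0
      have b1 := hkt2 1
      have b2 := hkt2 2
      have b3 := hkt2 3
      simp only [A0, A1, A2, A3, Equiv.Perm.one_apply, Equiv.Perm.mul_apply] at a0 a1 a2 a3
      simp only [A0, A1, A2, A3, Equiv.Perm.one_apply, Equiv.Perm.mul_apply] at b0 b1 b2 b3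
      rw [hsum] at r1 r2
      simp only [Equiv.Perm.mul_apply] at r2
      rw [a0, a1, a2, a3, b0, b1, b2, b3] at r2
      simp only [hte', htc, hfe, hfc, hεe, hε.2, hcc] at r1 r2
      have hy : f (t x0) = 0 ∧ f (t y0) = 0 := by
        constructor
        · rcases hs with rfl | rfl <;> rcases hεx with h1 | h1 <;> rcases hεy with h2 | h2 <;>
            rw [h1, h2] at r1 r2 <;> linarith
        · rcases hs with rfl | rfl <;> rcases hεx with h1 | h1 <;> rcases hεy with h2 | h2 <;>
            rw [h1, h2] at r1 r2 <;> linarith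
      apply hzero f hfc hfe
      · obtain ⟨i, hi⟩ := htS' 0
        have h1 : f (A i x0) = 0 := by
          rw [← hi]
          exact hy.2
        have h2 : f (A i x0) = f x0 ∨ f (A i x0) = - f x0 := by
          clear hi h1
          fin_cases i
          · exact Or.inl rfl
          · exact Or.inr (hfc x0)
          · exact Or.inl (hfe x0)
          · right
            show f (e (c x0)) = - f x0
            rw [hfe, hfc]
        rcases h2 with h2 | h2
        · rw [← h2, h1]
        · rw [h1] at h2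
          linarith
      · exact hy.1
  have hND : ∀ ε : X → ℤ, Typ c ε → ((∀ x, ε (e x) = ε x) ∨ ∀ x, ε (e x) = - ε x) →
      ND H c ε := by
    intro ε hε hcase f hf
    have h1 : (fun x => f x + f (e x)) = 0 := by
      refine hM ε hε hcase _ ⟨fun x => ?_, fun g hg => ?_⟩ fun x => ?_
      · show f (c x) + f (e (c x)) = - (f x + f (e x))
        rw [hec, hf.1, hf.1]; ring
      · have r1 := hf.2 g hg
        have r2 := hf.2 (e * g) (H.mul_mem hK.mem hg)
        simp only [Equiv.Perm.mul_apply] at r2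
        simp only [add_mul]
        rw [Finset.sum_add_distrib, r1, r2, add_zero]
      · show f (e x) + f (e (e x)) = f x + f (e x)
        rw [hee]; ring
    have h2 : ∀ x, f (e x) = - f x := fun x => by
      have := congrFun h1 x
      simp only [Pi.zero_apply] at this
      linarith
    have h3 : (fun x => f (t x)) = 0 := by
      refine hM ε hε hcase _ ⟨fun x => ?_, fun g hg => ?_⟩ fun x => ?_
      · show f (t (c x)) = - f (t x)
        rw [htc, hf.1]
      · have r2 := hf.2 (t * g) (H.mul_mem htH hg)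
        simpa only [Equiv.Perm.mul_apply] using r2
      · show f (t (e x)) = f (t x)
        rw [hte', h2, hf.1, neg_neg]
    funext x
    have h4 := congrFun h3 (t⁻¹ x)
    simpa using h4
  -- the involution
  have hdec : ∀ ε : X → ℤ, Typ c ε → ∀ z, (ε (e z) = ε z → ∀ j, ε (e (A j z)) = ε (A j z)) ∧
      (ε (e z) = - ε z → ∀ j, ε (e (A j z)) = - ε (A j z)) := by
    intro ε hε z
    constructor
    · intro h1 j
      fin_cases j
      · exact h1
      · show ε (e (c z)) = ε (c z)
        rw [hec, hε.2, hε.2, h1]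
      · show ε (e (e z)) = ε (e z)
        rw [hee, h1]
      · show ε (e (e (c z))) = ε (e (c z))
        rw [hee, hec, hε.2, hε.2, h1]
    · intro h1 j
      fin_cases j
      · exact h1
      · show ε (e (c z)) = - ε (c z)
        rw [hec, hε.2, hε.2, h1]
      · show ε (e (e z)) = - ε (e z)
        rw [hee, h1, neg_neg]
      · show ε (e (e (c z))) = - ε (e (c z))
        rw [hee, hec, hε.2, hε.2, h1, neg_neg]
  have hboth : ∀ ε : X → ℤ, Typ c ε →
      ((ε (e x0) = ε x0 ∧ ε (e y0) = ε y0) ∨ (ε (e x0) = - ε x0 ∧ ε (e y0) = - ε y0)) →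
      ND H c ε := by
    intro ε hε h1
    apply hND ε hε
    rcases h1 with ⟨h1, h2⟩ | ⟨h1, h2⟩
    · left
      intro x
      rcases hcov x with ⟨j, rfl⟩ | ⟨j, rfl⟩
      · exact (hdec ε hε x0).1 h1 j
      · exact (hdec ε hε y0).1 h2 j
    · right
      intro x
      rcases hcov x with ⟨j, rfl⟩ | ⟨j, rfl⟩
      · exact (hdec ε hε x0).2 h1 j
      · exact (hdec ε hε y0).2 h2 j
  refine ⟨flip c x0, fun ε hε => flip_typ hcc x0 hε, fun ε _ => flip_flip x0 ε, ?_⟩
  intro ε hε
  have hpm : ∀ z, ε (e z) = ε z ∨ ε (e z) = - ε z := by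
    intro z
    rcases hε.1 z with h1 | h1 <;> rcases hε.1 (e z) with h2 | h2 <;> simp [h1, h2]
  have f1 : flip c x0 ε x0 = - ε x0 := by
    unfold flip
    rw [if_pos (Or.inl rfl)]
  have f2 : flip c x0 ε (e x0) = ε (e x0) := by
    unfold flip
    rw [if_neg]
    rintro (h1 | h1)
    · exact (hF x0).1 h1
    · exact (hF x0).2 h1
  have f3 : flip c x0 ε y0 = ε y0 := by
    unfold flip
    rw [if_neg]
    rintro (h1 | h1)
    · exact hcross 0 0 h1.symm
    · exact hcross 1 0 h1.symm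
  have f4 : flip c x0 ε (e y0) = ε (e y0) := by
    unfold flip
    rw [if_neg]
    rintro (h1 | h1)
    · exact hcross 0 2 h1.symm
    · exact hcross 1 2 h1.symm
  rcases hpm x0 with h1 | h1 <;> rcases hpm y0 with h2 | h2
  · exact Or.inl (hboth ε hε (Or.inl ⟨h1, h2⟩))
  · right
    apply hboth _ (flip_typ hcc x0 hε)
    right
    rw [f1, f2, f3, f4, h1, h2, neg_neg]
    exact ⟨rfl, rfl⟩
  · right
    apply hboth _ (flip_typ hcc x0 hε)
    left
    rw [f1, f2, f3, f4, h1, h2]
    exact ⟨rfl, rfl⟩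
  · exact Or.inl (hboth ε hε (Or.inr ⟨h1, h2⟩))

end Pool.Agent.ECF
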