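import Mathlib
import Pool.Agent.ECF.Targets

set_option autoImplicit false

/-!
# Every CM field: a normal Klein four group with fixed points
-/

namespace Pool.Agent.ECF

open Finset
open scoped BigOperators

namespace KFIX_

variable {X : Type} [Fintype X]

section flip

variable [DecidableEq X] {c : Equiv.Perm X} (hsq : ∀ x, c (c x) = x)

omit [Fintype X] in
include hsq in
theorem flip_typ (x₀ : X) {ε : X → ℤ} (h : Typ c ε) : Typ c (flip c x₀ ε) := by
  refine ⟨fun x => ?_, fun x => ?_⟩
  · unfold flip
    split_ifs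
    · rcases h.1 x with h1 | h1 <;> rw [h1] <;> simp
    · exact h.1 x
  · unfold flip
    have h1 : (c x = x₀ ∨ c x = c x₀) ↔ (x = x₀ ∨ x = c x₀) := by
      constructor
      · rintro (h1 | h1)
        · right; rw [← h1, hsq]
        · left; exact c.injective h1
      · rintro (h1 | h1)
        · right; rw [h1]
        · left; rw [h1, hsq]
    by_cases h2 : x = x₀ ∨ x = c x₀
    · rw [if_pos (h1.2 h2), if_pos h2, h.2]
    · rw [if_neg (fun h3 => h2 (h1.1 h3)), if_neg h2, h.2]

omit [Fintype X] in
theorem flip_flip (x₀ : X) (ε : X → ℤ) : flip c x₀ (flip c x₀ ε) = ε := by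
  funext x
  unfold flip
  split_ifs <;> simp

end flip

/-- the translates of functions in the annihilator -/
theorem ann_comp {H : Subgroup (Equiv.Perm X)} {c : Equiv.Perm X} (hC : Cx H c) {ε f : X → ℤ}
    (hf : Ann H c ε f) {g : Equiv.Perm X} (hg : g ∈ H) : Ann H c ε (fun x => f (g x)) := by
  refine ⟨fun x => ?_, fun h hh => ?_⟩
  · simp only
    rw [← hC.comm g hg, hf.1]
  · exact hf.2 (g * h) (H.mul_mem hg hh)

theorem ann_add {H : Subgroup (Equiv.Perm X)} {c : Equiv.Perm X} {ε f g : X → ℤ}
    (hf : Ann H c ε f) (hg : Ann H c ε g) : Ann H c ε (f + g) := by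
  refine ⟨fun x => ?_, fun h hh => ?_⟩
  · simp only [Pi.add_apply]
    rw [hf.1, hg.1]; ring
  · simp only [Pi.add_apply, add_mul, Finset.sum_add_distrib]
    rw [hf.2 h hh, hg.2 h hh, add_zero]

theorem ann_neg {H : Subgroup (Equiv.Perm X)} {c : Equiv.Perm X} {ε f : X → ℤ}
    (hf : Ann H c ε f) : Ann H c ε (-f) := by
  refine ⟨fun x => ?_, fun h hh => ?_⟩
  · simp only [Pi.neg_apply]
    rw [hf.1]
  · simp only [Pi.neg_apply, neg_mul, Finset.sum_neg_distrib]
    rw [hf.2 h hh, neg_zero]

/-- the part of the annihilator which is invariant under `e` -/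
def MM (H : Subgroup (Equiv.Perm X)) (c e : Equiv.Perm X) (ε : X → ℤ) : AddSubgroup (X → ℤ) where
  carrier := {f | Ann H c ε f ∧ ∀ x, f (e x) = f x}
  zero_mem' := ⟨⟨fun _ => by simp, fun _ _ => by simp⟩, fun _ => rfl⟩
  add_mem' := fun {f g} hf hg => ⟨ann_add hf.1 hg.1, fun x => by
    simp only [Pi.add_apply, hf.2 x, hg.2 x]⟩
  neg_mem' := fun {f} hf => ⟨ann_neg hf.1, fun x => by simp only [Pi.neg_apply, hf.2 x]⟩

theorem mem_MM {H : Subgroup (Equiv.Perm X)} {c e : Equiv.Perm X} {ε f : X → ℤ} :
    f ∈ MM H c e ε ↔ Ann H c ε f ∧ ∀ x, f (e x) = f x := Iff.rfl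

theorem sat_MM {H : Subgroup (Equiv.Perm X)} {c e : Equiv.Perm X} {ε : X → ℤ} (p : ℕ)
    (hp : p.Prime) (f : X → ℤ) (h : (fun x => (p : ℤ) * f x) ∈ MM H c e ε) : f ∈ MM H c e ε := by
  have hp0 : (p : ℤ) ≠ 0 := by exact_mod_cast hp.ne_zero
  obtain ⟨⟨h1, h2⟩, h3⟩ := h
  refine ⟨⟨fun x => ?_, fun g hg => ?_⟩, fun x => ?_⟩
  · have := h1 x
    simp only at this
    have h4 : (p : ℤ) * f (c x) = p * (- f x) := by rw [this]; ring
    exact mul_left_cancel₀ hp0 h4
  · have := h2 g hg
    simp only [mul_assoc] at this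
    rw [← Finset.mul_sum] at this
    exact (mul_eq_zero.1 this).resolve_left hp0
  · exact mul_left_cancel₀ hp0 (h3 x)

end KFIX_

open KFIX_

theorem p_KFIX (hFIXV : T_FIXV) (hSUM2 : T_SUM2) : T_KFIX := by
  classical
  intro X _ H c e hC hH hK ⟨x₁, hx₁⟩
  have hce : ∀ x, c (e x) = e (c x) := fun x => hC.comm e hK.mem x
  -- (1)
  have hnor' : ∀ h ∈ H, h⁻¹ * e * h = e ∨ h⁻¹ * e * h = e * c := by
    intro h hh
    have := hK.nor h⁻¹ (H.inv_mem hh)
    rwa [inv_inv] at this
  have h12 : ∀ x, e x = x ∨ e x = c x := by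
    intro x
    obtain ⟨h, hh, hx⟩ := hC.trans x₁ x
    have key : ∀ y, e (h y) = h ((h⁻¹ * e * h) y) := by
      intro y; simp
    rcases hnor' h hh with h1 | h1
    · left
      rw [← hx, key, h1, hx₁]
    · right
      rw [← hx, key, h1, Equiv.Perm.mul_apply, ← hce, hx₁, ← hC.comm h hh]
  -- (2)
  obtain ⟨t, htH, ht⟩ : ∃ t ∈ H, t * e * t⁻¹ = e * c := by
    by_contra hcon
    push Not at hcon
    apply hK.ne_one
    ext x
    obtain ⟨h, hh, hx⟩ := hC.trans x₁ x
    have h1 := (hK.nor h hh).resolve_right (hcon h hh)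
    have h2 : h * e = e * h := mul_inv_eq_iff_eq_mul.1 h1
    have h3 := congrArg (fun σ : Equiv.Perm X => σ x₁) h2
    simp only [Equiv.Perm.mul_apply, hx₁] at h3
    rw [Equiv.Perm.one_apply, ← hx, ← h3]
  have hcne1 : e * c ≠ e := by
    intro h
    have h3 := congrArg (fun σ : Equiv.Perm X => σ x₁) h
    simp only [Equiv.Perm.mul_apply] at h3
    exact hC.ne x₁ (e.injective h3)
  have hte : ∀ y, t (e y) = e (c (t y)) := by
    intro y
    have h2 : t * e = e * c * t := by rw [← ht]; group
    have h3 := congrArg (fun σ : Equiv.Perm X => σ y) h2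
    simpa using h3
  have hte1 : ∀ y, e y = y → e (t y) = c (t y) := by
    intro y hy
    have := hte y
    rw [hy] at this
    have h2 := congrArg e this
    rwa [hK.sq] at h2
  have hte2 : ∀ y, e y = c y → e (t y) = t y := by
    intro y hy
    have := hte y
    rw [hy, ← hC.comm t htH, ← hce] at this
    exact (c.injective this).symm
  -- (3)
  have hS : ∀ x y, e x = x → e y = y → ∃ h ∈ H, h * e = e * h ∧ h x = y := by
    intro x y hx hy
    obtain ⟨h, hh, hxy⟩ := hC.trans x y
    refine ⟨h, hh, ?_, hxy⟩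
    rcases hK.nor h hh with h1 | h1
    · exact mul_inv_eq_iff_eq_mul.1 h1
    · exfalso
      have h2 : h * e = e * c * h := by rw [← h1]; group
      have h3 := congrArg (fun σ : Equiv.Perm X => σ x) h2
      simp only [Equiv.Perm.mul_apply, hx, hxy] at h3
      rw [← hce, hy] at h3
      exact hC.ne y h3.symm
  -- the set `D`
  let D : (X → ℤ) → Finset X := fun ε => univ.filter fun x => e x = x ∧ ε x ≠ ε (t x)
  have hDc : ∀ ε, Typ c ε → ∀ x ∈ D ε, c x ∈ D ε := by
    intro ε hε x hx
    simp only [D, mem_filter, mem_univ, true_and] at hx ⊢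
    refine ⟨by rw [← hce, hx.1], ?_⟩
    rw [← hC.comm t htH, hε.2, hε.2]
    intro h; exact hx.2 (by linarith)
  -- (5)
  have claim : ∀ ε, Typ c ε → (D ε).card % 4 = 2 → ND H c ε := by
    intro ε hε hcard
    have hM : MM H c e ε = ⊥ := by
      by_contra hne
      let P : Subgroup (Equiv.Perm X) := H ⊓ Subgroup.centralizer {e}
      have hPH : P ≤ H := inf_le_left
      have hP : ∀ g ∈ P, g * e = e * g := by
        intro g hg
        exact (Subgroup.mem_centralizer_iff.1 hg.2 e rfl).symm
      obtain ⟨f, hf, ⟨x, hx⟩, hfix⟩ := hFIXV X 2 Nat.prime_two P (hH.to_le hPH) (MM H c e ε)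
        (by
          intro f hf g hg
          refine ⟨ann_comp hC hf.1 (hPH hg), fun x => ?_⟩
          have h3 := congrArg (fun σ : Equiv.Perm X => σ x) (hP g hg)
          simp only [Equiv.Perm.mul_apply] at h3
          simp only
          rw [h3, hf.2])
        (fun f h => sat_MM 2 Nat.prime_two f h) hne
      have hf0 : ∀ y, e y = c y → f y = 0 := by
        intro y hy
        have h1 := hf.2 y
        rw [hy, hf.1.1] at h1
        linarith
      have hxS : e x = x := by
        rcases h12 x with h | h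
        · exact h
        · exact absurd (by rw [hf0 x h]; simp) hx
      have hodd : ∀ y, e y = y → ¬ (2 : ℤ) ∣ f y := by
        intro y hy hd
        obtain ⟨h, hh, hcom, hxy⟩ := hS x y hxS hy
        have hP' : h ∈ P := ⟨hh, Subgroup.mem_centralizer_iff.2 fun g hg => by
          rw [Set.mem_singleton_iff.1 hg, hcom]⟩
        have h1 := hfix h hP' x
        rw [hxy] at h1
        apply hx
        have h2 := dvd_sub hd h1
        simpa using h2
      have hr1 : ∑ x, f x * ε x = 0 := by
        have := hf.1.2 1 H.one_mem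
        simpa using this
      have hr2 : ∑ x, f x * ε (t x) = 0 := by
        have := hf.1.2 t⁻¹ (H.inv_mem htH)
        rw [← this]
        refine Fintype.sum_equiv t _ _ fun y => ?_
        simp
      have hr3 : ∑ x ∈ D ε, f x * ε x = 0 := by
        have h1 : ∑ x, (f x * ε x - f x * ε (t x)) = 0 := by
          rw [Finset.sum_sub_distrib, hr1, hr2, sub_zero]
        have h2 : ∑ x ∈ D ε, 2 * (f x * ε x) = 0 := by
          rw [← h1]
          simp only [D, Finset.sum_filter]
          refine Finset.sum_congr rfl fun y _ => ?_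
          by_cases hy : e y = y
          · by_cases hy2 : ε y = ε (t y)
            · rw [if_neg (by simp [hy2]), ← hy2]; ring
            · rw [if_pos ⟨hy, hy2⟩]
              have h3 : ε (t y) = - ε y := by
                rcases hε.1 y with h4 | h4 <;> rcases hε.1 (t y) with h5 | h5
                · exact absurd (by rw [h4, h5]) hy2
                · rw [h4, h5]
                · rw [h4, h5]; norm_num
                · exact absurd (by rw [h4, h5]) hy2
              rw [h3]; ring
          · rw [if_neg (by simp [hy]), hf0 y ((h12 y).resolve_left hy)]; ring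
        rw [← Finset.mul_sum] at h2
        exact (mul_eq_zero.1 h2).resolve_left two_ne_zero
      have hg : ∀ y ∈ D ε, 2 * ((f y * ε y - 1) / 2) = f y * ε y - 1 := by
        intro y hy
        simp only [D, mem_filter, mem_univ, true_and] at hy
        refine Int.mul_ediv_cancel' ?_
        have h1 := hodd y hy.1
        rcases hε.1 y with h4 | h4 <;> rw [h4] <;> omega
      have h2 := hSUM2 X c hC.sq hC.ne (D ε) (fun y => (f y * ε y - 1) / 2)
        (hDc ε hε) (fun y _ => by
          rw [hf.1.1, hε.2, neg_mul_neg])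
      have h3 : 2 * ∑ y ∈ D ε, ((f y * ε y - 1) / 2) = - ((D ε).card : ℤ) := by
        rw [Finset.mul_sum, Finset.sum_congr rfl hg, Finset.sum_sub_distrib, hr3]
        simp
      obtain ⟨k, hk⟩ := h2
      rw [hk] at h3
      omega
    intro f hf
    have h1 : ∀ y, f (e y) = - f y := by
      intro y
      have h2 : f + (fun x => f (e x)) ∈ MM H c e ε := by
        refine ⟨ann_add hf (ann_comp hC hf hK.mem), fun x => ?_⟩
        simp only [Pi.add_apply]
        rw [hK.sq]; ring
      rw [hM, AddSubgroup.mem_bot] at h2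
      have h3 := congrFun h2 y
      simp only [Pi.add_apply, Pi.zero_apply] at h3
      linarith
    have h2 : (fun x => f (t x)) ∈ MM H c e ε := by
      refine ⟨ann_comp hC hf htH, fun x => ?_⟩
      simp only
      rw [hte, h1, hf.1, neg_neg]
    rw [hM, AddSubgroup.mem_bot] at h2
    funext y
    have h3 := congrFun h2 (t⁻¹ y)
    simpa using h3
  -- (4)
  refine ⟨flip c x₁, fun ε hε => flip_typ hC.sq x₁ hε, fun ε _ => flip_flip x₁ ε, fun ε hε => ?_⟩
  have heven : ∀ ε, Typ c ε → 2 ∣ (D ε).card := by
    intro ε hε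
    have := hSUM2 X c hC.sq hC.ne (D ε) (fun _ => 1) (hDc ε hε) (fun _ _ => rfl)
    simp only [Finset.sum_const, nsmul_eq_mul, mul_one] at this
    exact_mod_cast this
  have hflip0 : ∀ x, e x = x → flip c x₁ ε (t x) = ε (t x) := by
    intro x hx
    unfold flip
    rw [if_neg]
    have h1 := hte1 x hx
    rintro (h2 | h2)
    · rw [h2, hx₁] at h1
      exact hC.ne x₁ h1.symm
    · rw [h2, ← hce, hx₁] at h1
      exact hC.ne (c x₁) h1.symm
  have hflip1 : ∀ x, x ≠ x₁ → x ≠ c x₁ → (x ∈ D (flip c x₁ ε) ↔ x ∈ D ε) := by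
    intro x h1 h2
    simp only [D, mem_filter, mem_univ, true_and]
    refine and_congr_right fun hx => ?_
    rw [hflip0 x hx]
    unfold flip
    rw [if_neg (by simp [h1, h2])]
  have hcx₁ : e (c x₁) = c x₁ := by rw [← hce, hx₁]
  have hflip2 : ∀ x, x = x₁ ∨ x = c x₁ → (x ∈ D (flip c x₁ ε) ↔ x ∉ D ε) := by
    intro x h1
    have hx : e x = x := by rcases h1 with h1 | h1 <;> rw [h1] <;> assumption
    simp only [D, mem_filter, mem_univ, true_and, hx]
    rw [hflip0 x hx]
    unfold flip
    rw [if_pos h1]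
    rcases hε.1 x with h4 | h4 <;> rcases hε.1 (t x) with h5 | h5 <;> rw [h4, h5] <;> norm_num
  have hor : (D ε).card % 4 = 2 ∨ (D (flip c x₁ ε)).card % 4 = 2 := by
    have h1 := heven ε hε
    have h2 := heven _ (flip_typ hC.sq x₁ hε)
    have hne : x₁ ≠ c x₁ := (hC.ne x₁).symm
    have hpair : ({x₁, c x₁} : Finset X).card = 2 := Finset.card_pair hne
    have key : ∀ ε', Typ c ε' → ((D ε').filter fun x => x = x₁ ∨ x = c x₁).card = 0 ∨
        ((D ε').filter fun x => x = x₁ ∨ x = c x₁).card = 2 := by
      intro ε' hε'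
      by_cases h : x₁ ∈ D ε'
      · right
        rw [← hpair]
        congr 1
        ext y
        simp only [mem_filter, mem_insert, mem_singleton]
        refine ⟨fun h => h.2, fun h' => ⟨?_, h'⟩⟩
        rcases h' with h' | h'
        · rw [h']; exact h
        · rw [h']; exact hDc ε' hε' _ h
      · left
        rw [Finset.card_eq_zero, Finset.filter_eq_empty_iff]
        rintro y hy (h' | h')
        · rw [h'] at hy; exact h hy
        · rw [h'] at hy
          have := hDc ε' hε' _ hy
          rw [hC.sq] at this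
          exact h this
    have hsplit : ∀ ε' : X → ℤ, (D ε').card = ((D ε').filter fun x => x = x₁ ∨ x = c x₁).card +
        ((D ε').filter fun x => ¬ (x = x₁ ∨ x = c x₁)).card := fun ε' =>
      (Finset.card_filter_add_card_filter_not _).symm
    have hsame : ((D (flip c x₁ ε)).filter fun x => ¬ (x = x₁ ∨ x = c x₁)) =
        ((D ε).filter fun x => ¬ (x = x₁ ∨ x = c x₁)) := by
      ext y
      simp only [mem_filter]
      refine ⟨fun h => ⟨(hflip1 y ?_ ?_).1 h.1, h.2⟩, fun h => ⟨(hflip1 y ?_ ?_).2 h.1, h.2⟩⟩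
      all_goals
        intro h3
        apply h.2
        simp [h3]
    have hdiff : x₁ ∈ (D (flip c x₁ ε)).filter (fun x => x = x₁ ∨ x = c x₁) ↔
        x₁ ∉ (D ε).filter (fun x => x = x₁ ∨ x = c x₁) := by
      simp only [mem_filter, true_or, and_true]
      exact hflip2 x₁ (Or.inl rfl)
    have hk1 := key ε hε
    have hk2 := key _ (flip_typ hC.sq x₁ hε)
    have hs1 := hsplit ε
    have hs2 := hsplit (flip c x₁ ε)
    rw [hsame] at hs2
    by_cases hmem : x₁ ∈ (D ε).filter (fun x => x = x₁ ∨ x = c x₁)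
    · have h3 : ((D ε).filter fun x => x = x₁ ∨ x = c x₁).card = 2 :=
        hk1.resolve_left (fun h => by
          rw [Finset.card_eq_zero] at h; rw [h] at hmem; simp at hmem)
      have h4 : ((D (flip c x₁ ε)).filter fun x => x = x₁ ∨ x = c x₁).card = 0 := by
        refine hk2.resolve_right fun h => ?_
        have h5 : x₁ ∈ (D (flip c x₁ ε)).filter (fun x => x = x₁ ∨ x = c x₁) := by
          have h6 : (D (flip c x₁ ε)).filter (fun x => x = x₁ ∨ x = c x₁) = {x₁, c x₁} := by
            apply Finset.eq_of_subset_of_card_le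
            · intro y hy
              simp only [mem_filter] at hy
              simp [hy.2]
            · rw [h, hpair]
          rw [h6]; simp
        exact (hdiff.1 h5) hmem
      omega
    · have h5 := hdiff.2 hmem
      have h3 : ((D (flip c x₁ ε)).filter fun x => x = x₁ ∨ x = c x₁).card = 2 :=
        hk2.resolve_left (fun h => by
          rw [Finset.card_eq_zero] at h; rw [h] at h5; simp at h5)
      have h4 : ((D ε).filter fun x => x = x₁ ∨ x = c x₁).card = 0 := by
        refine hk1.resolve_right fun h => hmem ?_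
        have h6 : (D ε).filter (fun x => x = x₁ ∨ x = c x₁) = {x₁, c x₁} := by
          apply Finset.eq_of_subset_of_card_le
          · intro y hy
            simp only [mem_filter] at hy
            simp [hy.2]
          · rw [h, hpair]
        rw [h6]; simp
      omega
  rcases hor with h | h
  · exact Or.inl (claim ε hε h)
  · exact Or.inr (claim _ (flip_typ hC.sq x₁ hε) h)

end Pool.Agent.ECF
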