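import Mathlib
import Pool.Agent.ECF.Targets
import Pool.Agent.ECF.K16

set_option autoImplicit false

/-!
# `e` is free and its centralizer is transitive
-/

namespace Pool.Agent.ECF

open Finset
open scoped BigOperators

namespace KTR_

variable {X : Type} [Fintype X] {H : Subgroup (Equiv.Perm X)} {c e : Equiv.Perm X}

/-- the odd functions orthogonal to all translates which `e` multiplies by `s` -/
def MS (H : Subgroup (Equiv.Perm X)) (c e : Equiv.Perm X) (s : ℤ) (ε : X → ℤ) :
    AddSubgroup (X → ℤ) where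
  carrier := {f | Ann H c ε f ∧ ∀ x, f (e x) = s * f x}
  zero_mem' := ⟨⟨fun x => by simp, fun h _ => by simp⟩, fun x => by simp⟩
  add_mem' := by
    rintro f g ⟨hf, hf'⟩ ⟨hg, hg'⟩
    exact ⟨K16_.ann_add hf hg, fun x => by simp only [Pi.add_apply, hf', hg']; ring⟩
  neg_mem' := by
    rintro f ⟨hf, hf'⟩
    refine ⟨⟨fun x => ?_, fun h hh => ?_⟩, fun x => by simp only [Pi.neg_apply, hf']; ring⟩
    · simp only [Pi.neg_apply, hf.1]
    · simp only [Pi.neg_apply, neg_mul, sum_neg_distrib, hf.2 h hh, neg_zero]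

theorem mem_MS {s : ℤ} {ε f : X → ℤ} :
    f ∈ MS H c e s ε ↔ Ann H c ε f ∧ ∀ x, f (e x) = s * f x := Iff.rfl

/-- if the number of points where `e` multiplies `ε` by `s` is not divisible by `8`, no function
in the annihilator is multiplied by `s` -/
theorem bot (h1 : T_FIXV) (h2 : T_SUM4) (hx : Cx H c) (hP : IsPGroup 2 H) (hk : Kl H c e)
    (hfr : Free c e) (hct : CTrans H e) {s : ℤ} (hs : s = 1 ∨ s = -1) {ε : X → ℤ}
    (hε : Typ c ε) (hB : (univ.filter fun x => ε (e x) = s * ε x).card % 8 ≠ 0) :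
    MS H c e s ε = ⊥ := by
  classical
  by_contra hne
  have hec : ∀ x, e (c x) = c (e x) := fun x => (hx.comm e hk.mem x).symm
  have hss : s * s = 1 := by rcases hs with h | h <;> rw [h] <;> norm_num
  have hs0 : s ≠ 0 := by rcases hs with h | h <;> rw [h] <;> norm_num
  obtain ⟨f, hf, ⟨y₀, hy₀⟩, hfix⟩ := h1 X 2 Nat.prime_two (K16_.G1 H e)
    (hP.to_le inf_le_left) (MS H c e s ε) (by
      rintro f ⟨hf, hf'⟩ g hg
      rw [K16_.mem_G1] at hg
      refine ⟨K16_.ann_comp hx hf hg.1, fun x => ?_⟩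
      show f (g (e x)) = s * f (g x)
      have : g (e x) = e (g x) := by
        have := congrArg (fun k : Equiv.Perm X => k x) hg.2
        simpa [Equiv.Perm.mul_apply] using this.symm
      rw [this, hf']) (by
      rintro f ⟨hf, hf'⟩
      refine ⟨⟨fun x => ?_, fun h hh => ?_⟩, fun x => ?_⟩
      · have := hf.1 x
        simp only [Nat.cast_ofNat] at this
        omega
      · have := hf.2 h hh
        simp only [mul_assoc, ← mul_sum] at this
        simpa using this
      · have := hf' x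
        simp only [Nat.cast_ofNat] at this
        have h3 : (2 : ℤ) * f (e x) = 2 * (s * f x) := by rw [this]; ring
        exact mul_left_cancel₀ two_ne_zero h3) hne
  simp only [Nat.cast_ofNat] at hy₀ hfix
  rw [mem_MS] at hf
  obtain ⟨hf, hfe⟩ := hf
  have hall : ∀ y, ¬ (2 : ℤ) ∣ f y := by
    intro y
    obtain ⟨h, hh, hcom, hhy⟩ := hct y₀ y
    have h3 := hfix h (K16_.mem_G1.2 ⟨hh, hcom.symm⟩) y₀
    rw [hhy] at h3
    omega
  set B := univ.filter fun x => ε (e x) = s * ε x with hBdef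
  have hεe : ∀ x, ε (e x) = s * ε x ∨ ε (e x) = - (s * ε x) := by
    intro x
    rcases hε.1 (e x) with h | h <;> rcases hε.1 x with h' | h' <;> rcases hs with h'' | h'' <;>
      rw [h, h', h''] <;> norm_num
  have hmem : ∀ x, x ∈ B ↔ ε (e x) = s * ε x := by
    intro x; rw [hBdef, mem_filter]; simp
  have hBc : ∀ x ∈ B, c x ∈ B ∧ e x ∈ B := by
    intro x hxB
    rw [hmem] at hxB
    rw [hmem, hmem, hec, hε.2, hε.2, hk.sq, hxB, ← mul_assoc, hss, one_mul]
    exact ⟨by ring, rfl⟩
  have hBc' : ∀ x ∈ Bᶜ, c x ∈ Bᶜ ∧ e x ∈ Bᶜ := by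
    intro x hxB
    rw [mem_compl] at hxB
    rw [mem_compl, mem_compl]
    refine ⟨fun h => hxB ?_, fun h => hxB ?_⟩
    · have := (hBc _ h).1
      rwa [hx.sq] at this
    · have := (hBc _ h).2
      rwa [hk.sq] at this
  have hs1 : ∑ x ∈ B, f x * ε x = 0 := by
    have e1 := hf.2 1 H.one_mem
    simp only [Equiv.Perm.one_apply] at e1
    rw [← sum_add_sum_compl B] at e1
    rw [K16_.sum_anti hk.sq Bᶜ (fun x => f x * ε x) (fun x hxB => (hBc' x hxB).2) ?_,
      add_zero] at e1
    · exact e1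
    · intro x hxB
      rw [mem_compl, hmem] at hxB
      have h3 := (hεe x).resolve_left hxB
      show f (e x) * ε (e x) = - (f x * ε x)
      rw [hfe, h3]
      calc s * f x * -(s * ε x) = - ((s * s) * (f x * ε x)) := by ring
        _ = - (f x * ε x) := by rw [hss, one_mul]
  have k1 := K16_.eight h2 hx.sq hx.ne hk.sq hec hfr B (fun x => f x * ε x) hBc (by
    intro x hxB
    rw [hmem] at hxB
    show f (c x) * ε (c x) = f x * ε x ∧ f (e x) * ε (e x) = f x * ε x
    rw [hf.1, hε.2, hfe, hxB]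
    refine ⟨by ring, ?_⟩
    calc s * f x * (s * ε x) = (s * s) * (f x * ε x) := by ring
      _ = f x * ε x := by rw [hss, one_mul]) hs1
  rw [filter_true_of_mem fun x _ => (K16_.odd_mul (hε.1 x)).2 (hall x)] at k1
  exact hB k1

/-- if the number of points where `ε` is `e`-invariant is `4` modulo `8`, then `ε` is
nondegenerate -/
theorem core (h1 : T_FIXV) (h2 : T_SUM4) (hx : Cx H c) (hP : IsPGroup 2 H) (hk : Kl H c e)
    (hfr : Free c e) (hct : CTrans H e)
    (hor : 8 ∣ Fintype.card X ∨ ∃ t ∈ H, t * e * t⁻¹ = e * c) {ε : X → ℤ} (hε : Typ c ε)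
    (hB : (univ.filter fun x => ε (e x) = ε x).card % 8 = 4) : ND H c ε := by
  classical
  intro f hf
  have hb := bot h1 h2 hx hP hk hfr hct (s := 1) (Or.inl rfl) hε (by
    simp only [one_mul]; omega)
  have k1 : f + (fun x => f (e x)) ∈ MS H c e 1 ε := by
    refine ⟨K16_.ann_add hf (K16_.ann_comp hx hf hk.mem), fun x => ?_⟩
    simp only [Pi.add_apply, hk.sq]
    ring
  rw [hb, AddSubgroup.mem_bot] at k1
  have k2 : ∀ x, f (e x) = - f x := by
    intro x
    have := congrFun k1 x
    simp only [Pi.add_apply, Pi.zero_apply] at this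
    omega
  rcases hor with h8 | ⟨t, htH, ht⟩
  · have hcompl : (univ.filter fun x => ε (e x) = -1 * ε x) =
        (univ.filter fun x => ¬ ε (e x) = ε x) := by
      refine filter_congr fun x _ => ?_
      rcases hε.1 (e x) with h | h <;> rcases hε.1 x with h' | h' <;> rw [h, h'] <;> norm_num
    have hb' := bot h1 h2 hx hP hk hfr hct (s := -1) (Or.inr rfl) hε (by
      have h3 := card_filter_add_card_filter_not (s := (univ : Finset X))
        (fun x => ε (e x) = ε x)
      rw [card_univ] at h3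
      rw [hcompl]
      obtain ⟨m, hm⟩ := h8
      omega)
    have k3 : f ∈ MS H c e (-1) ε := ⟨hf, fun x => by rw [k2]; ring⟩
    rw [hb', AddSubgroup.mem_bot] at k3
    exact k3
  · have hte : ∀ x, t (e x) = e (c (t x)) := by
      intro x
      have := congrArg (fun g : Equiv.Perm X => g (t x)) ht
      simpa [Equiv.Perm.mul_apply] using this
    have k3 : (fun x => f (t x)) ∈ MS H c e 1 ε := by
      refine ⟨K16_.ann_comp hx hf htH, fun x => ?_⟩
      show f (t (e x)) = 1 * f (t x)
      rw [hte, k2, hf.1, neg_neg, one_mul]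
    rw [hb, AddSubgroup.mem_bot] at k3
    funext x
    have := congrFun k3 (t⁻¹ x)
    simpa using this

end KTR_

/-- `e` is free and its centralizer is transitive -/
theorem p_KTR (h1 : T_FIXV) (h2 : T_SUM4) (h3 : T_CARDB) : T_KTR := by
  intro X _ H c e hx hP hk hfr hct hor
  classical
  rcases isEmpty_or_nonempty X with hX | ⟨⟨x₀⟩⟩
  · exact ⟨id, fun ε h => h, fun ε _ => rfl, fun ε _ => Or.inl fun f _ =>
      funext fun x => isEmptyElim x⟩
  · refine ⟨flip c x₀, fun ε h => K16_.flip_typ hx h x₀, fun ε _ => K16_.flip_flip x₀ ε,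
      fun ε hε => ?_⟩
    rcases h3 X c e hx.sq hx.ne hk.sq (fun x => (hx.comm e hk.mem x).symm) hfr ε hε x₀ with
      h | h
    · exact Or.inl (KTR_.core h1 h2 hx hP hk hfr hct hor hε h)
    · exact Or.inr (KTR_.core h1 h2 hx hP hk hfr hct hor (K16_.flip_typ hx hε x₀) h)

end Pool.Agent.ECF
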