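import Pool.Agent.ECF.Targets

set_option autoImplicit false

namespace Pool.Agent.ECF

open Finset
open scoped BigOperators

theorem p_LI : T_LI := by
  intro n hn ζ hζ a h0 j hj
  have hpos : 0 < 2 ^ n := by positivity
  set p : Polynomial ℚ := ∑ j ∈ range (2 ^ (n - 1)), Polynomial.C (a j : ℚ) * Polynomial.X ^ j
    with hp
  have hroot : Polynomial.aeval ζ p = 0 := by
    rw [hp, map_sum, ← h0]
    refine Finset.sum_congr rfl fun j _ => ?_
    simp
  have hdeg : p.degree < (2 ^ (n - 1) : ℕ) := by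
    rw [hp]
    refine (Polynomial.degree_sum_le _ _).trans_lt ?_
    rw [Finset.sup_lt_iff (by exact_mod_cast WithBot.bot_lt_coe _)]
    intro b hb
    refine (Polynomial.degree_C_mul_X_pow_le _ _).trans_lt ?_
    exact_mod_cast Finset.mem_range.mp hb
  have hmin : (minpoly ℚ ζ).degree = (2 ^ (n - 1) : ℕ) := by
    rw [← Polynomial.cyclotomic_eq_minpoly_rat hζ hpos, Polynomial.degree_cyclotomic,
      Nat.totient_prime_pow Nat.prime_two (by omega)]
    simp
  have hp0 : p = 0 := by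
    by_contra hne
    have := minpoly.degree_le_of_ne_zero ℚ ζ hne hroot
    rw [hmin] at this
    exact absurd hdeg (not_lt.mpr this)
  have hc : p.coeff j = (a j : ℚ) := by
    rw [hp, Polynomial.finsetSum_coeff]
    rw [Finset.sum_eq_single j]
    · simp
    · intro b _ hb
      rw [Polynomial.coeff_C_mul_X_pow, if_neg (Ne.symm hb)]
    · intro h
      exact absurd (Finset.mem_range.mpr hj) h
  rw [hp0, Polynomial.coeff_zero] at hc
  exact_mod_cast hc.symm

namespace LIREL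

theorem sum_periodic {N : ℕ} (F : ℕ → ℂ) (hF : ∀ k, F (k + N) = F k) (j : ℕ) :
    ∑ k ∈ range N, F (k + j) = ∑ k ∈ range N, F k := by
  induction j with
  | zero => simp
  | succ j ih =>
    rw [← ih]
    have h1 := Finset.sum_range_succ (fun k => F (k + j)) N
    have h2 := Finset.sum_range_succ' (fun k => F (k + j)) N
    rw [h1] at h2
    have h3 : F (N + j) = F (0 + j) := by
      rw [show N + j = 0 + j + N by omega, hF]
    rw [h3] at h2
    have h4 := add_right_cancel h2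
    rw [h4]
    refine Finset.sum_congr rfl fun k _ => ?_
    congr 1
    omega

theorem sum_X {X : Type} [Fintype X] {H : Subgroup (Equiv.Perm X)} {c : Equiv.Perm X}
    (hC : Cx H c) {r t : Equiv.Perm X} {n : ℕ} (hT : Two H c r t n) (x₀ : X) (g : X → ℂ) :
    ∑ x, g x = ∑ j ∈ range (2 ^ n), g ((r ^ j) x₀) + ∑ j ∈ range (2 ^ n), g ((r ^ j) (t x₀)) := by
  classical
  have hN : 0 < 2 ^ n := by positivity
  have hpow : ∀ i j : ℕ, i < 2 ^ n → j < 2 ^ n → r ^ i = r ^ j → i = j := fun i j hi hj h =>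
    pow_injOn_Iio_orderOf (by rw [Set.mem_Iio, hT.ord]; exact hi)
      (by rw [Set.mem_Iio, hT.ord]; exact hj) h
  have hreg : ∀ a b : Equiv.Perm X, a ∈ H → b ∈ H → ∀ x, a x = b x → a = b := by
    intro a b ha hb x hx
    have := hT.reg (b⁻¹ * a) (H.mul_mem (H.inv_mem hb) ha) x (by
      rw [Equiv.Perm.mul_apply, hx]; exact b.symm_apply_apply x)
    rw [inv_mul_eq_one] at this
    exact this.symm
  have hr : ∀ k : ℕ, r ^ k ∈ H := fun k => H.pow_mem hT.memr k
  have hnt : ∀ i j : ℕ, j < 2 ^ n → r ^ i ≠ r ^ j * t := by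
    intro i j hj h
    refine hT.nt (2 ^ n - j + i) ?_
    have h1 : r ^ (2 ^ n - j) * r ^ j = 1 := by
      rw [← pow_add, Nat.sub_add_cancel hj.le, ← hT.ord, pow_orderOf_eq_one]
    calc t = (r ^ (2 ^ n - j) * r ^ j) * t := by rw [h1, one_mul]
      _ = r ^ (2 ^ n - j) * r ^ i := by rw [mul_assoc, ← h]
      _ = r ^ (2 ^ n - j + i) := by rw [pow_add]
  let e : Fin (2 ^ n) ⊕ Fin (2 ^ n) → X :=
    Sum.elim (fun j => (r ^ (j : ℕ)) x₀) (fun j => (r ^ (j : ℕ)) (t x₀))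
  have he : Function.Bijective e := by
    constructor
    · rintro (i | i) (j | j) h
      · have := hpow i j i.2 j.2 (hreg _ _ (hr i) (hr j) x₀ h)
        rw [Fin.ext this]
      · exact absurd (hreg (r ^ (i : ℕ)) (r ^ (j : ℕ) * t) (hr i) (H.mul_mem (hr j) hT.memt) x₀ h)
          (hnt i j j.2)
      · exact absurd (hreg (r ^ (j : ℕ)) (r ^ (i : ℕ) * t) (hr j) (H.mul_mem (hr i) hT.memt) x₀
          h.symm) (hnt j i i.2)
      · have := hpow i j i.2 j.2 (hreg _ _ (hr i) (hr j) (t x₀) h)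
        rw [Fin.ext this]
    · intro y
      obtain ⟨h, hh, rfl⟩ := hC.trans x₀ y
      obtain ⟨k, hk⟩ := hT.cov h hh
      have hmod : r ^ (k % 2 ^ n) = r ^ k := by
        rw [← hT.ord]
        exact pow_mod_orderOf r k
      rcases hk with rfl | rfl
      · refine ⟨Sum.inl ⟨k % 2 ^ n, Nat.mod_lt _ hN⟩, ?_⟩
        change (r ^ (k % 2 ^ n)) x₀ = _
        rw [hmod]
      · refine ⟨Sum.inr ⟨k % 2 ^ n, Nat.mod_lt _ hN⟩, ?_⟩
        change (r ^ (k % 2 ^ n)) (t x₀) = _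
        rw [hmod]
        rfl
  rw [← he.sum_comp, Fintype.sum_sum_type, Finset.sum_range, Finset.sum_range]
  rfl

end LIREL

open LIREL in
theorem p_REL : T_REL := by
  intro X _ H c hC r t n hT σ hσ τ hτ ε f hε hf x₀ ζ hζ
  have hr : ∀ k : ℕ, r ^ k ∈ H := fun k => H.pow_mem hT.memr k
  have hN1 : r ^ 2 ^ n = 1 := by rw [← hT.ord, pow_orderOf_eq_one]
  have hζ0 : ζ ≠ 0 := by
    rintro rfl
    rw [zero_pow (by positivity)] at hζ
    exact zero_ne_one hζ
  -- the Fourier transform of a periodic sequence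
  have hper : ∀ y : X, ∀ i : ℕ, ∑ k ∈ range (2 ^ n), (f ((r ^ (k + i)) y) : ℂ) * ζ ^ (k + i) =
      ∑ k ∈ range (2 ^ n), (f ((r ^ k) y) : ℂ) * ζ ^ k := by
    intro y i
    refine sum_periodic (fun k => (f ((r ^ k) y) : ℂ) * ζ ^ k) (fun k => ?_) i
    simp only [pow_add, hN1, hζ, mul_one]
  have hgen : ∀ (y : X) (e : ℕ → ℂ) (s : ℕ → ℕ) (w : ℂ), (∀ j, ζ⁻¹ ^ s j = w ^ j) →
      ∑ k ∈ range (2 ^ n), ζ ^ k * ∑ j ∈ range (2 ^ n), e j * (f ((r ^ (k + s j)) y) : ℂ) =
      (∑ j ∈ range (2 ^ n), e j * w ^ j) * ∑ k ∈ range (2 ^ n), (f ((r ^ k) y) : ℂ) * ζ ^ k := by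
    intro y e s w hw
    simp only [Finset.mul_sum]
    rw [Finset.sum_comm]
    simp only [← Finset.mul_sum]
    rw [Finset.sum_mul]
    refine Finset.sum_congr rfl fun j _ => ?_
    rw [← hper y (s j), Finset.mul_sum]
    refine Finset.sum_congr rfl fun k _ => ?_
    have h1 : ζ⁻¹ ^ s j * ζ ^ s j = 1 := by rw [← mul_pow, inv_mul_cancel₀ hζ0, one_pow]
    rw [← hw j, pow_add ζ k (s j)]
    linear_combination (-(ζ ^ k * e j * (f ((r ^ (k + s j)) y) : ℂ))) * h1
  have hodd : ∀ y, f (c y) = - f y := hf.1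
  have hcr : ∀ (k : ℕ) (y : X), (r ^ k) (c y) = c ((r ^ k) y) := fun k y =>
    (hC.comm _ (hr k) y).symm
  constructor
  · have hrel : ∀ k : ℕ, (∑ j ∈ range (2 ^ n), (ε ((r ^ j) x₀) : ℂ) * (f ((r ^ (k + j)) x₀) : ℂ)) +
        ∑ j ∈ range (2 ^ n), (ε ((r ^ j) (t x₀)) : ℂ) * (f ((r ^ (k + j)) (t x₀)) : ℂ) = 0 := by
      intro k
      have h1 := hf.2 (r ^ k) (hr k)
      have h2 : (∑ x, ((ε x : ℂ) * (f ((r ^ k) x) : ℂ))) = 0 := by
        have : ((∑ x, f ((r ^ k) x) * ε x : ℤ) : ℂ) = 0 := by rw [h1]; simp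
        rw [← this]
        push_cast
        exact Finset.sum_congr rfl fun x _ => mul_comm _ _
      rw [sum_X hC hT x₀] at h2
      simpa only [pow_add, Equiv.Perm.mul_apply] using h2
    have h3 := hgen x₀ (fun j => (ε ((r ^ j) x₀) : ℂ)) (fun j => j) ζ⁻¹ (fun j => rfl)
    have h4 := hgen (t x₀) (fun j => (ε ((r ^ j) (t x₀)) : ℂ)) (fun j => j) ζ⁻¹ (fun j => rfl)
    rw [← h3, ← h4, ← Finset.sum_add_distrib]
    refine Finset.sum_eq_zero fun k _ => ?_
    rw [← mul_add, hrel k, mul_zero]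
  · -- conjugation of powers
    have htr : ∀ j : ℕ, t * r ^ j = r ^ (σ * j) * t := by
      intro j
      have h1 : (t * r * t⁻¹) ^ j = t * r ^ j * t⁻¹ := conj_pow
      rw [hσ, ← pow_mul] at h1
      rw [h1, inv_mul_cancel_right]
    have htt : ∀ y, f (t (t y)) = τ * f y := by
      intro y
      rcases hτ with ⟨h1, h2⟩ | ⟨h1, h2⟩
      · have : t (t y) = y := by
          rw [← Equiv.Perm.mul_apply, h2]; rfl
        rw [this, h1, one_mul]
      · have : t (t y) = c y := by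
          rw [← Equiv.Perm.mul_apply, h2]
        rw [this, h1, hodd]; ring
    have httk : ∀ (k : ℕ) (y : X), f ((r ^ k) (t (t y))) = τ * f ((r ^ k) y) := by
      intro k y
      rcases hτ with ⟨h1, h2⟩ | ⟨h1, h2⟩
      · have : t (t y) = y := by
          rw [← Equiv.Perm.mul_apply, h2]; rfl
        rw [this, h1, one_mul]
      · have : t (t y) = c y := by
          rw [← Equiv.Perm.mul_apply, h2]
        rw [this, h1, hcr, hodd]; ring
    have hrel : ∀ k : ℕ, (∑ j ∈ range (2 ^ n), (ε ((r ^ j) x₀) : ℂ) *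
        (f ((r ^ (k + σ * j)) (t x₀)) : ℂ)) +
        (τ : ℂ) * ∑ j ∈ range (2 ^ n), (ε ((r ^ j) (t x₀)) : ℂ) *
          (f ((r ^ (k + σ * j)) x₀) : ℂ) = 0 := by
      intro k
      have h1 := hf.2 (r ^ k * t) (H.mul_mem (hr k) hT.memt)
      have h2 : (∑ x, ((ε x : ℂ) * (f ((r ^ k * t) x) : ℂ))) = 0 := by
        have : ((∑ x, f ((r ^ k * t) x) * ε x : ℤ) : ℂ) = 0 := by rw [h1]; simp
        rw [← this]
        push_cast
        exact Finset.sum_congr rfl fun x _ => mul_comm _ _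
      rw [sum_X hC hT x₀] at h2
      rw [← h2, Finset.mul_sum]
      congr 1
      · refine Finset.sum_congr rfl fun j _ => ?_
        have e1 : (r ^ k * t) ((r ^ j) x₀) = (r ^ (k + σ * j)) (t x₀) := by
          rw [← Equiv.Perm.mul_apply, mul_assoc, htr, ← mul_assoc, ← pow_add, Equiv.Perm.mul_apply]
        rw [e1]
      · refine Finset.sum_congr rfl fun j _ => ?_
        have e1 : (r ^ k * t) ((r ^ j) (t x₀)) = (r ^ (k + σ * j)) (t (t x₀)) := by
          rw [← Equiv.Perm.mul_apply, mul_assoc, htr, ← mul_assoc, ← pow_add, Equiv.Perm.mul_apply]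
        rw [e1, httk]
        push_cast
        ring
    have hw : ∀ j : ℕ, ζ⁻¹ ^ (σ * j) = (ζ⁻¹ ^ σ) ^ j := fun j => pow_mul _ _ _
    have h3 := hgen (t x₀) (fun j => (ε ((r ^ j) x₀) : ℂ)) (fun j => σ * j) (ζ⁻¹ ^ σ) hw
    have h4 := hgen x₀ (fun j => (ε ((r ^ j) (t x₀)) : ℂ)) (fun j => σ * j) (ζ⁻¹ ^ σ) hw
    rw [← h3, mul_assoc, ← h4, Finset.mul_sum, ← Finset.sum_add_distrib]
    refine Finset.sum_eq_zero fun k _ => ?_
    have := hrel k
    calc _ = ζ ^ k * ((∑ j ∈ range (2 ^ n), (ε ((r ^ j) x₀) : ℂ) *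
        (f ((r ^ (k + σ * j)) (t x₀)) : ℂ)) +
        (τ : ℂ) * ∑ j ∈ range (2 ^ n), (ε ((r ^ j) (t x₀)) : ℂ) *
          (f ((r ^ (k + σ * j)) x₀) : ℂ)) := by ring
      _ = 0 := by rw [this, mul_zero]

end Pool.Agent.ECF
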