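import Mathlib
import Pool.Agent.ECF.Targets

set_option autoImplicit false

/-!
# Every CM field: groups which are not 2-groups (T_NP)
-/

namespace Pool.Agent.ECF

open Finset
open scoped BigOperators

namespace NP_

variable {X : Type} [Fintype X]

/-- a group which is not a 2-group has an element of odd prime order -/
theorem exists_odd (H : Subgroup (Equiv.Perm X)) (hH : ¬ IsPGroup 2 H) :
    ∃ u ∈ H, ∃ q : ℕ, q.Prime ∧ q ≠ 2 ∧ orderOf u = q := by
  classical
  have h0 : Nat.card H ≠ 0 := Nat.card_pos.ne'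
  have h1 : ∃ q : ℕ, q.Prime ∧ q ∣ Nat.card H ∧ q ≠ 2 := by
    by_contra hcon
    push Not at hcon
    apply hH
    have := Nat.eq_prime_pow_of_unique_prime_dvd (p := 2) h0
      (fun {d} hd hd' => hcon d hd hd')
    exact IsPGroup.of_card this
  obtain ⟨q, hq, hqd, hq2⟩ := h1
  have : Fact q.Prime := ⟨hq⟩
  obtain ⟨g, hg⟩ := exists_prime_orderOf_dvd_card' (G := H) q hqd
  refine ⟨g, g.2, q, hq, hq2, ?_⟩
  rw [← hg, Subgroup.orderOf_coe]

/-- an element of odd order whose square fixes `x` fixes `x` -/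
theorem fix_of_sq (v : Equiv.Perm X) (q : ℕ) (hq : Odd q) (hv : v ^ q = 1) (x : X)
    (hx : v (v x) = x) : v x = x := by
  obtain ⟨k, rfl⟩ := hq
  have h1 : ((v ^ 2) ^ k) x = x := by
    have : ∀ k : ℕ, ((v ^ 2) ^ k) x = x := by
      intro k
      induction k with
      | zero => simp
      | succ k ih =>
        rw [pow_succ, Equiv.Perm.mul_apply]
        have : (v ^ 2) x = x := by rw [sq, Equiv.Perm.mul_apply, hx]
        rw [this, ih]
    exact this k
  have h2 : (v ^ (2 * k + 1)) x = v x := by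
    rw [pow_succ', Equiv.Perm.mul_apply, pow_mul, h1]
  rw [hv] at h2
  exact h2.symm

theorem flip_typ [DecidableEq X] (c : Equiv.Perm X) (hc : ∀ x, c (c x) = x) (x₀ : X)
    (η : X → ℤ) (hη : Typ c η) : Typ c (flip c x₀ η) := by
  refine ⟨fun x => ?_, fun x => ?_⟩
  · unfold flip
    split_ifs
    · rcases hη.1 x with h | h <;> simp [h]
    · exact hη.1 x
  · unfold flip
    have h1 : (c x = x₀ ∨ c x = c x₀) ↔ (x = x₀ ∨ x = c x₀) := by
      constructor
      · rintro (h | h)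
        · right; rw [← h, hc]
        · left; exact c.injective h
      · rintro (h | h)
        · right; rw [h]
        · left; rw [h, hc]
    by_cases h : x = x₀ ∨ x = c x₀
    · rw [if_pos h, if_pos (h1.2 h), hη.2]
    · rw [if_neg h, if_neg (fun h' => h (h1.1 h')), hη.2]

/-- the relations after the change of one sign -/
theorem flip_sum [DecidableEq X] (H : Subgroup (Equiv.Perm X)) (c : Equiv.Perm X) (hC : Cx H c)
    (x₀ : X) (η a : X → ℤ) (hη : Typ c η) (ha : Ann H c (flip c x₀ η) a) (h : Equiv.Perm X)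
    (hh : h ∈ H) : ∑ x, a (h x) * η x = 4 * (a (h x₀) * η x₀) := by
  have h1 := ha.2 h hh
  have h2 : ∀ x, a (h x) * η x = a (h x) * flip c x₀ η x +
      ((if x = x₀ then 2 * (a (h x₀) * η x₀) else 0) +
        (if x = c x₀ then 2 * (a (h (c x₀)) * η (c x₀)) else 0)) := by
    intro x
    unfold flip
    by_cases hx : x = x₀
    · have hx' : x ≠ c x₀ := by rw [hx]; exact (hC.ne x₀).symm
      rw [if_pos (Or.inl hx), if_pos hx, if_neg hx', hx]
      ring
    · by_cases hx' : x = c x₀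
      · rw [if_pos (Or.inr hx'), if_neg hx, if_pos hx', hx']
        ring
      · rw [if_neg (by tauto), if_neg hx, if_neg hx']
        ring
  rw [Finset.sum_congr rfl (fun x _ => h2 x), Finset.sum_add_distrib, h1,
    Finset.sum_add_distrib, Finset.sum_ite_eq', Finset.sum_ite_eq', if_pos (mem_univ _),
    if_pos (mem_univ _)]
  have h3 : a (h (c x₀)) = - a (h x₀) := by rw [← hC.comm h hh x₀, ha.1]
  rw [h3, hη.2]
  ring

/-- the blocks of the subgroup `J` -/
def blocks (H J : Subgroup (Equiv.Perm X)) (x₀ : X) (hJ : J ≤ H)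
    (hS : ∀ s ∈ H, s x₀ = x₀ → s ∈ J) (ht : ∀ x y : X, ∃ h ∈ H, h x = y) : Setoid X where
  r x y := ∃ h ∈ H, ∃ j ∈ J, x = h x₀ ∧ y = h (j x₀)
  iseqv := by
    refine ⟨fun x => ?_, fun {x y} => ?_, fun {x y z} => ?_⟩
    · obtain ⟨h, hh, hx⟩ := ht x₀ x
      exact ⟨h, hh, 1, J.one_mem, hx.symm, by simpa using hx.symm⟩
    · rintro ⟨h, hh, j, hj, rfl, rfl⟩
      refine ⟨h * j, H.mul_mem hh (hJ hj), j⁻¹, J.inv_mem hj, by simp, by simp⟩
    · rintro ⟨h, hh, j, hj, rfl, rfl⟩ ⟨h', hh', j', hj', he, rfl⟩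
      have hs : h'⁻¹ * (h * j) ∈ J := by
        apply hS _ (H.mul_mem (H.inv_mem hh') (H.mul_mem hh (hJ hj)))
        rw [Equiv.Perm.mul_apply, Equiv.Perm.mul_apply, he]
        simp
      refine ⟨h, hh, j * ((h'⁻¹ * (h * j))⁻¹ * j'), J.mul_mem hj (J.mul_mem (J.inv_mem hs) hj'),
        rfl, ?_⟩
      simp [mul_inv_rev, Equiv.Perm.mul_apply]

end NP_

open NP_ in
theorem p_NP (h1 : T_TYPE) (h2 : T_SUB) : T_NP := by
  classical
  intro X _ H c hC hH
  obtain ⟨u, huH, q, hq, hq2, hord⟩ := exists_odd H hH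
  have hqo : Odd q := hq.odd_of_ne_two hq2
  have huq : u ^ q = 1 := by rw [← hord]; exact pow_orderOf_eq_one u
  have hu1 : u ≠ 1 := by
    rintro rfl
    rw [orderOf_one] at hord
    exact hq.one_lt.ne hord
  obtain ⟨x₀, hx₀⟩ : ∃ x₀, u x₀ ≠ x₀ := by
    by_contra hcon
    push Not at hcon
    exact hu1 (Equiv.ext hcon)
  -- the type constant on the orbits of `u`
  obtain ⟨η, hη1, hη2, hη3⟩ := h1 X c hC.sq (Equiv.Perm.SameCycle.setoid u) (by
    rintro x y ⟨i, hi⟩
    refine ⟨i, ?_⟩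
    rw [← hC.comm _ (H.zpow_mem huH i), hi])
  have hSc : ∀ x, ¬ (Equiv.Perm.SameCycle.setoid u) x (c x) := by
    rintro x ⟨i, hi⟩
    have e1 : (u ^ i) ((u ^ i) x) = x := by
      rw [hi, ← hC.comm _ (H.zpow_mem huH i), hi, hC.sq]
    have e2 : (u ^ i) ^ q = 1 := by
      rw [← zpow_natCast, ← zpow_mul, mul_comm, zpow_mul, zpow_natCast, huq, one_zpow]
    have e3 := fix_of_sq (u ^ i) q hqo e2 x e1
    rw [hi] at e3
    exact hC.ne x e3
  have hη : Typ c η := ⟨hη1, fun x => hη3 x (hSc x)⟩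
  have hηu : ∀ x, η (u x) = η x := fun x => (hη2 x (u x) ⟨1, by simp⟩).symm
  -- the subgroup J
  set J : Subgroup (Equiv.Perm X) := Subgroup.closure ({s | s ∈ H ∧ s x₀ = x₀} ∪ {u}) with hJdef
  have hJH : J ≤ H := by
    rw [hJdef, Subgroup.closure_le]
    rintro s (hs | hs)
    · exact hs.1
    · rw [Set.mem_singleton_iff.1 hs]; exact huH
  have huJ : u ∈ J := Subgroup.subset_closure (Or.inr rfl)
  have hSJ : ∀ s ∈ H, s x₀ = x₀ → s ∈ J := fun s hs hs' =>
    Subgroup.subset_closure (Or.inl ⟨hs, hs'⟩)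
  by_cases hcJ : c ∈ J
  · refine ⟨flip c x₀ η, flip_typ c hC.sq x₀ η hη, ?_⟩
    intro a ha
    have key : ∀ h ∈ H, a (h (u x₀)) = a (h x₀) := by
      intro h hh
      have e1 := flip_sum H c hC x₀ η a hη ha h hh
      have e2 := flip_sum H c hC x₀ η a hη ha (h * u) (H.mul_mem hh huH)
      have e3 : ∑ x, a ((h * u) x) * η x = ∑ x, a (h x) * η x := by
        rw [← Equiv.sum_comp u (fun x => a (h x) * η x)]
        apply Finset.sum_congr rfl
        intro x _
        rw [Equiv.Perm.mul_apply, hηu]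
      rw [e3, e1, Equiv.Perm.mul_apply] at e2
      have hne : η x₀ ≠ 0 := by rcases hη1 x₀ with h | h <;> rw [h] <;> norm_num
      have e4 : a (h (u x₀)) * η x₀ = a (h x₀) * η x₀ := by linarith
      exact mul_right_cancel₀ hne e4
    have keyJ : ∀ j ∈ J, ∀ h ∈ H, a (h (j x₀)) = a (h x₀) := by
      intro j hj
      refine Subgroup.closure_induction (p := fun j _ => ∀ h ∈ H, a (h (j x₀)) = a (h x₀))
        ?_ ?_ ?_ ?_ hj
      · rintro s (hs | hs) h hh
        · rw [hs.2]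
        · rw [Set.mem_singleton_iff.1 hs]; exact key h hh
      · intro h hh; simp
      · intro j₁ j₂ hj₁ hj₂ i₁ i₂ h hh
        have := i₂ (h * j₁) (H.mul_mem hh (hJH hj₁))
        rw [Equiv.Perm.mul_apply, Equiv.Perm.mul_apply] at this
        rw [Equiv.Perm.mul_apply, this]
        exact i₁ h hh
      · intro j₁ hj₁ i₁ h hh
        have := i₁ (h * j₁⁻¹) (H.mul_mem hh (H.inv_mem (hJH hj₁)))
        rw [Equiv.Perm.mul_apply, Equiv.Perm.mul_apply] at this
        simpa using this.symm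
    funext y
    obtain ⟨h, hh, rfl⟩ := hC.trans x₀ y
    have e1 := keyJ c hcJ h hh
    rw [← hC.comm h hh, ha.1] at e1
    have : a (h x₀) = 0 := by linarith
    simpa using this
  · refine h2 X H c hC (blocks H J x₀ hJH hSJ hC.trans) ?_ ?_ ?_
    · rintro g hg x y ⟨h, hh, j, hj, rfl, rfl⟩
      exact ⟨g * h, H.mul_mem hg hh, j, hj, rfl, rfl⟩
    · rintro x ⟨h, hh, j, hj, hx, hy⟩
      apply hcJ
      rw [hx, hC.comm h hh] at hy
      have e1 : c x₀ = j x₀ := h.injective hy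
      have e2 : j⁻¹ * c ∈ J := by
        apply hSJ _ (H.mul_mem (H.inv_mem (hJH hj)) hC.mem)
        rw [Equiv.Perm.mul_apply, e1]
        simp
      have := J.mul_mem hj e2
      simpa using this
    · refine ⟨x₀, u x₀, u (u x₀), ⟨1, H.one_mem, u, huJ, rfl, rfl⟩, ⟨u, huH, u, huJ, rfl, rfl⟩,
        fun h => hx₀ h.symm, fun h => hx₀ (u.injective h).symm, fun h => ?_⟩
      exact hx₀ (fix_of_sq u q hqo huq x₀ h.symm)

end Pool.Agent.ECF
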