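import Mathlib
import Pool.Agent.ECF.FIN
import Pool.Agent.OneRed.Classes
import Pool.Agent.OneRed.OrdRed
import Pool.Agent.OneRed.Main

set_option autoImplicit false
set_option linter.unusedSectionVars false
set_option linter.unusedVariables false

/-!
# Every CM field: abelian varieties with one ordinary reduction of a given type
-/

namespace Pool.Agent.ECF

open NumberField Finset Module
open Pool.Agent.CMT (QBar IsCMType TateByDivisors cc cc_cc)
open Pool.Agent.CMTP (NotInduced HG NDeg HalfX)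
open Pool.Agent.CMV (IsOrdinary HasType)
open Pool.Agent.OneRed (Rep HH tateClass_iff byDivisors_iff)

/-- The abelian variety `A` over a number field (with the data `D`: its Tate module `V` with
coefficients in `F`, the Galois group `Γ`, the Weil pairing) has an ordinary reduction of type
`(K, Φ)`: for a Frobenius element `γ` of a place of good reduction with `q` elements in the residue
field, a power of the prime number `p`, the eigenvalues of `γ` on the Tate module are the conjugates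
`f π`, `f : K → QBar`, of an ordinary Weil `q`-number `π` in `K`, and `Φ` is the set of the
embeddings `f` for which `f π` is not a unit with respect to an embedding `ι` of the algebraic
numbers into the algebraic closure of the `p`-adic numbers; `e` embeds the algebraic numbers into
the field of the coefficients. -/
def HasReduction {K : Type} [Field K] [NumberField K] [IsCMField K] {F V Γ : Type} [Field F]
    [AddCommGroup V] [Module F V] [Group Γ] (D : Rep F V Γ) (Φ : Finset (K →+* QBar)) : Prop :=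
  ∃ (p : ℕ) (_ : Fact p.Prime) (q : ℕ) (π : K) (ι : QBar →+* PadicAlgCl p) (e : QBar →+* F)
    (b : Basis (K →+* QBar) F V) (γ : Γ),
    IsOrdinary p q π ∧ HasType ι π Φ ∧ (∀ f, D.ρ γ (b f) = e (f π) • b f) ∧ (D.χ γ : F) = q

/-- For every abelian variety over a number field which has an ordinary reduction of type
`(K, Φ)`, all Tate classes on all powers are linear combinations of products of Tate classes of
codimension one. -/
def ForcesTate {K : Type} [Field K] [NumberField K] [IsCMField K] (Φ : Finset (K →+* QBar)) :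
    Prop :=
  ∀ (F V Γ : Type) [Field F] [AddCommGroup V] [Module F V] [Group Γ] (D : Rep F V Γ),
    HasReduction D Φ → ∀ (r j : ℕ) (x : HH F V r), D.TateClass r j x → D.ByDivisors r x

variable {K : Type} [Field K] [NumberField K] [IsCMField K]

theorem forcesTate_of_ndeg {Φ : Finset (K →+* QBar)} (hΦ : IsCMType K Φ)
    (h : NDeg (HG K) cc Φ) : ForcesTate Φ := by
  classical
  intro F V Γ _ _ _ _ D hD r j x hx
  obtain ⟨p, hp, q, π, ι, e, b, γ, h1, h2, h3, h4⟩ := hD
  have hF : CharZero F := charZero_of_injective_ringHom e.injective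
  have h5 := OneRed.noRelation_of_low (J := Unit) (K := fun _ => K) e p q (fun _ => π)
    (fun _ => h1) ι (fun _ => Φ) (fun _ => hΦ) (fun _ => h2) (j + 1) (Nat.le_add_left 1 j)
    (OneRed.low_of_ndeg Φ h (j + 1))
  let E : (K →+* QBar) ≃ (Σ _ : Unit, K →+* QBar) :=
    { toFun := fun f => ⟨(), f⟩
      invFun := fun x => x.2
      left_inv := fun _ => rfl
      right_inv := fun _ => rfl }
  have h6 : ∀ s : Σ _ : Unit, K →+* QBar,
      D.ρ γ ((b.reindex E) s) = e (s.2 π) • (b.reindex E) s := by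
    intro s
    rw [Basis.reindex_apply]
    exact h3 s.2
  rw [← h4] at h5
  exact (byDivisors_iff D r x).2 (OneRed.main_B D (b.reindex E) (fun s => e (s.2 π)) γ h6 h5
    (Nat.le_succ j) ((tateClass_iff D r j x).1 hx))

namespace FIN_

theorem ndeg_of_nd {c : Equiv.Perm (K →+* QBar)} (hc : ∀ φ, c φ = cc φ)
    {Φ : Finset (K →+* QBar)} (hΦ : IsCMType K Φ) (h : ND (HG K) c (sgn Φ)) : NDeg (HG K) cc Φ := by
  classical
  intro f hodd hsol
  refine h f ⟨fun φ => by rw [hc]; exact hodd φ, fun g hg => ?_⟩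
  have h1 : HalfX cc Φᶜ := by
    intro φ
    have h2 : φ ∈ Φ ↔ cc φ ∉ Φ := hΦ φ
    rw [Finset.mem_compl, Finset.mem_compl]
    tauto
  have h2 := CMTP.half_sum cc cc_cc (Φ := Φ) (Ψ := Φᶜ) hΦ h1 (fun φ => f (g φ)) (by
    intro φ
    show f (g (cc φ)) = - f (g φ)
    rw [← CMTP.hg_cc g hg, hodd])
  have h3 : Φ \ Φᶜ = Φ := by
    ext φ
    simp
  rw [h3, hsol g hg, smul_zero, zero_sub, neg_eq_zero] at h2
  have h4 : ∑ φ, f (g φ) * sgn Φ φ =
      ∑ φ ∈ Φ, f (g φ) * sgn Φ φ + ∑ φ ∈ Φᶜ, f (g φ) * sgn Φ φ :=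
    (Finset.sum_add_sum_compl Φ _).symm
  rw [h4]
  have h5 : ∑ φ ∈ Φ, f (g φ) * sgn Φ φ = ∑ φ ∈ Φ, f (g φ) :=
    Finset.sum_congr rfl fun φ hφ => by rw [sgn_mem hφ, mul_one]
  have h6 : ∑ φ ∈ Φᶜ, f (g φ) * sgn Φ φ = - ∑ φ ∈ Φᶜ, f (g φ) := by
    rw [← Finset.sum_neg_distrib]
    refine Finset.sum_congr rfl fun φ hφ => ?_
    rw [Finset.mem_compl] at hφ
    rw [sgn_not_mem hφ]
    ring
  rw [h5, h6, h2, hsol g hg]
  simp

theorem exists_of_halfGood' {Good : Finset (K →+* QBar) → Prop}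
    (hgood : ∀ Φ, IsCMType K Φ → NDeg (HG K) cc Φ → Good Φ) {c : Equiv.Perm (K →+* QBar)}
    (hc : ∀ φ, c φ = cc φ)
    (h : HalfGood (HG K) c) : ∃ Φ : Finset (K →+* QBar), IsCMType K Φ ∧ Good Φ := by
  obtain ⟨ι, h1, h2, h3⟩ := h
  obtain ⟨Φ, hΦ⟩ := CMTP.exists_type (K := K)
  have hs := typ_sgn hc hΦ
  rcases h3 _ hs with h4 | h4
  · exact ⟨Φ, hΦ, hgood _ hΦ (ndeg_of_nd hc hΦ h4)⟩
  · have h5 := h1 _ hs
    refine ⟨pos (ι (sgn Φ)), type_pos hc h5,
      hgood _ (type_pos hc h5) (ndeg_of_nd hc (type_pos hc h5) ?_)⟩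
    rw [sgn_pos h5]
    exact h4

theorem card_half' {Good : Finset (K →+* QBar) → Prop}
    (hgood : ∀ Φ, IsCMType K Φ → NDeg (HG K) cc Φ → Good Φ) {c : Equiv.Perm (K →+* QBar)}
    (hc : ∀ φ, c φ = cc φ)
    (h : HalfGood (HG K) c) :
    2 * Nat.card {Φ : Finset (K →+* QBar) // IsCMType K Φ ∧ ¬ Good Φ} ≤
      Nat.card {Φ : Finset (K →+* QBar) // IsCMType K Φ} := by
  classical
  obtain ⟨ι, h1, h2, h3⟩ := h
  have hle : Nat.card {Φ : Finset (K →+* QBar) // IsCMType K Φ ∧ ¬ Good Φ} ≤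
      Nat.card {Φ : Finset (K →+* QBar) // IsCMType K Φ ∧ Good Φ} := by
    refine Nat.card_le_card_of_injective (fun Φ => ⟨pos (ι (sgn Φ.1)), ?_, ?_⟩) ?_
    · exact type_pos hc (h1 _ (typ_sgn hc Φ.2.1))
    · have hs := typ_sgn hc Φ.2.1
      rcases h3 _ hs with h4 | h4
      · exact absurd (hgood _ Φ.2.1 (ndeg_of_nd hc Φ.2.1 h4)) Φ.2.2
      · refine hgood _ (type_pos hc (h1 _ hs)) (ndeg_of_nd hc (type_pos hc (h1 _ hs)) ?_)
        rw [sgn_pos (h1 _ hs)]
        exact h4
    · intro Φ Ψ h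
      have h4 : pos (ι (sgn Φ.1)) = pos (ι (sgn Ψ.1)) := congrArg Subtype.val h
      have hs := typ_sgn hc Φ.2.1
      have ht := typ_sgn hc Ψ.2.1
      apply Subtype.ext
      rw [← pos_sgn Φ.1, ← h2 _ hs, ← sgn_pos (h1 _ hs), h4, sgn_pos (h1 _ ht), h2 _ ht,
        pos_sgn]
  have hsum : Nat.card {Φ : Finset (K →+* QBar) // IsCMType K Φ} =
      Nat.card {Φ : Finset (K →+* QBar) // IsCMType K Φ ∧ Good Φ} +
      Nat.card {Φ : Finset (K →+* QBar) // IsCMType K Φ ∧ ¬ Good Φ} := by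
    rw [Nat.card_eq_fintype_card, Nat.card_eq_fintype_card, Nat.card_eq_fintype_card,
      Fintype.card_subtype, Fintype.card_subtype, Fintype.card_subtype,
      ← Finset.filter_filter, ← Finset.filter_filter,
      Finset.card_filter_add_card_filter_not]
  omega

end FIN_

open FIN_ in
theorem p_FIN2 (hFLDA : T_FLDA) (hFLDB : T_FLDB) (hCONJ : T_CONJ) (hPG : T_PG) (hP2 : T_P2)
    (hNP : T_NP) (K : Type) [Field K] [NumberField K] [IsCMField K]
    (Good : Finset (K →+* QBar) → Prop)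
    (hgood : ∀ Φ, IsCMType K Φ → NDeg (HG K) cc Φ → Good Φ) :
    (ExcField K → ∀ Φ : Finset (K →+* QBar), IsCMType K Φ → ¬ NotInduced Φ) ∧
    (¬ ExcField K →
      (∃ Φ : Finset (K →+* QBar), IsCMType K Φ ∧ Good Φ) ∧
      ∀ p n : ℕ, p.Prime → finrank ℚ K = 2 * p ^ n →
        2 * Nat.card {Φ : Finset (K →+* QBar) // IsCMType K Φ ∧ ¬ Good Φ} ≤
          Nat.card {Φ : Finset (K →+* QBar) // IsCMType K Φ}) := by
  classical
  refine ⟨hFLDA K, fun hexc => ?_⟩
  obtain ⟨c, hcm, hc⟩ := hCONJ K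
  have hX := cx hc hcm
  have hne : Nonempty (K →+* QBar) := ⟨((IsAlgClosed.lift : K →ₐ[ℚ] QBar) : K →+* QBar)⟩
  have htwo : (∃ n, Fintype.card (K →+* QBar) = 2 ^ n) → HalfGood (HG K) c := by
    intro hn
    rcases hP2 _ (HG K) c hX hne hn with h | h
    · exact h
    · exact absurd (exc_of hFLDB h) hexc
  constructor
  · by_cases hH : IsPGroup 2 (HG K)
    · rcases hPG _ (HG K) c hX hne hH with h | h
      · exact exists_of_halfGood' hgood hc h
      · exact absurd (exc_of hFLDB h) hexc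
    · obtain ⟨ε, h1, h2⟩ := hNP _ (HG K) c hX hH
      refine ⟨pos ε, type_pos hc h1, hgood _ (type_pos hc h1) (ndeg_of_nd hc (type_pos hc h1) ?_)⟩
      rw [sgn_pos h1]
      exact h2
  · intro p n hp hK
    by_cases hp2 : p = 2
    · apply card_half' hgood hc
      apply htwo
      refine ⟨n + 1, ?_⟩
      rw [CMTP.card_emb, hK, hp2, pow_succ]
      ring
    rcases Nat.eq_zero_or_pos n with hn | hn
    · apply card_half' hgood hc
      apply htwo
      refine ⟨1, ?_⟩
      rw [CMTP.card_emb, hK, hn]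
      norm_num
    · have h3 : 3 ≤ p ^ n := by
        have h4 : 3 ≤ p := by
          have := hp.two_le
          omega
        calc 3 ≤ p := h4
          _ = p ^ 1 := (pow_one p).symm
          _ ≤ p ^ n := Nat.pow_le_pow_right hp.pos hn
      obtain ⟨O, hO, h5⟩ := CMTP.good_of_odd p n hp hp2 hK h3
      exact CMTP.count_half O hO p hp Good fun Φ hΦ hk => hgood Φ hΦ (h5 Φ hΦ hk)

end Pool.Agent.ECF
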