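import Mathlib
import Pool.Agent.ECF.Targets

set_option autoImplicit false

/-!
# Types from invariant equivalence relations; a subfield of index at least three
-/

namespace Pool.Agent.ECF

open Finset
open scoped BigOperators

theorem p_TYPE : T_TYPE := by
  classical
  intro X _ c hc S hS
  let cl : X → ℕ := fun x => ((Fintype.equivFin (Quotient S) (Quotient.mk S x) : Fin _) : ℕ)
  have hcl : ∀ x y, cl x = cl y ↔ S x y := by
    intro x y
    constructor
    · intro h
      have h1 : Fintype.equivFin (Quotient S) (Quotient.mk S x) =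
          Fintype.equivFin (Quotient S) (Quotient.mk S y) := Fin.ext h
      exact Quotient.exact ((Fintype.equivFin (Quotient S)).injective h1)
    · intro h
      have h1 : Quotient.mk S x = Quotient.mk S y := Quotient.sound h
      change ((Fintype.equivFin (Quotient S) (Quotient.mk S x) : Fin _) : ℕ) =
        ((Fintype.equivFin (Quotient S) (Quotient.mk S y) : Fin _) : ℕ)
      rw [h1]
  refine ⟨fun x => if cl x ≤ cl (c x) then 1 else -1, ?_, ?_, ?_⟩
  · intro x
    by_cases h : cl x ≤ cl (c x) <;> simp [h]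
  · intro x y h
    have h1 := (hcl x y).2 h
    have h2 := (hcl (c x) (c y)).2 (hS x y h)
    simp only [h1, h2]
  · intro x h
    have h1 : cl x ≠ cl (c x) := fun h2 => h ((hcl _ _).1 h2)
    by_cases h2 : cl x ≤ cl (c x)
    · have h3 : ¬ cl (c x) ≤ cl x := by omega
      simp [hc, h2, h3]
    · have h3 : cl (c x) ≤ cl x := by omega
      simp [hc, h2, h3]

namespace SUB_

variable {X : Type} [Fintype X]

/-- all classes have the same cardinality -/
theorem card_class [DecidableEq X] (H : Subgroup (Equiv.Perm X)) (c : Equiv.Perm X) (hX : Cx H c)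
    (R : Setoid X) [DecidableRel R.r] (hR : ∀ h ∈ H, ∀ x y, R x y → R (h x) (h y)) (x y : X) :
    (univ.filter fun z => R z x).card = (univ.filter fun z => R z y).card := by
  classical
  obtain ⟨h, hh, hxy⟩ := hX.trans x y
  refine Finset.card_bij (fun z _ => h z) ?_ ?_ ?_
  · intro z hz
    simp only [mem_filter, mem_univ, true_and] at hz ⊢
    rw [← hxy]
    exact hR h hh _ _ hz
  · intro z _ z' _ hzz
    exact h.injective hzz
  · intro z hz
    simp only [mem_filter, mem_univ, true_and] at hz ⊢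
    refine ⟨h⁻¹ z, ?_, by simp⟩
    have h1 := hR h⁻¹ (H.inv_mem hh) _ _ hz
    rw [← hxy] at h1
    simpa using h1

/-- sums of functions constant on the classes -/
theorem dvd_sum_const [DecidableEq X] (R : Setoid X) [DecidableRel R.r] (F : ℕ)
    (hF : ∀ x, (univ.filter fun z => R z x).card = F) (g : X → ℤ)
    (hg : ∀ x y, R x y → g x = g y) : (F : ℤ) ∣ ∑ x, g x := by
  classical
  rw [← Finset.sum_fiberwise (s := (univ : Finset X)) (g := fun x => Quotient.mk R x) (f := g)]
  refine Finset.dvd_sum ?_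
  intro q _
  obtain ⟨x, rfl⟩ := Quotient.exists_rep q
  have h1 : ∑ i ∈ univ.filter (fun i => Quotient.mk R i = Quotient.mk R x), g i =
      ∑ i ∈ univ.filter (fun z => R z x), g x := by
    refine Finset.sum_congr ?_ ?_
    · ext z
      simp only [mem_filter, mem_univ, true_and]
      exact ⟨fun h => Quotient.exact h, fun h => Quotient.sound h⟩
    · intro z hz
      simp only [mem_filter, mem_univ, true_and] at hz
      exact hg _ _ hz
  refine Dvd.intro (g x) ?_
  rw [h1, Finset.sum_const, hF]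
  simp

/-- the sum over the classes against a function constant on the classes -/
theorem sum_class [DecidableEq X] (R : Setoid X) [DecidableRel R.r] (F : ℕ)
    (hF : ∀ x, (univ.filter fun z => R z x).card = F) (b g : X → ℤ)
    (hg : ∀ x y, R x y → g x = g y) :
    ∑ x, (∑ z ∈ univ.filter (fun z => R z x), b z) * g x = (F : ℤ) * ∑ x, b x * g x := by
  classical
  have h1 : ∀ x, (∑ z ∈ univ.filter (fun z => R z x), b z) * g x =
      ∑ z, if R z x then b z * g z else 0 := by
    intro x
    rw [Finset.sum_mul, Finset.sum_filter]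
    refine Finset.sum_congr rfl ?_
    intro z _
    by_cases h : R z x
    · simp only [h, if_true]
      rw [hg z x h]
    · simp [h]
  simp only [h1]
  rw [Finset.sum_comm, Finset.mul_sum]
  refine Finset.sum_congr rfl ?_
  intro z _
  rw [← Finset.sum_filter, Finset.sum_const]
  have h2 : (univ.filter fun x => R z x) = univ.filter fun x => R x z := by
    ext x
    simp only [mem_filter, mem_univ, true_and]
    exact ⟨fun h => R.symm h, fun h => R.symm h⟩
  rw [h2, hF]
  simp

/-- the sum of an invariant function is divisible by twice the cardinality of the classes -/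
theorem two_dvd [DecidableEq X] (c : Equiv.Perm X)
    (R : Setoid X) [DecidableRel R.r] (F : ℕ)
    (hF : ∀ x, (univ.filter fun z => R z x).card = F) (τ : X → ℤ)
    (hτ1 : ∀ x, τ x = 1 ∨ τ x = -1) (hτR : ∀ x y, R x y → τ x = τ y)
    (hτc : ∀ x, τ (c x) = - τ x) (g : X → ℤ) (hg : ∀ x y, R x y → g x = g y)
    (hgc : ∀ x, g (c x) = g x) : ∃ k : ℤ, ∑ x, g x = 2 * (F : ℤ) * k := by
  classical
  have h1 : (F : ℤ) ∣ ∑ x, (if τ x = 1 then g x else 0) := by
    refine dvd_sum_const R F hF _ ?_
    intro x y h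
    rw [hτR x y h, hg x y h]
  obtain ⟨k, hk⟩ := h1
  refine ⟨k, ?_⟩
  have h2 : ∑ x, g x = ∑ x, (if τ x = 1 then g x else 0) +
      ∑ x, (if τ (c x) = 1 then g (c x) else 0) := by
    rw [← Finset.sum_add_distrib]
    refine Finset.sum_congr rfl ?_
    intro x _
    rcases hτ1 x with h | h
    · rw [hτc, h]
      norm_num
    · rw [hτc, h, hgc]
      norm_num
  have h3 : ∑ x, (if τ (c x) = 1 then g (c x) else 0) = ∑ x, (if τ x = 1 then g x else 0) :=
    Equiv.sum_comp c (fun x => if τ x = 1 then g x else 0)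
  rw [h2, h3, hk]
  ring

/-- a number which divides -/
theorem exists_p (F : ℕ) (hF : 3 ≤ F) :
    ∃ p : ℕ, 2 ≤ p ∧ ∀ z : ℤ, (F : ℤ) ∣ 2 * z → (p : ℤ) ∣ z := by
  rcases Nat.even_or_odd' F with ⟨k, hk | hk⟩
  · refine ⟨k, by omega, ?_⟩
    intro z hz
    rw [hk] at hz
    push_cast at hz
    exact (mul_dvd_mul_iff_left (by norm_num : (2 : ℤ) ≠ 0)).1 hz
  · refine ⟨F, by omega, ?_⟩
    intro z hz
    have h1 : IsCoprime (F : ℤ) 2 := by
      refine ⟨1, -k, ?_⟩
      rw [hk]
      push_cast
      ring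
    exact h1.dvd_of_dvd_mul_left hz

/-- the descent -/
theorem descent [DecidableEq X] (H : Subgroup (Equiv.Perm X)) (c : Equiv.Perm X) (hX : Cx H c)
    (R : Setoid X) [DecidableRel R.r] (hR : ∀ h ∈ H, ∀ x y, R x y → R (h x) (h y)) (F : ℕ)
    (hF : ∀ x, (univ.filter fun z => R z x).card = F) (hF3 : 3 ≤ F) (τ : X → ℤ)
    (hτ1 : ∀ x, τ x = 1 ∨ τ x = -1) (hτR : ∀ x y, R x y → τ x = τ y)
    (hτc : ∀ x, τ (c x) = - τ x) (ζ : X → ℤ) (hζR : ∀ x y, R x y → ζ x = ζ y)
    (hζc : ∀ x, ζ (c x) = - ζ x) (s : ℤ) (hs : s = 1 ∨ s = -1) (x₀ : X) (A : X → ℤ)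
    (hAR : ∀ x y, R x y → A x = A y) (hAc : ∀ x, A (c x) = - A x)
    (hA : ∀ h ∈ H, ∑ x, A (h x) * ζ x = 4 * s * A (h x₀)) : ∀ y, A y = 0 := by
  classical
  obtain ⟨p, hp2, hp⟩ := exists_p F hF3
  have hp0 : (p : ℤ) ≠ 0 := by
    have : p ≠ 0 := by omega
    exact_mod_cast this
  have key : ∀ n : ℕ, ∀ A : X → ℤ, (∀ x y, R x y → A x = A y) → (∀ x, A (c x) = - A x) →
      (∀ h ∈ H, ∑ x, A (h x) * ζ x = 4 * s * A (h x₀)) → ∀ y, (p : ℤ) ^ n ∣ A y := by
    intro n
    induction n with
    | zero =>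
      intro A _ _ _ y
      simp
    | succ n ih =>
      intro A hAR hAc hA
      have h1 : ∀ y, (p : ℤ) ∣ A y := by
        intro y
        obtain ⟨h, hh, hy⟩ := hX.trans x₀ y
        refine hp _ ?_
        obtain ⟨k, hk⟩ := two_dvd c R F hF τ hτ1 hτR hτc (fun x => A (h x) * ζ x) (by
          intro x z hxz
          rw [hAR _ _ (hR h hh x z hxz), hζR x z hxz]) (by
          intro x
          rw [← hX.comm h hh x, hAc, hζc]
          ring)
        have h2 := hA h hh
        rw [hk, hy] at h2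
        have h3 : (F : ℤ) * k = 2 * s * A y := by linarith
        rcases hs with hs | hs
        · refine ⟨k, ?_⟩
          rw [h3, hs]
          ring
        · refine ⟨-k, ?_⟩
          rw [hs] at h3
          linarith
      choose B hB using h1
      have h4 := ih B (by
        intro x y hxy
        have h5 := hAR x y hxy
        rw [hB x, hB y] at h5
        exact mul_left_cancel₀ hp0 h5) (by
        intro x
        have h5 := hAc x
        rw [hB x, hB (c x)] at h5
        refine mul_left_cancel₀ hp0 ?_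
        rw [h5]
        ring) (by
        intro h hh
        have h5 := hA h hh
        refine mul_left_cancel₀ hp0 ?_
        have h6 : (p : ℤ) * ∑ x, B (h x) * ζ x = ∑ x, A (h x) * ζ x := by
          rw [Finset.mul_sum]
          refine Finset.sum_congr rfl ?_
          intro x _
          rw [hB (h x)]
          ring
        rw [h6, h5, hB (h x₀)]
        ring)
      intro y
      rw [hB y, pow_succ, mul_comm]
      exact mul_dvd_mul_left _ (h4 y)
  intro y
  have h1 := key (A y).natAbs A hAR hAc hA y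
  by_contra h2
  have h3 : (A y).natAbs < p ^ (A y).natAbs := Nat.lt_pow_self (by omega)
  have h4 : p ^ (A y).natAbs ∣ (A y).natAbs := by
    have := Int.natAbs_dvd_natAbs.2 h1
    simpa [Int.natAbs_pow] using this
  have h5 : 0 < (A y).natAbs := Int.natAbs_pos.2 h2
  have h6 := Nat.le_of_dvd h5 h4
  omega

/-- sums over the stabilizer of a class -/
theorem sum_J [DecidableEq X] (H : Subgroup (Equiv.Perm X)) (c : Equiv.Perm X) (hX : Cx H c)
    (R : Setoid X) [DecidableRel R.r] [DecidablePred fun j : Equiv.Perm X => j ∈ H] (x₀ : X)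
    (g : X → ℤ) :
    ∑ j ∈ univ.filter (fun j : Equiv.Perm X => j ∈ H ∧ R (j x₀) x₀), g (j x₀) =
      ((univ.filter fun j : Equiv.Perm X => j ∈ H ∧ j x₀ = x₀).card : ℤ) *
        ∑ y ∈ univ.filter (fun y => R y x₀), g y := by
  classical
  rw [← Finset.sum_fiberwise_of_maps_to (g := fun j : Equiv.Perm X => j x₀)
    (t := univ.filter (fun y => R y x₀))]
  · rw [Finset.mul_sum]
    refine Finset.sum_congr rfl ?_
    intro y hy
    simp only [mem_filter, mem_univ, true_and] at hy
    obtain ⟨k, hk, hky⟩ := hX.trans x₀ y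
    have h1 : ∑ j ∈ (univ.filter (fun j : Equiv.Perm X => j ∈ H ∧ R (j x₀) x₀)).filter
        (fun j => j x₀ = y), g (j x₀) =
        ∑ j ∈ (univ.filter (fun j : Equiv.Perm X => j ∈ H ∧ R (j x₀) x₀)).filter
        (fun j => j x₀ = y), g y := by
      refine Finset.sum_congr rfl ?_
      intro j hj
      rw [(mem_filter.1 hj).2]
    rw [h1, Finset.sum_const]
    have h2 : ((univ.filter (fun j : Equiv.Perm X => j ∈ H ∧ R (j x₀) x₀)).filter
        (fun j => j x₀ = y)).card =
        (univ.filter fun j : Equiv.Perm X => j ∈ H ∧ j x₀ = x₀).card := by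
      refine Finset.card_bij (fun j _ => k⁻¹ * j) ?_ ?_ ?_
      · intro j hj
        simp only [mem_filter, mem_univ, true_and] at hj ⊢
        refine ⟨H.mul_mem (H.inv_mem hk) hj.1.1, ?_⟩
        rw [Equiv.Perm.mul_apply, hj.2, ← hky]
        simp
      · intro j _ j' _ hjj
        exact mul_left_cancel hjj
      · intro j hj
        simp only [mem_filter, mem_univ, true_and] at hj
        refine ⟨k * j, ?_, by simp⟩
        simp only [mem_filter, mem_univ, true_and, Equiv.Perm.mul_apply, hj.2, hky, and_true]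
        exact ⟨H.mul_mem hk hj.1, hy⟩
    rw [h2]
    simp
  · intro j hj
    simp only [mem_filter, mem_univ, true_and] at hj ⊢
    exact hj.2

/-- the coarser relation -/
def SS (H : Subgroup (Equiv.Perm X)) (R : Setoid X)
    (hR : ∀ h ∈ H, ∀ x y, R x y → R (h x) (h y)) (x₀ : X) : Setoid X where
  r := fun x y => ∃ j ∈ H, R (j x₀) x₀ ∧ R (j x) y
  iseqv := by
    refine ⟨?_, ?_, ?_⟩
    · intro x
      exact ⟨1, H.one_mem, R.refl _, R.refl _⟩
    · rintro x y ⟨j, hj, h1, h2⟩
      refine ⟨j⁻¹, H.inv_mem hj, ?_, ?_⟩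
      · have h3 := hR j⁻¹ (H.inv_mem hj) _ _ h1
        rw [← Equiv.Perm.mul_apply, inv_mul_cancel, Equiv.Perm.one_apply] at h3
        exact R.symm h3
      · have h3 := hR j⁻¹ (H.inv_mem hj) _ _ h2
        rw [← Equiv.Perm.mul_apply, inv_mul_cancel, Equiv.Perm.one_apply] at h3
        exact R.symm h3
    · rintro x y z ⟨j, hj, h1, h2⟩ ⟨k, hk, h3, h4⟩
      refine ⟨k * j, H.mul_mem hk hj, ?_, ?_⟩
      · exact R.trans (hR k hk _ _ h1) h3
      · exact R.trans (hR k hk _ _ h2) h4

end SUB_

theorem p_SUB (h1 : T_TYPE) (_h2 : T_SUM2) : T_SUB := by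
  classical
  intro X _ H c hX R hR hRc hthree
  obtain ⟨x0, x1, x2, h01, h12, hne01, hne12, hne02⟩ := hthree
  obtain ⟨F, hFdef⟩ : ∃ F : ℕ, F = (univ.filter fun z => R z x0).card := ⟨_, rfl⟩
  have hF : ∀ x, (univ.filter fun z => R z x).card = F := fun x => by
    rw [hFdef]
    exact SUB_.card_class H c hX R hR x x0
  have hF3 : 3 ≤ F := by
    have h3 : ({x0, x1, x2} : Finset X).card = 3 := by
      rw [Finset.card_eq_three]
      exact ⟨x0, x1, x2, hne01, hne02, hne12, rfl⟩
    rw [← h3, hFdef]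
    refine Finset.card_le_card ?_
    intro z hz
    simp only [mem_insert, mem_singleton] at hz
    simp only [mem_filter, mem_univ, true_and]
    rcases hz with rfl | rfl | rfl
    · exact R.refl _
    · exact R.symm h01
    · exact R.symm (R.trans h01 h12)
  obtain ⟨S, hS⟩ : ∃ S : Setoid X, S = SUB_.SS H R hR x0 := ⟨_, rfl⟩
  have hSdef : ∀ x y, S x y ↔ ∃ j ∈ H, R (j x0) x0 ∧ R (j x) y := by
    intro x y
    rw [hS]
    rfl
  have hSc : ∀ x y, S x y → S (c x) (c y) := by
    intro x y hxy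
    obtain ⟨j, hj, h3, h4⟩ := (hSdef x y).1 hxy
    refine (hSdef _ _).2 ⟨j, hj, h3, ?_⟩
    rw [← hX.comm j hj]
    exact hR c hX.mem _ _ h4
  have hRS : ∀ x y, R x y → S x y := by
    intro x y hxy
    exact (hSdef _ _).2 ⟨1, H.one_mem, R.refl _, hxy⟩
  have hjS : ∀ j ∈ H, R (j x0) x0 → ∀ x, S x (j x) := by
    intro j hj h3 x
    exact (hSdef _ _).2 ⟨j, hj, h3, R.refl _⟩
  have hScc : ∀ x y, S x y → (S x (c x) ↔ S y (c y)) := by
    intro x y hxy
    constructor
    · intro h
      exact S.trans (S.symm hxy) (S.trans h (hSc _ _ hxy))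
    · intro h
      exact S.trans hxy (S.trans h (S.symm (hSc _ _ hxy)))
  have hSccc : ∀ x, S (c x) (c (c x)) ↔ S x (c x) := by
    intro x
    rw [hX.sq]
    exact ⟨fun h => S.symm h, fun h => S.symm h⟩
  obtain ⟨τ, hτ1, hτR, hτc⟩ := h1 X c hX.sq R (fun x y h => hR c hX.mem x y h)
  obtain ⟨σ, hσ1, hσS, hσc⟩ := h1 X c hX.sq S hSc
  have hτc' : ∀ x, τ (c x) = - τ x := fun x => hτc x (hRc x)
  obtain ⟨η, hη⟩ : ∃ η : X → ℤ, ∀ x, η x = if S x (c x) then τ x else σ x := ⟨_, fun _ => rfl⟩
  obtain ⟨ζ, hζ⟩ : ∃ ζ : X → ℤ, ∀ x, ζ x = if S x (c x) then 0 else η x := ⟨_, fun _ => rfl⟩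
  have hη1 : ∀ x, η x = 1 ∨ η x = -1 := by
    intro x
    rw [hη]
    split_ifs
    · exact hτ1 x
    · exact hσ1 x
  have hηc : ∀ x, η (c x) = - η x := by
    intro x
    rw [hη, hη]
    by_cases h : S x (c x)
    · rw [if_pos h, if_pos ((hSccc x).2 h), hτc']
    · rw [if_neg h, if_neg (fun h3 => h ((hSccc x).1 h3)), hσc x h]
  have hηR : ∀ x y, R x y → η x = η y := by
    intro x y hxy
    rw [hη, hη]
    have h3 := hScc x y (hRS _ _ hxy)
    by_cases h : S x (c x)
    · rw [if_pos h, if_pos (h3.1 h), hτR x y hxy]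
    · rw [if_neg h, if_neg (fun h4 => h (h3.2 h4)), hσS x y (hRS _ _ hxy)]
  have hζR : ∀ x y, R x y → ζ x = ζ y := by
    intro x y hxy
    rw [hζ, hζ]
    have h3 := hScc x y (hRS _ _ hxy)
    by_cases h : S x (c x)
    · rw [if_pos h, if_pos (h3.1 h)]
    · rw [if_neg h, if_neg (fun h4 => h (h3.2 h4)), hηR x y hxy]
  have hζc : ∀ x, ζ (c x) = - ζ x := by
    intro x
    rw [hζ, hζ]
    by_cases h : S x (c x)
    · rw [if_pos h, if_pos ((hSccc x).2 h), neg_zero]
    · rw [if_neg h, if_neg (fun h3 => h ((hSccc x).1 h3)), hηc]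
  -- the average over the stabilizer of the class
  obtain ⟨J, hJ⟩ : ∃ J : Finset (Equiv.Perm X),
      J = univ.filter (fun j : Equiv.Perm X => j ∈ H ∧ R (j x0) x0) := ⟨_, rfl⟩
  have hJm : ∀ j, j ∈ J ↔ j ∈ H ∧ R (j x0) x0 := by
    intro j
    rw [hJ]
    simp
  have hJinv : ∀ j ∈ J, j⁻¹ ∈ J := by
    intro j hj
    obtain ⟨h3, h4⟩ := (hJm j).1 hj
    refine (hJm _).2 ⟨H.inv_mem h3, ?_⟩
    have h5 := hR j⁻¹ (H.inv_mem h3) _ _ h4
    rw [← Equiv.Perm.mul_apply, inv_mul_cancel, Equiv.Perm.one_apply] at h5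
    exact R.symm h5
  have hJmul : ∀ j ∈ J, ∀ k ∈ J, j * k ∈ J := by
    intro j hj k hk
    obtain ⟨h3, h4⟩ := (hJm j).1 hj
    obtain ⟨h5, h6⟩ := (hJm k).1 hk
    exact (hJm _).2 ⟨H.mul_mem h3 h5, R.trans (hR j h3 _ _ h6) h4⟩
  have hav : ∀ x, ∑ j ∈ J, η (j x) = (J.card : ℤ) * ζ x := by
    intro x
    rw [hζ]
    by_cases h : S x (c x)
    · rw [if_pos h, mul_zero]
      obtain ⟨k, hk, h3, h4⟩ := (hSdef _ _).1 h
      have hkJ : k ∈ J := (hJm k).2 ⟨hk, h3⟩
      have h5 : ∑ j ∈ J, η (j x) = ∑ j ∈ J, η ((j * k) x) := by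
        symm
        refine Finset.sum_bij (fun j _ => j * k) ?_ ?_ ?_ ?_
        · intro j hj
          exact hJmul j hj k hkJ
        · intro j _ j' _ hjj
          exact mul_right_cancel hjj
        · intro j hj
          exact ⟨j * k⁻¹, hJmul j hj _ (hJinv k hkJ), by simp⟩
        · intro j _
          rfl
      have h6 : ∑ j ∈ J, η ((j * k) x) = - ∑ j ∈ J, η (j x) := by
        rw [← Finset.sum_neg_distrib]
        refine Finset.sum_congr rfl ?_
        intro j hj
        obtain ⟨h7, h8⟩ := (hJm j).1 hj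
        rw [← hηc, hX.comm j h7, Equiv.Perm.mul_apply]
        exact hηR _ _ (hR j h7 _ _ h4)
      linarith
    · rw [if_neg h]
      have h5 : ∑ j ∈ J, η (j x) = ∑ j ∈ J, η x := by
        refine Finset.sum_congr rfl ?_
        intro j hj
        obtain ⟨h7, h8⟩ := (hJm j).1 hj
        have h9 := hjS j h7 h8 x
        have h10 := hScc _ _ h9
        rw [hη, hη, if_neg h, if_neg (fun h11 => h (h10.2 h11)), hσS _ _ h9]
      rw [h5, Finset.sum_const]
      simp
  have hav' : ∀ x, ∑ j ∈ J, η (j⁻¹ x) = (J.card : ℤ) * ζ x := by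
    intro x
    rw [← hav]
    refine Finset.sum_bij (fun j _ => j⁻¹) (fun j hj => hJinv j hj) ?_ ?_ ?_
    · intro j _ j' _ hjj
      exact inv_injective hjj
    · intro j hj
      exact ⟨j⁻¹, hJinv j hj, by simp⟩
    · intro j _
      rfl
  -- the type
  have hne : c x0 ≠ x0 := hX.ne x0
  refine ⟨flip c x0 η, ⟨?_, ?_⟩, ?_⟩
  · intro x
    unfold flip
    split_ifs
    · rcases hη1 x with h | h <;> rw [h] <;> simp
    · exact hη1 x
  · intro x
    unfold flip
    have h3 : (c x = x0 ∨ c x = c x0) ↔ (x = x0 ∨ x = c x0) := by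
      constructor
      · rintro (h | h)
        · right
          rw [← h, hX.sq]
        · left
          exact c.injective h
      · rintro (h | h)
        · right
          rw [h]
        · left
          rw [h, hX.sq]
    by_cases h : x = x0 ∨ x = c x0
    · rw [if_pos h, if_pos (h3.2 h), hηc]
    · rw [if_neg h, if_neg (fun h4 => h (h3.1 h4)), hηc]
  · intro a ha
    obtain ⟨hac, hann⟩ := ha
    -- the first relation
    have e1 : ∀ h ∈ H, ∑ x, a (h x) * η x = 4 * η x0 * a (h x0) := by
      intro h hh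
      have h3 : ∑ x, a (h x) * η x = ∑ x, a (h x) * flip c x0 η x +
          ∑ x ∈ ({x0, c x0} : Finset X), 2 * a (h x) * η x := by
        have h4 : ∑ x ∈ ({x0, c x0} : Finset X), 2 * a (h x) * η x =
            ∑ x, if x ∈ ({x0, c x0} : Finset X) then 2 * a (h x) * η x else 0 := by
          rw [Finset.sum_ite_mem, Finset.univ_inter]
        rw [h4, ← Finset.sum_add_distrib]
        refine Finset.sum_congr rfl ?_
        intro x _
        unfold flip
        simp only [mem_insert, mem_singleton]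
        split_ifs
        · ring
        · ring
      rw [h3, hann h hh, Finset.sum_pair (Ne.symm hne), hηc, ← hX.comm h hh, hac]
      ring
    -- sums over the classes
    obtain ⟨A, hAdef⟩ : ∃ A : X → ℤ, ∀ x, A x = ∑ z ∈ univ.filter (fun z => R z x), a z :=
      ⟨_, fun _ => rfl⟩
    have hAh : ∀ h ∈ H, ∀ x, A (h x) = ∑ z ∈ univ.filter (fun z => R z x), a (h z) := by
      intro h hh x
      rw [hAdef]
      symm
      refine Finset.sum_bij (fun z _ => h z) ?_ ?_ ?_ ?_
      · intro z hz
        simp only [mem_filter, mem_univ, true_and] at hz ⊢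
        exact hR h hh _ _ hz
      · intro z _ z' _ hzz
        exact h.injective hzz
      · intro z hz
        simp only [mem_filter, mem_univ, true_and] at hz
        refine ⟨h⁻¹ z, ?_, by simp⟩
        simp only [mem_filter, mem_univ, true_and]
        have h5 := hR h⁻¹ (H.inv_mem hh) _ _ hz
        rw [← Equiv.Perm.mul_apply h⁻¹ h, inv_mul_cancel, Equiv.Perm.one_apply] at h5
        exact h5
      · intro z _
        rfl
    have hAR : ∀ x y, R x y → A x = A y := by
      intro x y hxy
      rw [hAdef, hAdef]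
      refine Finset.sum_congr ?_ (fun _ _ => rfl)
      ext z
      simp only [mem_filter, mem_univ, true_and]
      exact ⟨fun h => R.trans h hxy, fun h => R.trans h (R.symm hxy)⟩
    have hAc : ∀ x, A (c x) = - A x := by
      intro x
      rw [hAh c hX.mem, hAdef, ← Finset.sum_neg_distrib]
      exact Finset.sum_congr rfl (fun z _ => hac z)
    have hsum : ∀ (h : Equiv.Perm X), h ∈ H → ∀ g : X → ℤ, (∀ x y, R x y → g x = g y) →
        ∑ x, A (h x) * g x = (F : ℤ) * ∑ x, a (h x) * g x := by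
      intro h hh g hg
      rw [← SUB_.sum_class R F hF (fun x => a (h x)) g hg]
      refine Finset.sum_congr rfl ?_
      intro x _
      rw [hAh h hh]
    obtain ⟨w, hw⟩ : ∃ w : ℕ, w =
      (univ.filter fun j : Equiv.Perm X => j ∈ H ∧ j x0 = x0).card := ⟨_, rfl⟩
    have hw0 : (w : ℤ) ≠ 0 := by
      have h3 : 0 < w := by
        rw [hw, Finset.card_pos]
        refine ⟨1, ?_⟩
        simp only [mem_filter, mem_univ, true_and]
        exact ⟨H.one_mem, rfl⟩
      exact_mod_cast h3.ne'
    have hJsum : ∀ g : X → ℤ, ∑ j ∈ J, g (j x0) =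
        (w : ℤ) * ∑ y ∈ univ.filter (fun y => R y x0), g y := by
      intro g
      rw [hJ, hw]
      exact SUB_.sum_J H c hX R x0 g
    have hJcard : (J.card : ℤ) = (w : ℤ) * F := by
      have h3 := hJsum (fun _ => 1)
      rw [Finset.sum_const, Finset.sum_const, hF] at h3
      simpa using h3
    have e4 : ∀ h ∈ H, ∑ x, A (h x) * ζ x = 4 * η x0 * A (h x0) := by
      intro h hh
      have h3 : ∑ j ∈ J, ∑ x, a (h (j x)) * η x = ∑ j ∈ J, 4 * η x0 * a (h (j x0)) := by
        refine Finset.sum_congr rfl ?_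
        intro j hj
        exact e1 (h * j) (H.mul_mem hh ((hJm j).1 hj).1)
      have h4 : ∑ j ∈ J, ∑ x, a (h (j x)) * η x = (J.card : ℤ) * ∑ x, a (h x) * ζ x := by
        have h5 : ∀ j ∈ J, ∑ x, a (h (j x)) * η x = ∑ x, a (h x) * η (j⁻¹ x) := by
          intro j _
          rw [← Equiv.sum_comp j (fun x => a (h x) * η (j⁻¹ x))]
          refine Finset.sum_congr rfl ?_
          intro x _
          rw [← Equiv.Perm.mul_apply j⁻¹ j, inv_mul_cancel, Equiv.Perm.one_apply]
        rw [Finset.sum_congr rfl h5, Finset.sum_comm, Finset.mul_sum]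
        refine Finset.sum_congr rfl ?_
        intro x _
        rw [← Finset.mul_sum, hav']
        ring
      have h6 : ∑ j ∈ J, 4 * η x0 * a (h (j x0)) = (w : ℤ) * (4 * η x0 * A (h x0)) := by
        rw [← Finset.mul_sum, hJsum (fun y => a (h y)), hAh h hh]
        ring
      rw [h4, h6, hJcard, mul_assoc, ← hsum h hh ζ hζR] at h3
      exact mul_left_cancel₀ hw0 h3
    have hA0 := SUB_.descent H c hX R hR F hF hF3 τ hτ1 hτR hτc' ζ hζR hζc (η x0) (hη1 x0) x0 A
      hAR hAc e4
    have hF0 : (F : ℤ) ≠ 0 := by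
      have : F ≠ 0 := by omega
      exact_mod_cast this
    funext y
    obtain ⟨h, hh, hy⟩ := hX.trans x0 y
    have h3 := hsum h hh η hηR
    simp only [hA0, zero_mul, Finset.sum_const_zero] at h3
    have h4 : ∑ x, a (h x) * η x = 0 := by
      rcases mul_eq_zero.1 h3.symm with h5 | h5
      · exact absurd h5 hF0
      · exact h5
    rw [e1 h hh, hy] at h4
    rcases hη1 x0 with h5 | h5
    · rw [h5] at h4
      change a y = 0
      linarith
    · rw [h5] at h4
      change a y = 0
      linarith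

end Pool.Agent.ECF
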