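import Mathlib
import Pool.Agent.ECF.Targets

set_option autoImplicit false

/-!
# Every CM field: the dihedral group of order eight as a Sylow subgroup
-/

namespace Pool.Agent.ECF

open Finset

namespace SYL8_

/-- the four cosets of the centre of the dihedral group -/
def kap : DihedralGroup 4 → Fin 4
  | .r i => if i = 0 ∨ i = 2 then 0 else 1
  | .sr i => if i = 0 ∨ i = 2 then 2 else 3

theorem kap_iff : ∀ a b : DihedralGroup 4, kap a = kap b ↔ b = a ∨ b = a * .r 2 := by decide

theorem kap_surj : ∀ i : Fin 4, ∃ a, kap a = i := by decide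

theorem central : ∀ z : DihedralGroup 4, z ≠ 1 → (∀ g, z * g = g * z) → z = .r 2 := by decide

theorem square : ∀ g : DihedralGroup 4, g * g = .r 2 → g = .r 1 ∨ g = .r 1 * .r 2 := by decide

theorem perm_eq0 : ∀ a b : Equiv.Perm (Fin 4), ((∀ i, a i ≠ i) ∧ (∀ i, b i ≠ i) ∧ a * a = 1 ∧
    b * b = 1 ∧ ∃ i, a i = b i) → a = b := by decide

theorem perm_eq (a b : Equiv.Perm (Fin 4)) (h1 : ∀ i, a i ≠ i) (h2 : ∀ i, b i ≠ i)
    (h3 : a * a = 1) (h4 : b * b = 1) (h5 : ∃ i, a i = b i) : a = b :=
  perm_eq0 a b ⟨h1, h2, h3, h4, h5⟩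

theorem perm_sq : ∀ a : Equiv.Perm (Fin 4), ∀ i j : Fin 4, i ≠ j → a i = i → a j = j →
    a * a = 1 := by decide

/-- the permutation of the four classes -/
theorem exists_act {X : Type} (c : Equiv.Perm X) (e : X → Fin 4) (hs : Function.Surjective e)
    (he : ∀ x y, e x = e y ↔ y = x ∨ y = c x) (h : Equiv.Perm X)
    (hc : ∀ x, c (h x) = h (c x)) : ∃ a : Equiv.Perm (Fin 4), ∀ x, a (e x) = e (h x) := by
  choose s hs' using hs
  have h1 : ∀ x, e (h (s (e x))) = e (h x) := by
    intro x
    rcases (he (s (e x)) x).1 (hs' _) with h2 | h2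
    · rw [← h2]
    · rw [he]
      right
      rw [hc, ← h2]
  have hinj : Function.Injective (fun i => e (h (s i))) := by
    intro i j hij
    rcases (he _ _).1 hij with h2 | h2
    · rw [← hs' i, ← hs' j, h.injective h2]
    · rw [hc] at h2
      rw [← hs' i, ← hs' j]
      exact (he _ _).2 (Or.inr (h.injective h2))
  exact ⟨Equiv.ofBijective _ (Finite.injective_iff_bijective.1 hinj), h1⟩

end SYL8_

open SYL8_ in
theorem p_SYL8 : T_SYL8 := by
  classical
  intro X _ H P c hH hX hPH hP hPc ⟨φ⟩ ⟨k, hk, hk2⟩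
  have hne : Nonempty X := Fintype.card_pos_iff.1 (by omega)
  obtain ⟨x₀⟩ := hne
  -- `P` is regular
  have hbij : Function.Bijective (fun p : P => (p : Equiv.Perm X) x₀) := by
    rw [Fintype.bijective_iff_surjective_and_card]
    refine ⟨fun x => ?_, ?_⟩
    · obtain ⟨p, hp, hpx⟩ := hP.trans x₀ x
      exact ⟨⟨p, hp⟩, hpx⟩
    · rw [hX, ← hPc, Nat.card_eq_fintype_card]
  obtain ⟨F, hF⟩ : ∃ F : P ≃ X, ∀ p : P, F p = (p : Equiv.Perm X) x₀ :=
    ⟨Equiv.ofBijective _ hbij, fun _ => rfl⟩
  have hreg : ∀ p ∈ P, ∀ q ∈ P, ∀ x, p x = q x → p = q := by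
    intro p hp q hq x hpq
    obtain ⟨w, hw, hwx⟩ := hP.trans x₀ x
    have h1 : (⟨p, hp⟩ * ⟨w, hw⟩ : P) = ⟨q, hq⟩ * ⟨w, hw⟩ := by
      apply F.injective
      rw [hF, hF]
      show p (w x₀) = q (w x₀)
      rw [hwx, hpq]
    have h2 := mul_right_cancel h1
    exact congrArg Subtype.val h2
  -- the element `c`
  obtain ⟨cP, hcP⟩ : ∃ cP : P, cP = ⟨c, hP.mem⟩ := ⟨_, rfl⟩
  have hcP1 : (cP : Equiv.Perm X) = c := by rw [hcP]
  have hφc : φ cP = .r 2 := by
    apply central
    · intro h
      rw [map_eq_one_iff φ φ.injective] at h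
      apply hP.ne x₀
      rw [← hcP1, h]
      rfl
    · intro g
      obtain ⟨q, rfl⟩ := φ.surjective g
      rw [← map_mul, ← map_mul]
      congr 1
      apply Subtype.ext
      ext x
      show (cP : Equiv.Perm X) ((q : Equiv.Perm X) x) = (q : Equiv.Perm X) ((cP : Equiv.Perm X) x)
      rw [hcP1]
      exact hP.comm _ q.2 x
  -- the four classes
  obtain ⟨e, he0⟩ : ∃ e : X → Fin 4, ∀ x, e x = kap (φ (F.symm x)) := ⟨_, fun _ => rfl⟩
  have hsymm : ∀ x, F.symm (c x) = F.symm x * cP := by
    intro x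
    apply F.injective
    rw [Equiv.apply_symm_apply, hF]
    show c x = (F.symm x : Equiv.Perm X) ((cP : Equiv.Perm X) x₀)
    rw [hcP1, ← hP.comm _ (F.symm x).2, ← hF, Equiv.apply_symm_apply]
  have he : ∀ x y, e x = e y ↔ y = x ∨ y = c x := by
    intro x y
    rw [he0, he0, kap_iff]
    constructor
    · rintro (h | h)
      · exact Or.inl (F.symm.injective (φ.injective h))
      · right
        apply F.symm.injective
        apply φ.injective
        rw [hsymm, map_mul, hφc, h]
    · rintro (h | h)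
      · exact Or.inl (by rw [h])
      · exact Or.inr (by rw [h, hsymm, map_mul, hφc])
  have hesurj : Function.Surjective e := by
    intro i
    obtain ⟨a, ha⟩ := kap_surj i
    refine ⟨F (φ.symm a), ?_⟩
    rw [he0, Equiv.symm_apply_apply, MulEquiv.apply_symm_apply, ha]
  have hact : ∀ h ∈ H, ∃ a : Equiv.Perm (Fin 4), ∀ x, a (e x) = e (h x) := fun h hh =>
    exists_act c e hesurj he h (hH.comm h hh)
  -- the stabilizer has odd order
  have hstab : ∀ h ∈ H, h x₀ = x₀ → h ^ k = 1 := by
    intro h hh hx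
    have h1 : Nat.card (MulAction.stabilizer H x₀) = k := by
      have h2 := (MulAction.stabilizer H x₀).card_mul_index
      rw [MulAction.index_stabilizer] at h2
      have h3 : MulAction.orbit H x₀ = Set.univ := by
        ext x
        simp only [Set.mem_univ, iff_true]
        obtain ⟨g, hg, hgx⟩ := hH.trans x₀ x
        exact ⟨⟨g, hg⟩, hgx⟩
      rw [h3, Set.ncard_univ, Nat.card_eq_fintype_card (α := X), hX, hk] at h2
      omega
    have h4 : (⟨h, hh⟩ : H) ∈ MulAction.stabilizer H x₀ := hx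
    have h5 := Subgroup.orderOf_dvd_natCard _ h4
    rw [h1] at h5
    have h6 : (⟨h, hh⟩ : H) ^ k = 1 := orderOf_dvd_iff_pow_eq_one.1 h5
    have h7 := congrArg Subtype.val h6
    simpa using h7
  have hodd : ∀ h ∈ H, h x₀ = x₀ → h * h = 1 → h = 1 := by
    intro h hh hx h2
    have h3 := hstab h hh hx
    have h4 : k % 2 = 1 := by omega
    have h5 : k = 2 * (k / 2) + 1 := by omega
    rw [h5, pow_succ, pow_mul, pow_two, h2, one_pow, one_mul] at h3
    exact h3
  have hker : ∀ h ∈ H, (∀ x, e (h x) = e x) → h = 1 ∨ h = c := by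
    intro h hh hx
    have h1 : ∀ x, h x = x ∨ h x = c x := fun x => (he _ _).1 (hx x).symm
    have h2 : h * h = 1 := by
      ext x
      show h (h x) = x
      rcases h1 x with h3 | h3
      · rw [h3, h3]
      · rw [h3, ← hH.comm h hh, h3, hH.sq]
    rcases h1 x₀ with h3 | h3
    · exact Or.inl (hodd h hh h3 h2)
    · right
      have h4 : c * h = 1 := by
        refine hodd (c * h) (H.mul_mem hH.mem hh) ?_ ?_
        · show c (h x₀) = x₀
          rw [h3, hH.sq]
        · ext x
          show c (h (c (h x))) = x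
          rw [← hH.comm h hh, hH.sq]
          have h5 := congrArg (fun g : Equiv.Perm X => g x) h2
          exact h5
      have h6 : c * c = 1 := by
        ext x
        exact hH.sq x
      have h7 : c * (c * h) = c := by rw [h4, mul_one]
      rw [← mul_assoc, h6, one_mul] at h7
      exact h7
  -- the element of order four
  obtain ⟨r, hr⟩ : ∃ r : P, φ r = .r 1 := φ.surjective _
  have hrr : (r : Equiv.Perm X) * r = c := by
    have h1 : r * r = cP := by
      apply φ.injective
      rw [map_mul, hr, hφc]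
      decide
    rw [← hcP1, ← h1]
    rfl
  have hfree : ∀ p ∈ P, p ≠ 1 → p ≠ c → ∀ x, e (p x) ≠ e x := by
    intro p hp h1 hpc x hx
    rcases (he _ _).1 hx.symm with h2 | h2
    · exact h1 (hreg p hp 1 P.one_mem x h2)
    · exact hpc (hreg p hp c hP.mem x h2)
  have hr1 : (r : Equiv.Perm X) ≠ 1 := by
    intro h
    rw [h, one_mul] at hrr
    exact hP.ne x₀ (by rw [← hrr]; rfl)
  have hc1 : c ≠ 1 := by
    intro h
    exact hP.ne x₀ (by rw [h]; rfl)
  have hr2 : (r : Equiv.Perm X) ≠ c := by
    intro h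
    rw [h] at hrr
    exact hc1 (mul_eq_left.1 hrr)
  -- the squares are in the centre
  have hpsq : ∀ p ∈ P, p * p = 1 ∨ p * p = c := by
    intro p hp
    have h1 : ∀ g : DihedralGroup 4, g * g = 1 ∨ g * g = .r 2 := by decide
    rcases h1 (φ ⟨p, hp⟩) with h2 | h2
    · left
      rw [← map_mul, map_eq_one_iff φ φ.injective] at h2
      exact congrArg Subtype.val h2
    · right
      rw [← map_mul, ← hφc] at h2
      rw [← hcP1]
      exact congrArg Subtype.val (φ.injective h2)
  have hinv : ∀ (z : Equiv.Perm X) (a : Equiv.Perm (Fin 4)), (∀ x, a (e x) = e (z x)) →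
      (z * z = 1 ∨ z * z = c) → (∀ x, e (z x) ≠ e x) → (∀ i, a i ≠ i) ∧ a * a = 1 := by
    intro z a ha hz hfr
    refine ⟨fun i => ?_, ?_⟩
    · obtain ⟨x, rfl⟩ := hesurj i
      rw [ha]
      exact hfr x
    · ext i
      obtain ⟨x, rfl⟩ := hesurj i
      have h1 : (a * a) (e x) = e ((z * z) x) := by
        show a (a (e x)) = e (z (z x))
        rw [ha, ha]
      rw [h1]
      rcases hz with h2 | h2
      · rw [h2]
        rfl
      · rw [h2, (he x (c x)).2 (Or.inr rfl)]
        rfl
  -- every element of the stabilizer is trivial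
  have hmain : ∀ u ∈ H, u x₀ = x₀ → u = 1 := by
    intro u hu hux
    obtain ⟨z, hz⟩ : ∃ z : Equiv.Perm X, z = u * r * u⁻¹ := ⟨_, rfl⟩
    have hzH : z ∈ H := by
      rw [hz]
      exact H.mul_mem (H.mul_mem hu (hPH r.2)) (H.inv_mem hu)
    have huc : u * c = c * u := by
      ext x
      exact (hH.comm u hu x).symm
    have hzz : z * z = c := by
      rw [hz]
      have h1 : u * (r : Equiv.Perm X) * u⁻¹ * (u * r * u⁻¹) = u * (r * r) * u⁻¹ := by group
      rw [h1, hrr, huc]
      group
    have hzfree : ∀ x, e (z x) ≠ e x := by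
      intro x hx
      rcases (he _ _).1 hx.symm with h2 | h2
      · have h3 : z * z = 1 * 1 → False := by
          intro h
          rw [hzz, mul_one] at h
          exact hc1 h
        have h4 : (z * z) x = x := by
          show z (z x) = x
          rw [h2, h2]
        rw [hzz] at h4
        exact hP.ne x h4
      · have h4 : (z * z) x = x := by
          show z (z x) = x
          rw [h2, ← hH.comm z hzH, h2, hH.sq]
        rw [hzz] at h4
        exact hP.ne x h4
    obtain ⟨p, hp, hpx⟩ := hP.trans x₀ (z x₀)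
    have hpfree : ∀ x, e (p x) ≠ e x := by
      refine hfree p hp ?_ ?_
      · intro h
        rw [h] at hpx
        exact hzfree x₀ (by rw [← hpx]; rfl)
      · intro h
        rw [h] at hpx
        exact hzfree x₀ (by rw [← hpx]; exact ((he x₀ (c x₀)).2 (Or.inr rfl)).symm)
    obtain ⟨az, haz⟩ := hact z hzH
    obtain ⟨ap, hap⟩ := hact p (hPH hp)
    obtain ⟨hz1, hz2⟩ := hinv z az haz (Or.inr hzz) hzfree
    obtain ⟨hp1, hp2⟩ := hinv p ap hap (hpsq p hp) hpfree
    have haeq : ap = az := perm_eq ap az hp1 hz1 hp2 hz2 ⟨e x₀, by rw [hap, haz, hpx]⟩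
    have hzP : z ∈ P := by
      have h1 : p⁻¹ * z = 1 ∨ p⁻¹ * z = c := by
        refine hker _ (H.mul_mem (H.inv_mem (hPH hp)) hzH) (fun x => ?_)
        apply ap.injective
        rw [hap]
        show e (p (p⁻¹ (z x))) = ap (e x)
        rw [haeq, haz, show p (p⁻¹ (z x)) = z x from p.apply_symm_apply _]
      rcases h1 with h2 | h2
      · rw [inv_mul_eq_one] at h2
        rw [← h2]
        exact hp
      · rw [inv_mul_eq_iff_eq_mul] at h2
        rw [h2]
        exact P.mul_mem hp hP.mem
    have hzr : z x₀ = (r : Equiv.Perm X) x₀ ∨ z x₀ = c ((r : Equiv.Perm X) x₀) := by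
      have h1 : φ ⟨z, hzP⟩ * φ ⟨z, hzP⟩ = .r 2 := by
        rw [← map_mul, ← hφc]
        congr 1
        apply Subtype.ext
        rw [hcP1]
        exact hzz
      rcases square _ h1 with h2 | h2
      · left
        rw [← hr] at h2
        have h3 := congrArg Subtype.val (φ.injective h2)
        have h4 : z = r := h3
        rw [h4]
      · right
        rw [← hr, ← hφc, ← map_mul] at h2
        have h3 := congrArg Subtype.val (φ.injective h2)
        have h4 : z = (r : Equiv.Perm X) * c := by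
          rw [← hcP1]
          exact h3
        rw [h4, hP.comm _ r.2]
        rfl
    have huinv : u⁻¹ x₀ = x₀ := by
      rw [Equiv.Perm.inv_eq_iff_eq]
      exact hux.symm
    have hzx : z x₀ = u ((r : Equiv.Perm X) x₀) := by
      rw [hz]
      show u ((r : Equiv.Perm X) (u⁻¹ x₀)) = _
      rw [huinv]
    obtain ⟨au, hau⟩ := hact u hu
    have h1 : au * au = 1 := by
      refine perm_sq au (e x₀) (e ((r : Equiv.Perm X) x₀)) ?_ ?_ ?_
      · exact (hfree _ r.2 hr1 hr2 x₀).symm
      · rw [hau, hux]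
      · rw [hau, ← hzx]
        symm
        rw [he]
        exact hzr
    have h2 : u * u = 1 ∨ u * u = c := by
      refine hker _ (H.mul_mem hu hu) (fun x => ?_)
      show e (u (u x)) = e x
      rw [← hau, ← hau]
      have h3 := congrArg (fun g : Equiv.Perm (Fin 4) => g (e x)) h1
      exact h3
    rcases h2 with h3 | h3
    · exact hodd u hu hux h3
    · exfalso
      apply hP.ne x₀
      rw [← h3]
      show u (u x₀) = x₀
      rw [hux, hux]
  apply le_antisymm _ hPH
  intro h hh
  obtain ⟨p, hp, hpx⟩ := hP.trans x₀ (h x₀)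
  have h1 : p⁻¹ * h = 1 := by
    refine hmain _ (H.mul_mem (H.inv_mem (hPH hp)) hh) ?_
    show p⁻¹ (h x₀) = x₀
    rw [← hpx]
    exact p.symm_apply_apply _
  rw [inv_mul_eq_one] at h1
  rw [← h1]
  exact hp

end Pool.Agent.ECF
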